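import Pool.Agent.Helper158.Num.Fin

/-! Every opponent which is a numbering of the family is equivalent to `nu` or above `mu`. -/

namespace Pool.Agent.Helper158.Num

open Classical

variable {P : Par} {n : ℕ}

variable (P n) in
/-- the first numbering -/
def nu (X : ℕ) : Set ℕ := F P n (3 * X)

variable (P n) in
/-- the second numbering -/
def mu (y : ℕ) : Set ℕ := F P n (ag y)

lemma ag_mod (y : ℕ) : ag y % 3 ≠ 0 := by unfold ag; omega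

section
variable (hP : P.Ok n)

lemma FC.inv {c : Cl} (hc : FC P c) : ∃ t, c ∈ (st P t).1 ∧ Inv (st P t).1 (st P t).2 := by
  obtain ⟨t, -, h⟩ := hc.at 0
  exact ⟨t, h, Num.inv P t⟩

lemma FC.nu_mem {c : Cl} (hc : FC P c) : (3 * c.id, 0) ∈ c.mem := by
  obtain ⟨t, h, hI⟩ := hc.inv
  exact (hI.r3 c h _ _ (hI.rself c h)).2.1

lemma FC.mu_mem {c : Cl} (hc : FC P c) : (3 * c.id + 1, 1) ∈ c.mem := by
  obtain ⟨t, h, hI⟩ := hc.inv
  exact hI.ms1 c h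

include hP in
lemma nu_eq_mu (X : ℕ) : ∃ y, nu P n X = mu P n y := by
  refine ⟨2 * (fc hP (3 * X)).id, ?_⟩
  unfold nu mu
  have h1 : ag (2 * (fc hP (3 * X)).id) = 3 * (fc hP (3 * X)).id + 1 := by unfold ag; omega
  rw [h1]
  exact F_eq_of_mem hP (fc_FC hP _) (fc_mem hP _) (fc_FC hP _).mu_mem

include hP in
lemma mu_eq_nu (y : ℕ) : ∃ X, mu P n y = nu P n X :=
  ⟨(fc hP (ag y)).id, F_eq_of_mem hP (fc_FC hP _) (fc_mem hP _) (fc_FC hP _).nu_mem⟩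

include hP in
/-- each agent has the set of some index of `nu` -/
lemma F_eq_nu (α : ℕ) : ∃ X, F P n α = nu P n X :=
  ⟨(fc hP α).id, F_eq_of_mem hP (fc_FC hP _) (fc_mem hP _) (fc_FC hP _).nu_mem⟩

lemma nu_class (X : ℕ) : (X, 3, 0) ∈ (fc hP (3 * X)).recs ∨ (X, 0, 0) ∈ (fc hP (3 * X)).recs := by
  obtain ⟨t, ht, h⟩ := (fc_FC hP (3 * X)).at (X + 1)
  have hI := inv P t
  obtain ⟨c, hc, h1, h2⟩ := hI.rex X (by have := le_next P t; omega)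
  obtain ⟨rfl, -⟩ := hI.mu c hc _ h _ _ _ h1 (fc_mem hP (3 * X))
  rcases h2 with h2 | ⟨h2, -⟩
  · exact Or.inl h2
  · exact Or.inr h2

/-- two final classes, one of which has `X` as an unseparated name -/
lemma FC.r3 {c d : Cl} (hc : FC P c) (hd : FC P d) {X b j' b' : ℕ} (h1 : (X, 3, b) ∈ c.recs)
    (h2 : (X, j', b') ∈ d.recs) : d = c ∧ j' = 3 := by
  obtain ⟨t, -, h3, h4⟩ := hc.common hd 0
  have hI := Num.inv P t
  obtain rfl := (hI.r3 c h3 _ _ h1).2.2 d h4 _ _ h2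
  exact ⟨rfl, (hI.ru _ h3 _ _ _ _ _ h1 h2).1.symm⟩

lemma FC.rj {c d : Cl} (hc : FC P c) (hd : FC P d) {X j b b' : ℕ} (h1 : (X, j, b) ∈ c.recs)
    (h2 : (X, j, b') ∈ d.recs) (h3 : b ≠ 0) (h4 : b' ≠ 0) : c = d := by
  obtain ⟨t, -, h5, h6⟩ := hc.common hd 0
  exact (Num.inv P t).rj c h5 d h6 _ _ _ _ h1 h2 h3 h4

lemma FC.nu_of {c : Cl} (hc : FC P c) {X j b : ℕ} (h1 : (X, j, b) ∈ c.recs) (hj : j = 3 ∨ j = 0) :
    (3 * X, 0) ∈ c.mem := by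
  obtain ⟨t, h, hI⟩ := hc.inv
  rcases hj with rfl | rfl
  · exact (hI.r3 c h _ _ h1).2.1
  · exact (hI.r0 c h _ _ h1).2.2

/-- the separated names committed for `e` -/
def Ee (e : ℕ) : Set ℕ := {X | (X, 0, 0) ∈ (fc hP (3 * X)).recs ∧ ∃ j, (j = 1 ∨ j = 2) ∧
  ∃ i, 1 ≤ cf hP e i (elt e i 0 X) ∧ 2 ≤ cf hP e i (elt e i j X)}

/-! ### first case -/

def GR (P : Par) (e s i X : ℕ) : Prop := ∃ c ∈ (st P s).1, (X, 3, 0) ∈ c.recs ∧
  1 ≤ P.cnt e s i (elt e i 0 X) ∧ 1 ≤ P.cnt e s i (elt e i 1 X) ∧ 1 ≤ P.cnt e s i (elt e i 2 X)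

def HR (P : Par) (e s X i : ℕ) : Prop := ∃ c ∈ (st P s).1, (3 * X, 0) ∈ c.mem ∧
  (((X, 3, 0) ∈ c.recs ∧ 1 ≤ P.cnt e s i (elt e i 0 X) ∧ 1 ≤ P.cnt e s i (elt e i 1 X) ∧
    1 ≤ P.cnt e s i (elt e i 2 X)) ∨ (c.typ = 0 ∧ 1 ≤ P.cnt e s i (elt e i 0 c.id)))

def FR (P : Par) (e s y i : ℕ) : Prop := ∃ c ∈ (st P s).1, ∃ ρ, (ag y, ρ) ∈ c.mem ∧
  ((c.typ = 0 ∧ 1 ≤ P.cnt e s i (elt e i 0 c.id)) ∨
   (∃ X j, (X, j, ρ) ∈ c.recs ∧ j ≠ 3 ∧ 1 ≤ P.cnt e s i (elt e i 0 X) ∧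
    2 ≤ P.cnt e s i (elt e i j X)))

variable {hP}

lemma gr_ok {e : ℕ} {β : ℕ → Set ℕ} (h : Opp hP e β) {s i X : ℕ} (hg : GR P e s i X) :
    β i = nu P n X ∨ X ∈ Ee hP e := by
  obtain ⟨c, hc, hX, h0, h1, h2⟩ := hg
  obtain ⟨α, hα⟩ := h.num i
  have c0 := h0.trans (cnt_le_cf hP e s i _)
  have c1 := h1.trans (cnt_le_cf hP e s i _)
  have c2 := h2.trans (cnt_le_cf hP e s i _)
  obtain ⟨j, b, hr⟩ := h.rec_of hα c0
  have key : j = 3 ∨ j = 0 → β i = nu P n X := by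
    intro hj
    rw [hα]
    exact F_eq_of_mem hP (fc_FC hP α) (fc_mem hP α) ((fc_FC hP α).nu_of hr hj)
  rcases h.kind0 hα hr c1 c2 with h3 | h3 | ⟨j', hj', h3⟩
  · exact Or.inl (key (Or.inl h3))
  · exact Or.inl (key (Or.inr h3))
  · by_cases hj : j = 3 ∨ j = 0
    · exact Or.inl (key hj)
    · right
      refine ⟨?_, j', hj', i, c0, h3⟩
      rcases nu_class hP X with h4 | h4
      · have := ((fc_FC hP (3 * X)).r3 (fc_FC hP α) h4 hr).2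
        exact absurd (Or.inl this) hj
      · exact h4

lemma odd_pos {k : ℕ} (h : Odd k) : 1 ≤ k := by
  rw [Nat.odd_iff] at h; omega

lemma od_odd (hn : 2 ≤ n) : Odd (od n) := by
  rw [Nat.odd_iff]; unfold od; split_ifs <;> omega

lemma inn_self (hn : 2 ≤ n) {c : Cl} (hc : FC P c) {X b : ℕ} (hX : (X, 3, b) ∈ c.recs) (e i j : ℕ)
    (hj : j ≤ 2) : Inn hP c e i j X := by
  obtain ⟨t, h, hI⟩ := hc.inv
  unfold Inn
  rw [hI.lk_eq h hX, Dv_some]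
  by_cases h1 : j = 0
  · rw [if_pos h1]; exact od_odd hn
  · rw [if_neg h1, if_neg (by omega), if_pos rfl]; exact odd_one

lemma cf_pos_of_mem {e : ℕ} {β : ℕ → Set ℕ} (h : Opp hP e β) {i α : ℕ} (hα : β i = F P n α)
    {j X : ℕ} (h1 : Inn hP (fc hP α) e i j X) : 1 ≤ cf hP e i (elt e i j X) :=
  odd_pos ((h.iff hα j X).2 h1)

lemma gr_ex (hn : 2 ≤ n) {e : ℕ} {β : ℕ → Set ℕ} (h : Opp hP e β) (i : ℕ) :
    ∃ s X, GR P e s i X := by
  obtain ⟨α, hα⟩ := h.num i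
  have hF := fc_FC hP α
  obtain ⟨t, ht, hI⟩ := hF.inv
  have hs := hI.rself _ ht
  obtain ⟨s₀, e0⟩ := cf_spec hP e i (elt e i 0 (fc hP α).id)
  obtain ⟨s₁, e1⟩ := cf_spec hP e i (elt e i 1 (fc hP α).id)
  obtain ⟨s₂, e2⟩ := cf_spec hP e i (elt e i 2 (fc hP α).id)
  obtain ⟨u, hu, h3⟩ := hF.at (max s₀ (max s₁ s₂))
  refine ⟨u, (fc hP α).id, fc hP α, h3, hs, ?_, ?_, ?_⟩
  · rw [e0 u (by omega)]; exact cf_pos_of_mem h hα (inn_self hn hF hs _ _ _ (by norm_num))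
  · rw [e1 u (by omega)]; exact cf_pos_of_mem h hα (inn_self hn hF hs _ _ _ (by norm_num))
  · rw [e2 u (by omega)]; exact cf_pos_of_mem h hα (inn_self hn hF hs _ _ _ (by norm_num))

lemma gr_bd {e X : ℕ} (hX : X ∈ Ee hP e) : ∃ B, ∀ s i, GR P e s i X → i < B := by
  obtain ⟨s₀, h0⟩ := fc_FC hP (3 * X)
  refine ⟨s₀, fun s i hg => ?_⟩
  obtain ⟨c, hc, h1, h2, -⟩ := hg
  have h3 := hP.supp _ _ _ _ h2
  by_contra hcon
  have h4 := h0 s (by omega)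
  have hI := inv P s
  have h5 := (hI.r3 c hc _ _ h1).2.2 _ h4 _ _ hX.1
  rw [h5] at h4
  have h6 := hX.1
  rw [h5] at h6
  have := (hI.ru c hc _ _ _ _ _ h1 h6).1
  omega

/-- an index which shows the marker of a static class -/
lemma static_ok {e : ℕ} {β : ℕ → Set ℕ} (h : Opp hP e β) {s i α ρ : ℕ} {c : Cl}
    (hc : c ∈ (st P s).1) (ht : c.typ = 0) (h1 : 1 ≤ P.cnt e s i (elt e i 0 c.id))
    (hα : (α, ρ) ∈ c.mem) : β i = F P n α := by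
  obtain ⟨α', hα'⟩ := h.num i
  have hF := static_FC hc ht
  obtain ⟨j, b, hr⟩ := h.rec_of hα' (h1.trans (cnt_le_cf hP _ _ _ _))
  have h2 := (hF.r3 (fc_FC hP α') ((inv P s).rself c hc) hr).1
  rw [hα']
  exact F_eq_of_mem hP hF (h2 ▸ fc_mem hP α') hα

lemma hr_ok {e : ℕ} {β : ℕ → Set ℕ} (h : Opp hP e β) {s i X : ℕ} (hg : HR P e s X i) :
    β i = nu P n X ∨ X ∈ Ee hP e := by
  obtain ⟨c, hc, hX, h1 | ⟨h1, h2⟩⟩ := hg
  · exact gr_ok h ⟨c, hc, h1⟩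
  · exact Or.inl (static_ok h hc h1 h2 hX)

lemma hr_ex (hn : 2 ≤ n) {e : ℕ} {β : ℕ → Set ℕ} (h : Opp hP e β) {X i : ℕ}
    (hi : β i = nu P n X) : ∃ s, HR P e s X i := by
  have hα : β i = F P n (3 * X) := hi
  have hF := fc_FC hP (3 * X)
  have hm0 : (3 * X, 0) ∈ (fc hP (3 * X)).mem := by
    rcases nu_class hP X with h1 | h1
    · exact hF.nu_of h1 (Or.inl rfl)
    · exact hF.nu_of h1 (Or.inr rfl)
  rcases nu_class hP X with h1 | h1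
  · obtain ⟨s₀, e0⟩ := cf_spec hP e i (elt e i 0 X)
    obtain ⟨s₁, e1⟩ := cf_spec hP e i (elt e i 1 X)
    obtain ⟨s₂, e2⟩ := cf_spec hP e i (elt e i 2 X)
    obtain ⟨u, hu, h3⟩ := hF.at (max s₀ (max s₁ s₂))
    refine ⟨u, fc hP (3 * X), h3, hm0, Or.inl ⟨h1, ?_, ?_, ?_⟩⟩
    · rw [e0 u (by omega)]; exact cf_pos_of_mem h hα (inn_self hn hF h1 _ _ _ (by norm_num))
    · rw [e1 u (by omega)]; exact cf_pos_of_mem h hα (inn_self hn hF h1 _ _ _ (by norm_num))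
    · rw [e2 u (by omega)]; exact cf_pos_of_mem h hα (inn_self hn hF h1 _ _ _ (by norm_num))
  · obtain ⟨t, ht, hI⟩ := hF.inv
    have hs := hI.rself _ ht
    obtain ⟨s₀, e0⟩ := cf_spec hP e i (elt e i 0 (fc hP (3 * X)).id)
    obtain ⟨u, hu, h3⟩ := hF.at s₀
    refine ⟨u, fc hP (3 * X), h3, hm0, Or.inr ⟨(hI.r0 _ ht _ _ h1).2.1, ?_⟩⟩
    rw [e0 u (by omega)]; exact cf_pos_of_mem h hα (inn_self hn hF hs _ _ _ (by norm_num))

/-! ### second case -/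

lemma fr_ok {e : ℕ} {β : ℕ → Set ℕ} (h : Opp hP e β) {s i y : ℕ} (hg : FR P e s y i) :
    β i = mu P n y := by
  obtain ⟨c, hc, ρ, hy, ⟨h1, h2⟩ | ⟨X, j, hX, hj, h1, h2⟩⟩ := hg
  · exact static_ok h hc h1 h2 hy
  · have hρ : ρ ≠ 0 := fun h3 => ag_mod y (((inv P s).mz c hc _ _ hy).1 h3)
    obtain ⟨h3, h4⟩ := pers hP hc hy hX hj hρ
    obtain ⟨α, hα⟩ := h.num i
    have c1 := h1.trans (cnt_le_cf hP e s i _)
    have c2 := h2.trans (cnt_le_cf hP e s i _)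
    obtain ⟨j0, b0, hr⟩ := h.rec_of hα c1
    have hj0 : j0 ≠ 3 := by
      rintro rfl
      exact hj ((fc_FC hP α).r3 (fc_FC hP (ag y)) hr h3).2
    have hj' : j = 1 ∨ j = 2 := by
      have hb := (inv P s).rb c hc _ _ _ hX
      rcases Nat.eq_zero_or_pos j with rfl | hj1
      · exact absurd ((inv P s).r0 c hc _ _ hX).1 hρ
      · omega
    obtain ⟨rfl, hb0⟩ := h.kind hα hr hj0 hj' c2
    have h5 := (fc_FC hP α).rj (fc_FC hP (ag y)) hr h3 hb0 h4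
    rw [hα]
    exact F_eq_of_mem hP (fc_FC hP α) (fc_mem hP α) (h5 ▸ fc_mem hP (ag y))

lemma comm_iff_fin {e : ℕ} {c : Cl} {b X j i : ℕ} (hr : (X, j, b) ∈ c.recs)
    (h1 : 1 ≤ cf hP e i (elt e i 0 X)) (h2 : 2 ≤ cf hP e i (elt e i j X)) :
    ∃ s₀, ∀ s ≥ s₀, comm P e s c b := by
  obtain ⟨s₀, e0⟩ := cf_spec hP e i (elt e i 0 X)
  obtain ⟨s₁, e1⟩ := cf_spec hP e i (elt e i j X)
  refine ⟨max s₀ s₁, fun s hs => ⟨(X, j, b), hr, rfl, i, ?_, ?_, ?_⟩⟩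
  · exact hP.supp e s i _ (by rw [e0 s (by omega)]; exact h1)
  · rw [e0 s (by omega)]; exact h1
  · rw [e1 s (by omega)]; exact h2

/-- the group of a separated name -/
lemma group_ex {X : ℕ} (hX : (X, 0, 0) ∈ (fc hP (3 * X)).recs) {j : ℕ} (hj : j = 1 ∨ j = 2) :
    ∃ α, (X, j, fr hP α) ∈ (fc hP α).recs ∧ fr hP α ≠ 0 := by
  obtain ⟨t, ht, h⟩ := (fc_FC hP (3 * X)).at (X + 1)
  have hI := inv P t
  obtain ⟨c, hc, h1, h2⟩ := hI.rex X (by have := le_next P t; omega)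
  obtain ⟨rfl, -⟩ := hI.mu c hc _ h _ _ _ h1 (fc_mem hP (3 * X))
  rcases h2 with h2 | ⟨h2, h3⟩
  · have := (hI.ru _ h _ _ _ _ _ h2 hX).1; omega
  · obtain ⟨d, hd, b, hb, h4⟩ := h3 j hj
    obtain ⟨α, h5⟩ := hI.ra d hd _ _ _ h4 hb
    exact ⟨α, pers hP hd h5 h4 (by omega) hb⟩

/-- the key: if infinitely many names are committed, then every side at a high position is -/
lemma commit {e : ℕ} (hE : (Ee hP e).Infinite) {c : Cl} (hc : FC P c) (ht : c.typ ≠ 0) (hpos : e < c.pos)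
    {b : ℕ} (hb0 : b ≠ 0) (hb : b ≤ c.typ) : ∃ s, comm P e s c b := by
  by_contra hcon
  push Not at hcon
  obtain ⟨s₀, hs₀⟩ := stab hP c.bp
  -- finitely many names at stage s₀
  have hfin : (⋃ d ∈ {d | d ∈ (st P s₀).1}, {X | ∃ j b, (X, j, b) ∈ d.recs}).Finite := by
    apply Set.Finite.biUnion
    · exact (st P s₀).1.finite_toSet
    · intro d _
      apply (List.finite_toSet (d.recs.map Prod.fst)).subset
      rintro X ⟨j, b, h⟩
      exact List.mem_map.2 ⟨_, h, rfl⟩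
  obtain ⟨X, hX, hX2⟩ := hE.exists_notMem_finite hfin
  obtain ⟨hX0, j, hj, i, h1, h2⟩ := hX
  obtain ⟨α, h3, h4⟩ := group_ex hX0 hj
  set c' := fc hP α with hc'
  have hF' : FC P c' := fc_FC hP α
  have hpos' : c.bp < c'.pos := by
    by_contra h5
    obtain ⟨t, ht, h6⟩ := hF'.at s₀
    have h7 := (hs₀ s₀ le_rfl t ht c' (by omega)).2 h6
    apply hX2
    simp only [Set.mem_iUnion]
    exact ⟨c', h7, j, _, h3⟩
  obtain ⟨s₁, h5⟩ := comm_iff_fin (hP := hP) h3 h1 h2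
  have hfr : fr hP α = 1 ∨ fr hP α = 2 := by
    obtain ⟨t, ht', hI⟩ := hF'.inv
    have := (hI.rb _ ht' _ _ _ h3).2
    have := hI.typ _ ht'
    omega
  obtain ⟨s₂, h6⟩ := hc
  obtain ⟨s₃, h7⟩ := hF'
  set q := max (max s₁ s₂) s₃
  set s := code q c.id c'.id e b with hs
  have hqs : q ≤ s := le_code _ _ _ _ _
  have hcs : c ∈ (st P s).1 := h6 s (by omega)
  have hcs' : c' ∈ (st P s).1 := h7 s (by omega)
  have ok : merOk P s c c' e b := by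
    refine ⟨⟨ht, ?_⟩, ⟨hb0, hb⟩, hpos', hpos, hcon s, ?_⟩
    · have := ((inv P s).rb _ hcs' _ _ _ h3).2
      omega
    · have := h5 s (by omega)
      rcases hfr with h8 | h8
      · rw [h8] at this; exact Or.inl this
      · rw [h8] at this; exact Or.inr this
  have h8 : (st P (s + 1)) = (hostCl (reHost (merL (st P s).1 c c' b, (st P s).2) c').2 s ::
      (reHost (merL (st P s).1 c c' b, (st P s).2) c').1,
      (reHost (merL (st P s).1 c c' b, (st P s).2) c').2 + 1) := by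
    rw [st, hs, step_code, ← hs, act_mer P (inv P s) hcs hcs' ok]
  have h9 : c ∉ (st P (s + 1)).1 := by
    refine (mer_notMem hcs hcs' ok ?_).1
    rw [h8]
    unfold reHost
    split_ifs with h10
    · exact Or.inl ⟨h10, rfl⟩
    · exact Or.inr ⟨h10, rfl⟩
  exact h9 (h6 (s + 1) (by omega))

/-- in the second case `FR` is total up to finitely many exceptions -/
lemma fr_ex (hn : 2 ≤ n) {e : ℕ} {β : ℕ → Set ℕ} (h : Opp hP e β) (hE : (Ee hP e).Infinite)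
    (hs : ∀ X, ∃ i, β i = nu P n X) : {y | ¬ ∃ s i, FR P e s y i}.Finite := by
  obtain ⟨s₀, hs₀⟩ := stab hP e
  have hfin : (⋃ d ∈ {d | d ∈ (st P s₀).1}, {y | ∃ ρ, (ag y, ρ) ∈ d.mem}).Finite := by
    apply Set.Finite.biUnion
    · exact (st P s₀).1.finite_toSet
    · intro d _
      have h1 : (ag ⁻¹' {α | α ∈ d.mem.map Prod.fst}).Finite := by
        apply Set.Finite.preimage
        · intro a _ b _ hab
          unfold ag at hab
          omega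
        · exact List.finite_toSet _
      apply h1.subset
      rintro y ⟨ρ, h2⟩
      exact List.mem_map.2 ⟨_, h2, rfl⟩
  apply hfin.subset
  intro y hy
  replace hy : ¬ ∃ s i, FR P e s y i := hy
  have hF := fc_FC hP (ag y)
  obtain ⟨t, ht, hI⟩ := hF.inv
  by_cases htyp : (fc hP (ag y)).typ = 0
  · exfalso
    apply hy
    obtain ⟨X, hX⟩ := mu_eq_nu hP y
    obtain ⟨i, hi⟩ := hs X
    rw [← hX] at hi
    obtain ⟨s₁, e0⟩ := cf_spec hP e i (elt e i 0 (fc hP (ag y)).id)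
    obtain ⟨u, hu, h3⟩ := hF.at s₁
    refine ⟨u, i, _, h3, _, fc_mem hP (ag y), Or.inl ⟨htyp, ?_⟩⟩
    rw [e0 u hu]
    exact cf_pos_of_mem h hi (inn_self hn hF (hI.rself _ ht) _ _ _ (by norm_num))
  · by_cases hpos : e < (fc hP (ag y)).pos
    · exfalso
      have hr0 : fr hP (ag y) ≠ 0 := fun h3 => ag_mod y ((hI.mz _ ht _ _ (fc_mem hP (ag y))).1 h3)
      have hr1 : fr hP (ag y) ≤ (fc hP (ag y)).typ := by
        have := hI.mb _ ht _ _ (fc_mem hP (ag y))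
        omega
      obtain ⟨s, hcm⟩ := commit (e := e) hE hF htyp hpos hr0 hr1
      obtain ⟨u, hu, h3⟩ := hF.at s
      obtain ⟨⟨X, j, b⟩, hr, hb, i, hi, h1, h2⟩ := comm_mono hP hu hcm
      simp only at hb
      subst hb
      apply hy
      refine ⟨u, i, _, h3, _, fc_mem hP (ag y), Or.inr ⟨X, j, hr, ?_, h1, h2⟩⟩
      rintro rfl
      exact hr0 (hI.r3 _ ht _ _ hr).1
    · obtain ⟨u, hu, h3⟩ := hF.at s₀
      have h4 := (hs₀ s₀ le_rfl u hu _ (by omega)).2 h3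
      simp only [Set.mem_iUnion]
      exact ⟨_, h4, _, fc_mem hP (ag y)⟩

end

end Pool.Agent.Helper158.Num
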