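import Mathlib

/-! Locations (classes) of the construction and their invariants. -/

namespace Pool.Agent.Helper158.Num

/-- a class (a location holding one set of the family) -/
@[ext] structure Cl where
  id : ℕ
  pos : ℕ
  bp : ℕ
  typ : ℕ
  recs : List (ℕ × ℕ × ℕ)
  mem : List (ℕ × ℕ)

def m1 (t : ℕ) : ℕ := if t = 0 then 0 else 1

@[simp] lemma m1_zero : m1 0 = 0 := rfl
@[simp] lemma m1_one : m1 1 = 1 := rfl
@[simp] lemma m1_two : m1 2 = 1 := rfl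
lemma m1_of_ne {t : ℕ} (h : t ≠ 0) : m1 t = 1 := by simp [m1, h]
lemma m1_eq_zero {t : ℕ} : m1 t = 0 ↔ t = 0 := by
  unfold m1; split_ifs <;> simp_all
lemma m1_le (t : ℕ) : m1 t ≤ 1 := by unfold m1; split_ifs <;> simp

def hostCl (N p : ℕ) : Cl :=
  ⟨N, p, p, 2, [(N, 3, 0)], [(3 * N, 0), (3 * N + 1, 1), (3 * N + 2, 2)]⟩

def trR (t : ℕ) (r : ℕ × ℕ × ℕ) : ℕ × ℕ × ℕ :=
  if r.2.1 = 3 then (r.1, t, m1 t) else (r.1, r.2.1, if r.2.2 ≠ 0 ∧ r.2.2 = t then 1 else 0)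

def child (c : Cl) (N t : ℕ) : Cl :=
  ⟨N + t, c.pos, c.bp, m1 t, (N + t, 3, 0) :: c.recs.map (trR t),
    (3 * (N + t), 0) :: (3 * (N + t) + 1, 1) :: (3 * (N + t) + 2, 1) ::
      (c.mem.filter (fun m => m.2 = t)).map (fun m => (m.1, m1 t))⟩

def shR (b : ℕ) (r : ℕ × ℕ × ℕ) : ℕ × ℕ × ℕ := (r.1, r.2.1, if r.2.2 ≠ 0 then b else 0)
def shM (b : ℕ) (m : ℕ × ℕ) : ℕ × ℕ := (m.1, if m.2 ≠ 0 then b else 0)

def merge (c c' : Cl) (b : ℕ) : Cl :=
  ⟨c.id, c.pos, max c.bp c'.bp, c.typ, c.recs ++ c'.recs.map (shR b), c.mem ++ c'.mem.map (shM b)⟩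

/-! membership -/

lemma mem_host_recs {N p X j b : ℕ} : (X, j, b) ∈ (hostCl N p).recs ↔ X = N ∧ j = 3 ∧ b = 0 := by
  simp [hostCl]

lemma mem_host_mem {N p α ρ : ℕ} : (α, ρ) ∈ (hostCl N p).mem ↔
    (α = 3 * N ∧ ρ = 0) ∨ (α = 3 * N + 1 ∧ ρ = 1) ∨ (α = 3 * N + 2 ∧ ρ = 2) := by
  simp [hostCl]

lemma mem_child_recs {c : Cl} {N t X j b : ℕ} : (X, j, b) ∈ (child c N t).recs ↔
    (X = N + t ∧ j = 3 ∧ b = 0) ∨ (∃ b0, (X, 3, b0) ∈ c.recs ∧ j = t ∧ b = m1 t) ∨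
    (∃ b0, (X, j, b0) ∈ c.recs ∧ j ≠ 3 ∧ b = if b0 ≠ 0 ∧ b0 = t then 1 else 0) := by
  simp only [child, List.mem_cons, Prod.mk.injEq, List.mem_map, Prod.exists]
  constructor
  · rintro (h | ⟨X', j', b', h, h2⟩)
    · exact Or.inl h
    · right
      unfold trR at h2
      split_ifs at h2 with h3 h4
      · simp only [Prod.mk.injEq] at h2 h3
        obtain ⟨rfl, rfl, rfl⟩ := h2
        subst h3
        exact Or.inl ⟨b', h, rfl, rfl⟩
      · simp only [Prod.mk.injEq] at h2 h3 h4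
        obtain ⟨rfl, rfl, rfl⟩ := h2
        exact Or.inr ⟨b', h, h3, by rw [if_pos h4]⟩
      · simp only [Prod.mk.injEq] at h2 h3 h4
        obtain ⟨rfl, rfl, rfl⟩ := h2
        exact Or.inr ⟨b', h, h3, by rw [if_neg h4]⟩
  · rintro (h | ⟨b0, h, rfl, rfl⟩ | ⟨b0, h, h2, rfl⟩)
    · exact Or.inl h
    · exact Or.inr ⟨X, 3, b0, h, by simp [trR]⟩
    · exact Or.inr ⟨X, j, b0, h, by simp [trR, h2]⟩

lemma mem_child_mem {c : Cl} {N t α ρ : ℕ} : (α, ρ) ∈ (child c N t).mem ↔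
    (α = 3 * (N + t) ∧ ρ = 0) ∨ (α = 3 * (N + t) + 1 ∧ ρ = 1) ∨ (α = 3 * (N + t) + 2 ∧ ρ = 1) ∨
    ((α, t) ∈ c.mem ∧ ρ = m1 t) := by
  simp only [child, List.mem_cons, Prod.mk.injEq, List.mem_map, List.mem_filter, Prod.exists]
  constructor
  · rintro (h | h | h | ⟨α', ρ', ⟨h, h2⟩, rfl, rfl⟩)
    · exact Or.inl h
    · exact Or.inr (Or.inl h)
    · exact Or.inr (Or.inr (Or.inl h))
    · simp only [decide_eq_true_eq] at h2
      subst h2
      exact Or.inr (Or.inr (Or.inr ⟨h, rfl⟩))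
  · rintro (h | h | h | ⟨h, rfl⟩)
    · exact Or.inl h
    · exact Or.inr (Or.inl h)
    · exact Or.inr (Or.inr (Or.inl h))
    · exact Or.inr (Or.inr (Or.inr ⟨α, t, ⟨h, by simp⟩, rfl, rfl⟩))

lemma mem_merge_recs {c c' : Cl} {b X j b1 : ℕ} : (X, j, b1) ∈ (merge c c' b).recs ↔
    (X, j, b1) ∈ c.recs ∨ ∃ b0, (X, j, b0) ∈ c'.recs ∧ b1 = if b0 ≠ 0 then b else 0 := by
  simp only [merge, List.mem_append, List.mem_map, Prod.exists, shR, Prod.mk.injEq]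
  constructor
  · rintro (h | ⟨X', j', b', h, rfl, rfl, rfl⟩)
    · exact Or.inl h
    · exact Or.inr ⟨b', h, rfl⟩
  · rintro (h | ⟨b0, h, rfl⟩)
    · exact Or.inl h
    · exact Or.inr ⟨X, j, b0, h, rfl, rfl, rfl⟩

lemma mem_merge_mem {c c' : Cl} {b α ρ : ℕ} : (α, ρ) ∈ (merge c c' b).mem ↔
    (α, ρ) ∈ c.mem ∨ ∃ ρ0, (α, ρ0) ∈ c'.mem ∧ ρ = if ρ0 ≠ 0 then b else 0 := by
  simp only [merge, List.mem_append, List.mem_map, Prod.exists, shM, Prod.mk.injEq]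
  constructor
  · rintro (h | ⟨X', b', h, rfl, rfl⟩)
    · exact Or.inl h
    · exact Or.inr ⟨b', h, rfl⟩
  · rintro (h | ⟨b0, h, rfl⟩)
    · exact Or.inl h
    · exact Or.inr ⟨α, b0, h, rfl, rfl⟩

/-- the invariants -/
structure Inv (S : List Cl) (N : ℕ) : Prop where
  idu : ∀ c ∈ S, ∀ d ∈ S, c.id = d.id → c = d
  rself : ∀ c ∈ S, (c.id, 3, 0) ∈ c.recs
  rlt : ∀ c ∈ S, ∀ X j b, (X, j, b) ∈ c.recs → X < N
  ru : ∀ c ∈ S, ∀ X j b j' b', (X, j, b) ∈ c.recs → (X, j', b') ∈ c.recs → j = j' ∧ b = b'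
  r3 : ∀ c ∈ S, ∀ X b, (X, 3, b) ∈ c.recs → b = 0 ∧ (3 * X, 0) ∈ c.mem ∧
    ∀ d ∈ S, ∀ j' b', (X, j', b') ∈ d.recs → d = c
  r0 : ∀ c ∈ S, ∀ X b, (X, 0, b) ∈ c.recs → b = 0 ∧ c.typ = 0 ∧ (3 * X, 0) ∈ c.mem
  rj : ∀ c ∈ S, ∀ d ∈ S, ∀ X j b b', (X, j, b) ∈ c.recs → (X, j, b') ∈ d.recs → b ≠ 0 → b' ≠ 0 →
    c = d
  rb : ∀ c ∈ S, ∀ X j b, (X, j, b) ∈ c.recs → j ≤ 3 ∧ b ≤ c.typ
  ra : ∀ c ∈ S, ∀ X j b, (X, j, b) ∈ c.recs → b ≠ 0 → ∃ α, (α, b) ∈ c.mem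
  rex : ∀ X < N, ∃ c ∈ S, (3 * X, 0) ∈ c.mem ∧ ((X, 3, 0) ∈ c.recs ∨ ((X, 0, 0) ∈ c.recs ∧
    ∀ j, j = 1 ∨ j = 2 → ∃ d ∈ S, ∃ b, b ≠ 0 ∧ (X, j, b) ∈ d.recs))
  mlt : ∀ c ∈ S, ∀ α ρ, (α, ρ) ∈ c.mem → α < 3 * N
  mu : ∀ c ∈ S, ∀ d ∈ S, ∀ α ρ ρ', (α, ρ) ∈ c.mem → (α, ρ') ∈ d.mem → c = d ∧ ρ = ρ'
  mex : ∀ α < 3 * N, ∃ c ∈ S, ∃ ρ, (α, ρ) ∈ c.mem
  mz : ∀ c ∈ S, ∀ α ρ, (α, ρ) ∈ c.mem → (ρ = 0 ↔ α % 3 = 0)
  mb : ∀ c ∈ S, ∀ α ρ, (α, ρ) ∈ c.mem → ρ ≤ max 1 c.typ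
  ms1 : ∀ c ∈ S, (3 * c.id + 1, 1) ∈ c.mem
  ms2 : ∀ c ∈ S, c.typ = 2 → (3 * c.id + 2, 2) ∈ c.mem
  typ : ∀ c ∈ S, c.typ ≤ 2
  pb : ∀ c ∈ S, c.pos ≤ c.bp
  shr : ∀ c ∈ S, ∀ d ∈ S, ∀ X j b j' b', (X, j, b) ∈ c.recs → (X, j', b') ∈ d.recs → c.pos ≤ d.bp

namespace Inv

lemma nil : Inv [] 0 := by
  constructor <;> simp

variable {S : List Cl} {N : ℕ}

lemma idlt (h : Inv S N) {c : Cl} (hc : c ∈ S) : c.id < N := h.rlt c hc _ _ _ (h.rself c hc)

lemma host (h : Inv S N) (p : ℕ) : Inv (hostCl N p :: S) (N + 1) where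
  idu c hc d hd e := by
    rw [List.mem_cons] at hc hd
    rcases hc with rfl | hc <;> rcases hd with rfl | hd
    · rfl
    · have := h.idlt hd; simp [hostCl] at e; omega
    · have := h.idlt hc; simp [hostCl] at e; omega
    · exact h.idu c hc d hd e
  rself c hc := by
    rw [List.mem_cons] at hc
    rcases hc with rfl | hc
    · simp [hostCl]
    · exact h.rself c hc
  rlt c hc X j b hr := by
    rw [List.mem_cons] at hc
    rcases hc with rfl | hc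
    · rw [mem_host_recs] at hr; omega
    · have := h.rlt c hc X j b hr; omega
  ru c hc X j b j' b' h1 h2 := by
    rw [List.mem_cons] at hc
    rcases hc with rfl | hc
    · rw [mem_host_recs] at h1 h2; omega
    · exact h.ru c hc X j b j' b' h1 h2
  r3 c hc X b h1 := by
    rw [List.mem_cons] at hc
    rcases hc with rfl | hc
    · rw [mem_host_recs] at h1
      obtain ⟨rfl, -, rfl⟩ := h1
      refine ⟨rfl, by simp [hostCl], ?_⟩
      intro d hd j' b' h2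
      rw [List.mem_cons] at hd
      rcases hd with rfl | hd
      · rfl
      · have := h.rlt d hd _ _ _ h2; omega
    · obtain ⟨h2, h3, h4⟩ := h.r3 c hc X b h1
      refine ⟨h2, h3, ?_⟩
      intro d hd j' b' h5
      rw [List.mem_cons] at hd
      rcases hd with rfl | hd
      · rw [mem_host_recs] at h5
        have := h.rlt c hc _ _ _ h1; omega
      · exact h4 d hd j' b' h5
  r0 c hc X b h1 := by
    rw [List.mem_cons] at hc
    rcases hc with rfl | hc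
    · rw [mem_host_recs] at h1; omega
    · exact h.r0 c hc X b h1
  rj c hc d hd X j b b' h1 h2 h3 h4 := by
    rw [List.mem_cons] at hc hd
    rcases hc with rfl | hc <;> rcases hd with rfl | hd
    · rfl
    · rw [mem_host_recs] at h1; omega
    · rw [mem_host_recs] at h2; omega
    · exact h.rj c hc d hd X j b b' h1 h2 h3 h4
  rb c hc X j b h1 := by
    rw [List.mem_cons] at hc
    rcases hc with rfl | hc
    · rw [mem_host_recs] at h1; omega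
    · exact h.rb c hc X j b h1
  ra c hc X j b h1 h2 := by
    rw [List.mem_cons] at hc
    rcases hc with rfl | hc
    · rw [mem_host_recs] at h1; omega
    · exact h.ra c hc X j b h1 h2
  rex X hX := by
    rcases Nat.lt_succ_iff_lt_or_eq.1 hX with h1 | rfl
    · obtain ⟨c, hc, h2, h3⟩ := h.rex X h1
      refine ⟨c, List.mem_cons_of_mem _ hc, h2, ?_⟩
      rcases h3 with h3 | ⟨h3, h4⟩
      · exact Or.inl h3
      · refine Or.inr ⟨h3, fun j hj => ?_⟩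
        obtain ⟨d, hd, b, hb, h5⟩ := h4 j hj
        exact ⟨d, List.mem_cons_of_mem _ hd, b, hb, h5⟩
    · exact ⟨hostCl X p, List.mem_cons_self, by simp [hostCl], Or.inl (by simp [hostCl])⟩
  mlt c hc α ρ h1 := by
    rw [List.mem_cons] at hc
    rcases hc with rfl | hc
    · rw [mem_host_mem] at h1; omega
    · have := h.mlt c hc α ρ h1; omega
  mu c hc d hd α ρ ρ' h1 h2 := by
    rw [List.mem_cons] at hc hd
    rcases hc with rfl | hc <;> rcases hd with rfl | hd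
    · rw [mem_host_mem] at h1 h2; exact ⟨rfl, by omega⟩
    · rw [mem_host_mem] at h1; have := h.mlt d hd _ _ h2; omega
    · rw [mem_host_mem] at h2; have := h.mlt c hc _ _ h1; omega
    · exact h.mu c hc d hd α ρ ρ' h1 h2
  mex α hα := by
    by_cases h1 : α < 3 * N
    · obtain ⟨c, hc, ρ, h2⟩ := h.mex α h1
      exact ⟨c, List.mem_cons_of_mem _ hc, ρ, h2⟩
    · have h2 : α = 3 * N ∨ α = 3 * N + 1 ∨ α = 3 * N + 2 := by omega
      refine ⟨hostCl N p, List.mem_cons_self, ?_⟩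
      rcases h2 with h2 | h2 | h2
      · exact ⟨0, by rw [mem_host_mem]; omega⟩
      · exact ⟨1, by rw [mem_host_mem]; omega⟩
      · exact ⟨2, by rw [mem_host_mem]; omega⟩
  mz c hc α ρ h1 := by
    rw [List.mem_cons] at hc
    rcases hc with rfl | hc
    · rw [mem_host_mem] at h1; omega
    · exact h.mz c hc α ρ h1
  mb c hc α ρ h1 := by
    rw [List.mem_cons] at hc
    rcases hc with rfl | hc
    · rw [mem_host_mem] at h1; simp only [hostCl]; omega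
    · exact h.mb c hc α ρ h1
  ms1 c hc := by
    rw [List.mem_cons] at hc
    rcases hc with rfl | hc
    · simp [hostCl]
    · exact h.ms1 c hc
  ms2 c hc := by
    rw [List.mem_cons] at hc
    rcases hc with rfl | hc
    · simp [hostCl]
    · exact h.ms2 c hc
  typ c hc := by
    rw [List.mem_cons] at hc
    rcases hc with rfl | hc
    · simp [hostCl]
    · exact h.typ c hc
  pb c hc := by
    rw [List.mem_cons] at hc
    rcases hc with rfl | hc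
    · simp [hostCl]
    · exact h.pb c hc
  shr c hc d hd X j b j' b' h1 h2 := by
    rw [List.mem_cons] at hc hd
    rcases hc with rfl | hc <;> rcases hd with rfl | hd
    · simp [hostCl]
    · rw [mem_host_recs] at h1; have := h.rlt d hd _ _ _ h2; omega
    · rw [mem_host_recs] at h2; have := h.rlt c hc _ _ _ h1; omega
    · exact h.shr c hc d hd X j b j' b' h1 h2

end Inv

end Pool.Agent.Helper158.Num
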