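import Pool.Agent.Helper158.Num.Stab

/-! The final sets. -/

namespace Pool.Agent.Helper158.Num

open Classical

noncomputable def loc (S : List Cl) (α : ℕ) : Option (Cl × ℕ) :=
  (S.filterMap (fun c => (c.mem.lookup α).map (fun ρ => (c, ρ)))).head?

lemma mem_of_lookup {α : ℕ} {l : List (ℕ × ℕ)} {ρ : ℕ} (h : l.lookup α = some ρ) :
    (α, ρ) ∈ l := by
  induction l with
  | nil => simp at h
  | cons a l ih =>
    obtain ⟨Y, q⟩ := a
    rw [List.lookup_cons] at h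
    by_cases h1 : α = Y
    · subst h1
      simp only [BEq.rfl, Option.some.injEq] at h
      rw [h]; exact List.mem_cons_self
    · have h2 : (α == Y) = false := by simpa using h1
      rw [h2] at h
      exact List.mem_cons_of_mem _ (ih h)

lemma lookup_of_mem {α : ℕ} {l : List (ℕ × ℕ)} {ρ : ℕ} (h : (α, ρ) ∈ l) :
    ∃ ρ', l.lookup α = some ρ' := by
  induction l with
  | nil => simp at h
  | cons a l ih =>
    obtain ⟨Y, q⟩ := a
    rw [List.lookup_cons]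
    by_cases h1 : α = Y
    · subst h1
      exact ⟨q, by simp⟩
    · have h2 : (α == Y) = false := by simpa using h1
      rw [h2]
      refine ih ?_
      rcases List.mem_cons.1 h with h3 | h3
      · simp only [Prod.mk.injEq] at h3; exact absurd h3.1 h1
      · exact h3

lemma loc_some {S : List Cl} {α : ℕ} {c : Cl} {ρ : ℕ} (h : loc S α = some (c, ρ)) :
    c ∈ S ∧ (α, ρ) ∈ c.mem := by
  unfold loc at h
  have h1 := List.mem_of_mem_head? h
  rw [List.mem_filterMap] at h1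
  obtain ⟨d, hd, h2⟩ := h1
  rw [Option.map_eq_some_iff] at h2
  obtain ⟨ρ', h3, h4⟩ := h2
  simp only [Prod.mk.injEq] at h4
  obtain ⟨rfl, rfl⟩ := h4
  exact ⟨hd, mem_of_lookup h3⟩

lemma loc_of_mem {S : List Cl} {N : ℕ} (h : Inv S N) {α : ℕ} {c : Cl} {ρ : ℕ} (hc : c ∈ S)
    (hα : (α, ρ) ∈ c.mem) : loc S α = some (c, ρ) := by
  rcases h1 : loc S α with _ | ⟨d, ρ'⟩
  · unfold loc at h1
    rw [List.head?_eq_none_iff] at h1
    obtain ⟨ρ', h2⟩ := lookup_of_mem hα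
    have h3 : (c, ρ') ∈ S.filterMap (fun c => (c.mem.lookup α).map (fun ρ => (c, ρ))) := by
      rw [List.mem_filterMap]
      exact ⟨c, hc, by rw [h2]; rfl⟩
    rw [h1] at h3
    simp at h3
  · obtain ⟨h2, h3⟩ := loc_some h1
    obtain ⟨rfl, rfl⟩ := h.mu c hc d h2 _ _ _ hα h3
    rfl

variable (P : Par) (n : ℕ)

/-- number of changes of the membership of `x` in the set of the agent `α` up to stage `s` -/
noncomputable def DD (s α x : ℕ) : ℕ :=
  ((loc (st P s).1 α).map fun p =>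
    Dv n (P.cnt (Nat.unpair x).1 s (Nat.unpair (Nat.unpair x).2).1 x)
      (Nat.unpair (Nat.unpair (Nat.unpair x).2).2).1
      (lk (Nat.unpair (Nat.unpair (Nat.unpair x).2).2).2 p.1.recs) p.2).getD 0

variable {P n}

lemma DD_elt {s α e i j X : ℕ} {c : Cl} {ρ : ℕ} (hc : c ∈ (st P s).1) (hα : (α, ρ) ∈ c.mem) :
    DD P n s α (elt e i j X) = Dv n (P.cnt e s i (elt e i j X)) j (lk X c.recs) ρ := by
  unfold DD
  rw [loc_of_mem (inv P s) hc hα]
  simp [elt]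

lemma elt_surj (x : ℕ) : ∃ e i j X, x = elt e i j X := by
  refine ⟨(Nat.unpair x).1, (Nat.unpair (Nat.unpair x).2).1,
    (Nat.unpair (Nat.unpair (Nat.unpair x).2).2).1, (Nat.unpair (Nat.unpair (Nat.unpair x).2).2).2, ?_⟩
  simp [elt]

lemma DD_mono (hn : 2 ≤ n) (hP : P.Ok n) {s t : ℕ} (hst : s ≤ t) (α x : ℕ) :
    DD P n s α x ≤ DD P n t α x := by
  obtain ⟨e, i, j, X, rfl⟩ := elt_surj x
  rcases h : loc (st P s).1 α with _ | ⟨c, ρ⟩
  · unfold DD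
    rw [h]
    exact Nat.zero_le _
  · obtain ⟨hc, hα⟩ := loc_some h
    obtain ⟨d, hd, ρ', h1, h2⟩ := tr_le P hst hc hα
    rw [DD_elt hc hα, DD_elt hd h1]
    exact Dv_mono (inv P s) (inv P t) hc hd h2 hn (hP.mono _ _ _ _ _ hst) (hP.le _ _ _ _) _ _

lemma DD_le (hn : 2 ≤ n) (hP : P.Ok n) (s α x : ℕ) : DD P n s α x ≤ n := by
  unfold DD
  rcases h : loc (st P s).1 α with _ | ⟨c, ρ⟩
  · exact Nat.zero_le _
  · exact Dv_le hn (hP.le _ _ _ _)

variable (P n)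

/-- the set of an agent -/
def F (α : ℕ) : Set ℕ := {x | ∃ s₀, ∀ s ≥ s₀, Odd (DD P n s α x)}

variable {P n}

/-- a final class -/
def FC (P : Par) (c : Cl) : Prop := ∃ s₀, ∀ s ≥ s₀, c ∈ (st P s).1

section final
variable (hP : P.Ok n)

noncomputable def fc (hP : P.Ok n) (α : ℕ) : Cl := (agent_fin hP α).choose_spec.choose
noncomputable def fr (hP : P.Ok n) (α : ℕ) : ℕ := (agent_fin hP α).choose_spec.choose_spec.choose

lemma fc_spec (α : ℕ) : ∃ s₀, ∀ s ≥ s₀, fc hP α ∈ (st P s).1 ∧ (α, fr hP α) ∈ (fc hP α).mem :=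
  ⟨_, (agent_fin hP α).choose_spec.choose_spec.choose_spec⟩

lemma fc_mem (α : ℕ) : (α, fr hP α) ∈ (fc hP α).mem := by
  obtain ⟨s₀, h⟩ := fc_spec hP α
  exact (h s₀ le_rfl).2

lemma fc_FC (α : ℕ) : FC P (fc hP α) := by
  obtain ⟨s₀, h⟩ := fc_spec hP α
  exact ⟨s₀, fun s hs => (h s hs).1⟩

include hP in
lemma cnt_fin (e i x : ℕ) : ∃ k s₀, ∀ s ≥ s₀, P.cnt e s i x = k := by
  have h1 : ∀ m, ∃ s, n - m ≤ P.cnt e s i x ∨ ∃ k s₀, ∀ s ≥ s₀, P.cnt e s i x = k := by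
    by_contra hcon
    push Not at hcon
    obtain ⟨m, hm⟩ := hcon
    have h2 := fun s => (hm s).2
    have h3 : ∀ k, ∃ s, k ≤ P.cnt e s i x := by
      intro k
      induction k with
      | zero => exact ⟨0, Nat.zero_le _⟩
      | succ k ih =>
        obtain ⟨s, hs⟩ := ih
        obtain ⟨t, ht, h4⟩ := h2 0 (P.cnt e s i x) s
        have h5 := hP.mono e s t i x ht
        exact ⟨t, by omega⟩
    obtain ⟨s, hs⟩ := h3 (n + 1)
    have := hP.le e s i x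
    omega
  obtain ⟨s, h2 | h2⟩ := h1 0
  · refine ⟨n, s, fun t ht => ?_⟩
    have := hP.mono e s t i x ht
    have := hP.le e t i x
    omega
  · exact h2

/-- the final value of the counter -/
noncomputable def cf (hP : P.Ok n) (e i x : ℕ) : ℕ := (cnt_fin hP e i x).choose

lemma cf_spec (e i x : ℕ) : ∃ s₀, ∀ s ≥ s₀, P.cnt e s i x = cf hP e i x :=
  (cnt_fin hP e i x).choose_spec

lemma cnt_le_cf (e s i x : ℕ) : P.cnt e s i x ≤ cf hP e i x := by
  obtain ⟨s₀, h⟩ := cf_spec hP e i x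
  rw [← h (max s s₀) (le_max_right _ _)]
  exact hP.mono _ _ _ _ _ (le_max_left _ _)

/-- membership in the set of a class -/
def Inn (hP : P.Ok n) (c : Cl) (e i j X : ℕ) : Prop :=
  Odd (Dv n (cf hP e i (elt e i j X)) j (lk X c.recs) 0)

lemma mem_F {α e i j X : ℕ} {c : Cl} {ρ : ℕ} (hc : FC P c) (hα : (α, ρ) ∈ c.mem) :
    elt e i j X ∈ F P n α ↔ Inn hP c e i j X := by
  obtain ⟨s₀, h0⟩ := hc
  obtain ⟨s₁, h1⟩ := cf_spec hP e i (elt e i j X)
  have key : ∀ s ≥ max s₀ s₁, (Odd (DD P n s α (elt e i j X)) ↔ Inn hP c e i j X) := by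
    intro s hs
    rw [DD_elt (h0 s (by omega)) hα, h1 s (by omega)]
    exact Dv_odd
  constructor
  · rintro ⟨s₂, h2⟩
    exact (key (max (max s₀ s₁) s₂) (le_max_left _ _)).1 (h2 _ (le_max_right _ _))
  · intro h2
    exact ⟨max s₀ s₁, fun s hs => (key s hs).2 h2⟩

include hP in
lemma F_eq_of_mem {α α' ρ ρ' : ℕ} {c : Cl} (hc : FC P c) (hα : (α, ρ) ∈ c.mem)
    (hα' : (α', ρ') ∈ c.mem) : F P n α = F P n α' := by
  ext x
  obtain ⟨e, i, j, X, rfl⟩ := elt_surj x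
  rw [mem_F hP hc hα, mem_F hP hc hα']

omit hP in
lemma FC.common {c d : Cl} (hc : FC P c) (hd : FC P d) (s : ℕ) : ∃ t ≥ s, c ∈ (st P t).1 ∧
    d ∈ (st P t).1 := by
  obtain ⟨s₀, h0⟩ := hc
  obtain ⟨s₁, h1⟩ := hd
  exact ⟨max s (max s₀ s₁), le_max_left _ _, h0 _ (by omega), h1 _ (by omega)⟩

omit hP in
lemma FC.at {c : Cl} (hc : FC P c) (s : ℕ) : ∃ t ≥ s, c ∈ (st P t).1 := by
  obtain ⟨t, ht, h, -⟩ := hc.common hc s
  exact ⟨t, ht, h⟩

lemma fc_eq {α ρ : ℕ} {c : Cl} (hc : FC P c) (hα : (α, ρ) ∈ c.mem) :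
    fc hP α = c ∧ fr hP α = ρ := by
  obtain ⟨t, -, h1, h2⟩ := (fc_FC hP α).common hc 0
  exact (inv P t).mu _ h1 _ h2 _ _ _ (fc_mem hP α) hα

/-- agents have equal sets iff they are finally in the same class -/
lemma F_inj (hn : 2 ≤ n) {α α' : ℕ} (h : F P n α = F P n α') : fc hP α = fc hP α' := by
  obtain ⟨e₀, he₀⟩ := hP.triv
  by_contra hne
  obtain ⟨t, -, h1, h2⟩ := (fc_FC hP α).common (fc_FC hP α') 0
  have hI := inv P t
  have h3 := hI.rself _ h1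
  have hcf : cf hP e₀ 0 (elt e₀ 0 0 (fc hP α).id) = 0 := by
    obtain ⟨s₀, h4⟩ := cf_spec hP e₀ 0 (elt e₀ 0 0 (fc hP α).id)
    rw [← h4 s₀ le_rfl]; exact he₀ _ _ _
  have h5 : elt e₀ 0 0 (fc hP α).id ∈ F P n α := by
    rw [mem_F hP (fc_FC hP α) (fc_mem hP α)]
    unfold Inn
    rw [hI.lk_eq h1 h3, Dv_some, if_pos rfl, Nat.odd_iff]
    unfold od
    split_ifs <;> omega
  rw [h, mem_F hP (fc_FC hP α') (fc_mem hP α')] at h5
  unfold Inn at h5
  rw [lk_none, hcf, Dv_none, if_pos rfl, if_pos (by norm_num)] at h5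
  · exact absurd h5 (by decide)
  · intro q hq
    obtain ⟨j, b⟩ := q
    exact hne ((hI.r3 _ h1 _ _ h3).2.2 _ h2 _ _ hq).symm

/-- persistence of a record together with its group -/
lemma pers {s : ℕ} {c : Cl} {α ρ X j : ℕ} (hc : c ∈ (st P s).1) (hα : (α, ρ) ∈ c.mem)
    (hX : (X, j, ρ) ∈ c.recs) (hj : j ≠ 3) (hρ : ρ ≠ 0) :
    (X, j, fr hP α) ∈ (fc hP α).recs ∧ fr hP α ≠ 0 := by
  obtain ⟨t, ht, h1⟩ := (fc_FC hP α).at s
  have h2 := tr_of P ht hc hα h1 (fc_mem hP α)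
  obtain ⟨b', h3, -, h4⟩ := h2.rj X j ρ hX hj
  rw [h4 hρ rfl] at h3
  exact ⟨h3, fun h5 => hρ (h2.z.2 h5)⟩

/-- a static class is final -/
lemma static_FC {s : ℕ} {c : Cl} (hc : c ∈ (st P s).1) (ht : c.typ = 0) : FC P c := by
  refine ⟨s, fun t hst => ?_⟩
  obtain ⟨d, hd, ρ', h1, h2⟩ := tr_le P hst hc ((inv P s).ms1 c hc)
  rw [← h2.st ht]; exact hd

/-! ### opponents -/

/-- the opponent `e` is the numbering `β` of a family of sets of agents -/
structure Opp (hP : P.Ok n) (e : ℕ) (β : ℕ → Set ℕ) : Prop where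
  mem : ∀ i x, x ∈ β i ↔ Odd (cf hP e i x)
  num : ∀ i, ∃ α, β i = F P n α

variable {hP}

lemma Opp.iff {e : ℕ} {β : ℕ → Set ℕ} (h : Opp hP e β) {i α : ℕ} (hα : β i = F P n α) (j X : ℕ) :
    Odd (cf hP e i (elt e i j X)) ↔ Inn hP (fc hP α) e i j X := by
  rw [← h.mem, hα, mem_F hP (fc_FC hP α) (fc_mem hP α)]

lemma Opp.rec_of {e : ℕ} {β : ℕ → Set ℕ} (h : Opp hP e β) {i α X : ℕ} (hα : β i = F P n α)
    (h1 : 1 ≤ cf hP e i (elt e i 0 X)) : ∃ j b, (X, j, b) ∈ (fc hP α).recs := by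
  by_contra hcon
  push Not at hcon
  have h2 := h.iff hα 0 X
  unfold Inn at h2
  rw [lk_none (fun q hq => hcon q.1 q.2 hq), Dv_none, if_pos rfl, Nat.odd_iff, Nat.odd_iff] at h2
  split_ifs at h2 <;> (try simp only [iff_false] at h2) <;> omega

lemma Opp.kind {e : ℕ} {β : ℕ → Set ℕ} (h : Opp hP e β) {i α X j : ℕ} (hα : β i = F P n α)
    {j0 b0 : ℕ} (h1 : (X, j0, b0) ∈ (fc hP α).recs) (h3 : j0 ≠ 3) (hj : j = 1 ∨ j = 2)
    (h2 : 2 ≤ cf hP e i (elt e i j X)) : j0 = j ∧ b0 ≠ 0 := by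
  obtain ⟨t, -, h4⟩ := (fc_FC hP α).at 0
  have h5 := h.iff hα j X
  unfold Inn at h5
  rw [(inv P t).lk_eq h4 h1, Dv_some, if_neg (by omega), if_neg (by omega), if_neg h3,
    Nat.odd_iff, Nat.odd_iff] at h5
  by_cases hjj : j0 = j
  · refine ⟨hjj, ?_⟩
    intro hb
    rw [if_neg (by simpa using hjj), if_pos hb] at h5
    split_ifs at h5 <;> (try simp only [iff_false, iff_true] at h5) <;> omega
  · rw [if_pos hjj] at h5
    split_ifs at h5 <;> (try simp only [iff_false, iff_true] at h5) <;> omega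

lemma Opp.kind0 {e : ℕ} {β : ℕ → Set ℕ} (h : Opp hP e β) {i α X : ℕ} (hα : β i = F P n α)
    {j0 b0 : ℕ} (h1 : (X, j0, b0) ∈ (fc hP α).recs)
    (hx1 : 1 ≤ cf hP e i (elt e i 1 X)) (hx2 : 1 ≤ cf hP e i (elt e i 2 X)) :
    j0 = 3 ∨ j0 = 0 ∨ ∃ j, (j = 1 ∨ j = 2) ∧ 2 ≤ cf hP e i (elt e i j X) := by
  obtain ⟨t, -, h4⟩ := (fc_FC hP α).at 0
  by_contra hcon
  push Not at hcon
  obtain ⟨h5, h6, h7⟩ := hcon
  have hb := (inv P t).rb _ h4 _ _ _ h1
  have h8 : cf hP e i (elt e i j0 X) = 1 := by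
    rcases (show j0 = 1 ∨ j0 = 2 by omega) with rfl | rfl
    · have := h7 1 (Or.inl rfl); omega
    · have := h7 2 (Or.inr rfl); omega
  have h9 := h.iff hα j0 X
  unfold Inn at h9
  rw [(inv P t).lk_eq h4 h1, Dv_some, if_neg (by omega), if_neg (by omega), if_neg h5, h8,
    if_neg (by simp)] at h9
  have h10 := h9.1 (by decide)
  split_ifs at h10 <;> revert h10 <;> decide

end final

end Pool.Agent.Helper158.Num
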