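import Pool.Agent.Helper158.Num.Sep

/-! Merging two classes keeps the invariants. -/

namespace Pool.Agent.Helper158.Num

/-- merging is allowed -/
structure MerOk (S : List Cl) (c c' : Cl) (b : ℕ) : Prop where
  hc : c ∈ S
  hc' : c' ∈ S
  t : c.typ ≠ 0
  t' : c'.typ ≠ 0
  b0 : b ≠ 0
  bt : b ≤ c.typ
  lt : c.bp < c'.pos

namespace Inv
variable {S : List Cl} {N : ℕ}

lemma mer_disj (h : Inv S N) {c c' : Cl} {b : ℕ} (ok : MerOk S c c' b) {X j b1 j' b1' : ℕ}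
    (h1 : (X, j, b1) ∈ c.recs) (h2 : (X, j', b1') ∈ c'.recs) : False := by
  have := h.shr c' ok.hc' c ok.hc _ _ _ _ _ h2 h1
  have := ok.lt
  omega

lemma mer_ne (h : Inv S N) {c c' : Cl} {b : ℕ} (ok : MerOk S c c' b) : c ≠ c' := by
  rintro rfl
  exact h.mer_disj ok (h.rself c ok.hc) (h.rself c ok.hc)

lemma mer_name {c c' : Cl} {b X j b1 : ℕ} (h1 : (X, j, b1) ∈ (merge c c' b).recs) :
    ∃ d, (d = c ∨ d = c') ∧ ∃ b0, (X, j, b0) ∈ d.recs ∧ (b1 ≠ 0 → b0 ≠ 0) ∧ (b0 = 0 → b1 = 0) := by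
  rw [mem_merge_recs] at h1
  rcases h1 with h2 | ⟨b0, h2, rfl⟩
  · exact ⟨c, Or.inl rfl, b1, h2, id, id⟩
  · refine ⟨c', Or.inr rfl, b0, h2, ?_, ?_⟩
    · intro h3 h4; simp [h4] at h3
    · intro h3; simp [h3]

lemma mer_recs_of {c c' : Cl} {b X j b0 : ℕ} (hb : b ≠ 0) {d : Cl} (hd : d = c ∨ d = c')
    (h1 : (X, j, b0) ∈ d.recs) : ∃ b1, (X, j, b1) ∈ (merge c c' b).recs ∧ (b0 ≠ 0 → b1 ≠ 0) ∧
      (b0 = 0 → b1 = 0) := by
  rcases hd with rfl | rfl
  · exact ⟨b0, by rw [mem_merge_recs]; exact Or.inl h1, id, id⟩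
  · refine ⟨if b0 ≠ 0 then b else 0, by rw [mem_merge_recs]; exact Or.inr ⟨b0, h1, rfl⟩, ?_, ?_⟩
    · intro h2; rw [if_pos h2]; exact hb
    · intro h2; simp [h2]

lemma mer (h : Inv S N) {c c' : Cl} {b : ℕ} (ok : MerOk S c c' b) : Inv (merL S c c' b) N := by
  have hc := ok.hc
  have hc' := ok.hc'
  have hm := fun {d : Cl} => h.mem_mer hc hc' (b := b) (d := d)
  have hmm : merge c c' b ∈ merL S c c' b := hm.2 (Or.inl rfl)
  have hin : ∀ d : Cl, d = c ∨ d = c' → d ∈ S := by rintro d (rfl | rfl) <;> assumption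
  have hto : ∀ d ∈ S, ∃ e ∈ merL S c c' b, (∀ X j b0, (X, j, b0) ∈ d.recs →
      ∃ b1, (X, j, b1) ∈ e.recs ∧ (b0 ≠ 0 → b1 ≠ 0) ∧ (b0 = 0 → b1 = 0)) ∧
      (∀ α ρ, (α, ρ) ∈ d.mem → ∃ ρ', (α, ρ') ∈ e.mem ∧ (ρ = 0 → ρ' = 0)) := by
    intro d hd
    by_cases h1 : d = c ∨ d = c'
    · refine ⟨merge c c' b, hmm, fun X j b0 h2 => mer_recs_of ok.b0 h1 h2, ?_⟩
      intro α ρ h2
      rcases h1 with rfl | rfl
      · exact ⟨ρ, by rw [mem_merge_mem]; exact Or.inl h2, id⟩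
      · exact ⟨_, by rw [mem_merge_mem]; exact Or.inr ⟨ρ, h2, rfl⟩, by intro e; simp [e]⟩
    · push Not at h1
      exact ⟨d, hm.2 (Or.inr ⟨hd, h1⟩), fun X j b0 h2 => ⟨b0, h2, id, id⟩,
        fun α ρ h2 => ⟨ρ, h2, id⟩⟩
  constructor
  · -- idu
    intro d hd e he hde
    rw [hm] at hd he
    rcases hd with rfl | ⟨hd, hd1, hd2⟩ <;> rcases he with rfl | ⟨he, he1, he2⟩
    · rfl
    · exact absurd (h.idu e he c hc hde.symm) he1
    · exact absurd (h.idu d hd c hc hde) hd1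
    · exact h.idu d hd e he hde
  · -- rself
    intro d hd
    rw [hm] at hd
    rcases hd with rfl | ⟨hd, hd1, hd2⟩
    · rw [mem_merge_recs]; exact Or.inl (h.rself c hc)
    · exact h.rself d hd
  · -- rlt
    intro d hd X j b1 h1
    rw [hm] at hd
    rcases hd with rfl | ⟨hd, hd1, hd2⟩
    · obtain ⟨e, he, b0, h2, -⟩ := mer_name h1
      exact h.rlt e (hin e he) _ _ _ h2
    · exact h.rlt d hd _ _ _ h1
  · -- ru
    intro d hd X j b1 j' b1' h1 h2
    rw [hm] at hd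
    rcases hd with rfl | ⟨hd, hd1, hd2⟩
    · rw [mem_merge_recs] at h1 h2
      rcases h1 with h1 | ⟨b2, h1, rfl⟩ <;> rcases h2 with h2 | ⟨b3, h2, rfl⟩
      · exact h.ru c hc _ _ _ _ _ h1 h2
      · exact (h.mer_disj ok h1 h2).elim
      · exact (h.mer_disj ok h2 h1).elim
      · obtain ⟨rfl, rfl⟩ := h.ru c' hc' _ _ _ _ _ h1 h2
        exact ⟨rfl, rfl⟩
    · exact h.ru d hd _ _ _ _ _ h1 h2
  · -- r3
    intro d hd X b1 h1
    rw [hm] at hd
    rcases hd with rfl | ⟨hd, hd1, hd2⟩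
    · rw [mem_merge_recs] at h1
      rcases h1 with h1 | ⟨b2, h1, rfl⟩
      · obtain ⟨h2, h3, h4⟩ := h.r3 c hc _ _ h1
        refine ⟨h2, by rw [mem_merge_mem]; exact Or.inl h3, ?_⟩
        intro e he j' b' h5
        rw [hm] at he
        rcases he with rfl | ⟨he, he1, he2⟩
        · rfl
        · exact absurd (h4 e he _ _ h5) he1
      · obtain ⟨h2, h3, h4⟩ := h.r3 c' hc' _ _ h1
        subst h2
        refine ⟨by simp, by rw [mem_merge_mem]; exact Or.inr ⟨0, h3, by simp⟩, ?_⟩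
        intro e he j' b' h5
        rw [hm] at he
        rcases he with rfl | ⟨he, he1, he2⟩
        · rfl
        · exact absurd (h4 e he _ _ h5) he2
    · obtain ⟨h2, h3, h4⟩ := h.r3 d hd _ _ h1
      refine ⟨h2, h3, ?_⟩
      intro e he j' b' h5
      rw [hm] at he
      rcases he with rfl | ⟨he, he1, he2⟩
      · obtain ⟨f, hf, b0, h6, -⟩ := mer_name h5
        have h7 := h4 f (hin f hf) _ _ h6
        rcases hf with rfl | rfl
        · exact absurd h7.symm hd1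
        · exact absurd h7.symm hd2
      · exact h4 e he _ _ h5
  · -- r0
    intro d hd X b1 h1
    rw [hm] at hd
    rcases hd with rfl | ⟨hd, hd1, hd2⟩
    · rw [mem_merge_recs] at h1
      rcases h1 with h1 | ⟨b2, h1, rfl⟩
      · exact absurd (h.r0 c hc _ _ h1).2.1 ok.t
      · exact absurd (h.r0 c' hc' _ _ h1).2.1 ok.t'
    · exact h.r0 d hd _ _ h1
  · -- rj
    intro d hd e he X j b1 b2 h1 h2 h3 h4
    rw [hm] at hd he
    rcases hd with rfl | ⟨hd, hd1, hd2⟩ <;> rcases he with rfl | ⟨he, he1, he2⟩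
    · rfl
    · obtain ⟨f, hf, b0, h6, h7, -⟩ := mer_name h1
      have h8 := h.rj f (hin f hf) e he _ _ _ _ h6 h2 (h7 h3) h4
      rcases hf with rfl | rfl
      · exact absurd h8.symm he1
      · exact absurd h8.symm he2
    · obtain ⟨f, hf, b0, h6, h7, -⟩ := mer_name h2
      have h8 := h.rj f (hin f hf) d hd _ _ _ _ h6 h1 (h7 h4) h3
      rcases hf with rfl | rfl
      · exact absurd h8.symm hd1
      · exact absurd h8.symm hd2
    · exact h.rj d hd e he _ _ _ _ h1 h2 h3 h4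
  · -- rb
    intro d hd X j b1 h1
    rw [hm] at hd
    rcases hd with rfl | ⟨hd, hd1, hd2⟩
    · rw [mem_merge_recs] at h1
      rcases h1 with h1 | ⟨b2, h1, rfl⟩
      · exact h.rb c hc _ _ _ h1
      · refine ⟨(h.rb c' hc' _ _ _ h1).1, ?_⟩
        have := ok.bt
        change _ ≤ c.typ
        split_ifs <;> omega
    · exact h.rb d hd _ _ _ h1
  · -- ra
    intro d hd X j b1 h1 h2
    rw [hm] at hd
    rcases hd with rfl | ⟨hd, hd1, hd2⟩
    · rw [mem_merge_recs] at h1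
      rcases h1 with h1 | ⟨b2, h1, rfl⟩
      · obtain ⟨α, h3⟩ := h.ra c hc _ _ _ h1 h2
        exact ⟨α, by rw [mem_merge_mem]; exact Or.inl h3⟩
      · split_ifs at h2 ⊢ with h3
        · refine ⟨3 * c'.id + 1, ?_⟩
          rw [mem_merge_mem]; exact Or.inr ⟨1, h.ms1 c' hc', by simp⟩
        · exact absurd rfl h2
    · exact h.ra d hd _ _ _ h1 h2
  · -- rex
    intro X hX
    obtain ⟨d, hd, h1, h2⟩ := h.rex X hX
    obtain ⟨e, he, he1, he2⟩ := hto d hd
    obtain ⟨ρ', h3, h4⟩ := he2 _ _ h1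
    rw [h4 rfl] at h3
    refine ⟨e, he, h3, ?_⟩
    rcases h2 with h2 | ⟨h2, h5⟩
    · obtain ⟨b1, h6, -, h7⟩ := he1 _ _ _ h2
      rw [h7 rfl] at h6
      exact Or.inl h6
    · obtain ⟨b1, h6, -, h7⟩ := he1 _ _ _ h2
      rw [h7 rfl] at h6
      refine Or.inr ⟨h6, fun j hj => ?_⟩
      obtain ⟨f, hf, b2, hb2, h8⟩ := h5 j hj
      obtain ⟨g, hg, hg1, -⟩ := hto f hf
      obtain ⟨b3, h9, h10, -⟩ := hg1 _ _ _ h8
      exact ⟨g, hg, b3, h10 hb2, h9⟩
  · -- mlt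
    intro d hd α ρ h1
    rw [hm] at hd
    rcases hd with rfl | ⟨hd, hd1, hd2⟩
    · rw [mem_merge_mem] at h1
      rcases h1 with h1 | ⟨b2, h1, rfl⟩
      · exact h.mlt c hc _ _ h1
      · exact h.mlt c' hc' _ _ h1
    · exact h.mlt d hd _ _ h1
  · -- mu
    intro d hd e he α ρ ρ' h1 h2
    rw [hm] at hd he
    rcases hd with rfl | ⟨hd, hd1, hd2⟩ <;> rcases he with rfl | ⟨he, he1, he2⟩
    · refine ⟨rfl, ?_⟩
      rw [mem_merge_mem] at h1 h2
      rcases h1 with h1 | ⟨b2, h1, rfl⟩ <;> rcases h2 with h2 | ⟨b3, h2, rfl⟩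
      · exact (h.mu c hc c hc _ _ _ h1 h2).2
      · exact absurd (h.mu c hc c' hc' _ _ _ h1 h2).1 (h.mer_ne ok)
      · exact absurd (h.mu c hc c' hc' _ _ _ h2 h1).1 (h.mer_ne ok)
      · rw [(h.mu c' hc' c' hc' _ _ _ h1 h2).2]
    · rw [mem_merge_mem] at h1
      rcases h1 with h1 | ⟨b2, h1, rfl⟩
      · exact absurd (h.mu c hc e he _ _ _ h1 h2).1.symm he1
      · exact absurd (h.mu c' hc' e he _ _ _ h1 h2).1.symm he2
    · rw [mem_merge_mem] at h2
      rcases h2 with h2 | ⟨b2, h2, rfl⟩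
      · exact absurd (h.mu c hc d hd _ _ _ h2 h1).1.symm hd1
      · exact absurd (h.mu c' hc' d hd _ _ _ h2 h1).1.symm hd2
    · exact h.mu d hd e he _ _ _ h1 h2
  · -- mex
    intro α hα
    obtain ⟨d, hd, ρ, h1⟩ := h.mex α hα
    obtain ⟨e, he, -, he2⟩ := hto d hd
    obtain ⟨ρ', h3, -⟩ := he2 _ _ h1
    exact ⟨e, he, ρ', h3⟩
  · -- mz
    intro d hd α ρ h1
    rw [hm] at hd
    rcases hd with rfl | ⟨hd, hd1, hd2⟩
    · rw [mem_merge_mem] at h1
      rcases h1 with h1 | ⟨b2, h1, rfl⟩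
      · exact h.mz c hc _ _ h1
      · rw [← h.mz c' hc' _ _ h1]
        have := ok.b0
        split_ifs with h3
        · simp [this, h3]
        · simp only [ne_eq, not_not] at h3; simp [h3]
    · exact h.mz d hd _ _ h1
  · -- mb
    intro d hd α ρ h1
    rw [hm] at hd
    rcases hd with rfl | ⟨hd, hd1, hd2⟩
    · rw [mem_merge_mem] at h1
      change ρ ≤ max 1 c.typ
      rcases h1 with h1 | ⟨b2, h1, rfl⟩
      · exact h.mb c hc _ _ h1
      · have := ok.bt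
        split_ifs <;> omega
    · exact h.mb d hd _ _ h1
  · -- ms1
    intro d hd
    rw [hm] at hd
    rcases hd with rfl | ⟨hd, hd1, hd2⟩
    · rw [mem_merge_mem]; exact Or.inl (h.ms1 c hc)
    · exact h.ms1 d hd
  · -- ms2
    intro d hd h1
    rw [hm] at hd
    rcases hd with rfl | ⟨hd, hd1, hd2⟩
    · rw [mem_merge_mem]; exact Or.inl (h.ms2 c hc h1)
    · exact h.ms2 d hd h1
  · -- typ
    intro d hd
    rw [hm] at hd
    rcases hd with rfl | ⟨hd, hd1, hd2⟩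
    · exact h.typ c hc
    · exact h.typ d hd
  · -- pb
    intro d hd
    rw [hm] at hd
    rcases hd with rfl | ⟨hd, hd1, hd2⟩
    · exact (h.pb c hc).trans (le_max_left _ _)
    · exact h.pb d hd
  · -- shr
    intro d hd e he X j b1 j' b1' h1 h2
    rw [hm] at hd he
    rcases hd with rfl | ⟨hd, hd1, hd2⟩ <;> rcases he with rfl | ⟨he, he1, he2⟩
    · exact (h.pb c hc).trans (le_max_left _ _)
    · obtain ⟨f, hf, b0, h6, -⟩ := mer_name h1
      have h7 := h.shr f (hin f hf) e he _ _ _ _ _ h6 h2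
      change c.pos ≤ _
      have h8 := h.pb c hc
      have h9 := ok.lt
      rcases hf with rfl | rfl
      · exact h7
      · omega
    · obtain ⟨f, hf, b0, h6, -⟩ := mer_name h2
      have h7 := h.shr d hd f (hin f hf) _ _ _ _ _ h1 h6
      change _ ≤ max c.bp c'.bp
      rcases hf with rfl | rfl
      · exact h7.trans (le_max_left _ _)
      · exact h7.trans (le_max_right _ _)
    · exact h.shr d hd e he _ _ _ _ _ h1 h2

end Inv

end Pool.Agent.Helper158.Num
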