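import Pool.Agent.Helper158.Num.Cases

/-! The construction is primitive recursive in its data. -/

namespace Pool.Agent.Helper158.Num

def Cl.eqv : Cl ≃ (ℕ × ℕ × ℕ × ℕ × List (ℕ × ℕ × ℕ) × List (ℕ × ℕ)) where
  toFun c := (c.id, c.pos, c.bp, c.typ, c.recs, c.mem)
  invFun p := ⟨p.1, p.2.1, p.2.2.1, p.2.2.2.1, p.2.2.2.2.1, p.2.2.2.2.2⟩
  left_inv _ := rfl
  right_inv _ := rfl

instance : Primcodable Cl := Primcodable.ofEquiv _ Cl.eqv

namespace Pr

open Primrec

variable {γ β σ : Type} [Primcodable γ] [Primcodable β] [Primcodable σ]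

lemma eqv : Primrec Cl.eqv := Primrec.of_equiv
lemma eqv_symm : Primrec Cl.eqv.symm := Primrec.of_equiv_symm

lemma id : Primrec Cl.id := by
  have h := Primrec.fst.comp eqv
  exact h.of_eq (fun _ => rfl)

lemma pos : Primrec Cl.pos := by
  have h := Primrec.fst.comp (Primrec.snd.comp eqv)
  exact h.of_eq (fun _ => rfl)

lemma bp : Primrec Cl.bp := by
  have h := Primrec.fst.comp (Primrec.snd.comp (Primrec.snd.comp eqv))
  exact h.of_eq (fun _ => rfl)

lemma typ : Primrec Cl.typ := by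
  have h := Primrec.fst.comp (Primrec.snd.comp (Primrec.snd.comp (Primrec.snd.comp eqv)))
  exact h.of_eq (fun _ => rfl)

lemma recs : Primrec Cl.recs := by
  have h := Primrec.fst.comp
    (Primrec.snd.comp (Primrec.snd.comp (Primrec.snd.comp (Primrec.snd.comp eqv))))
  exact h.of_eq (fun _ => rfl)

lemma mem : Primrec Cl.mem := by
  have h := Primrec.snd.comp
    (Primrec.snd.comp (Primrec.snd.comp (Primrec.snd.comp (Primrec.snd.comp eqv))))
  exact h.of_eq (fun _ => rfl)

lemma mk {f1 f2 f3 f4 : γ → ℕ} {f5 : γ → List (ℕ × ℕ × ℕ)} {f6 : γ → List (ℕ × ℕ)}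
    (h1 : Primrec f1) (h2 : Primrec f2) (h3 : Primrec f3) (h4 : Primrec f4) (h5 : Primrec f5)
    (h6 : Primrec f6) : Primrec fun a => (⟨f1 a, f2 a, f3 a, f4 a, f5 a, f6 a⟩ : Cl) := by
  have h := eqv_symm.comp (h1.pair (h2.pair (h3.pair (h4.pair (h5.pair h6)))))
  exact h.of_eq (fun _ => rfl)

lemma exL {f : γ → List β} {R : γ → β → Prop} (hf : Primrec f) (hR : PrimrecRel R) :
    PrimrecPred fun a => ∃ b ∈ f a, R a b :=
  (hR.swap.exists_mem_list.comp hf Primrec.id).of_eq (fun _ => Iff.rfl)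

lemma exLt {f : γ → ℕ} {R : γ → ℕ → Prop} (hf : Primrec f) (hR : PrimrecRel R) :
    PrimrecPred fun a => ∃ i < f a, R a i :=
  (exL (list_range.comp hf) hR).of_eq (fun a => by simp)

lemma filterL {f : γ → List β} {R : γ → β → Prop} [∀ a, DecidablePred (R a)] (hf : Primrec f)
    (hR : PrimrecRel R) : Primrec fun a => (f a).filter (fun b => R a b) := by
  have h : DecidableRel (Function.swap R) := fun b a => inferInstanceAs (Decidable (R a b))
  refine (hR.swap.listFilter.comp hf Primrec.id).of_eq (fun a => List.filter_congr fun b _ => ?_)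
  exact decide_eq_decide.2 Iff.rfl

lemma add {f g : γ → ℕ} (hf : Primrec f) (hg : Primrec g) : Primrec fun a => f a + g a :=
  nat_add.comp hf hg
lemma mul {f g : γ → ℕ} (hf : Primrec f) (hg : Primrec g) : Primrec fun a => f a * g a :=
  nat_mul.comp hf hg
lemma max {f g : γ → ℕ} (hf : Primrec f) (hg : Primrec g) : Primrec fun a => Max.max (f a) (g a) :=
  nat_max.comp hf hg
lemma div {f g : γ → ℕ} (hf : Primrec f) (hg : Primrec g) : Primrec fun a => f a / g a :=
  nat_div.comp hf hg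
lemma mod {f g : γ → ℕ} (hf : Primrec f) (hg : Primrec g) : Primrec fun a => f a % g a :=
  nat_mod.comp hf hg
lemma pair {f g : γ → ℕ} (hf : Primrec f) (hg : Primrec g) : Primrec fun a => Nat.pair (f a) (g a) :=
  Primrec₂.natPair.comp hf hg
lemma un1 {f : γ → ℕ} (hf : Primrec f) : Primrec fun a => (Nat.unpair (f a)).1 :=
  Primrec.fst.comp (Primrec.unpair.comp hf)
lemma un2 {f : γ → ℕ} (hf : Primrec f) : Primrec fun a => (Nat.unpair (f a)).2 :=
  Primrec.snd.comp (Primrec.unpair.comp hf)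
lemma cst (k : ℕ) : Primrec fun _ : γ => k := Primrec.const k
lemma eqn {f g : γ → ℕ} (hf : Primrec f) (hg : Primrec g) : PrimrecPred fun a => f a = g a :=
  Primrec.eq.comp hf hg
lemma le {f g : γ → ℕ} (hf : Primrec f) (hg : Primrec g) : PrimrecPred fun a => f a ≤ g a :=
  Primrec.nat_le.comp hf hg
lemma lt {f g : γ → ℕ} (hf : Primrec f) (hg : Primrec g) : PrimrecPred fun a => f a < g a :=
  Primrec.nat_lt.comp hf hg
lemma cons {f : γ → β} {g : γ → List β} (hf : Primrec f) (hg : Primrec g) :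
    Primrec fun a => f a :: g a := list_cons.comp hf hg
lemma app {f g : γ → List β} (hf : Primrec f) (hg : Primrec g) :
    Primrec fun a => f a ++ g a := list_append.comp hf hg

lemma m1 {f : γ → ℕ} (hf : Primrec f) : Primrec fun a => Num.m1 (f a) :=
  Primrec.ite (eqn hf (cst 0)) (cst 0) (cst 1)

lemma hostCl {f g : γ → ℕ} (hf : Primrec f) (hg : Primrec g) :
    Primrec fun a => Num.hostCl (f a) (g a) := by
  unfold Num.hostCl
  refine mk hf hg hg (cst 2) ?_ ?_
  · exact cons (hf.pair ((cst 3).pair (cst 0))) (Primrec.const [])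
  · exact cons ((mul (cst 3) hf).pair (cst 0)) (cons ((add (mul (cst 3) hf) (cst 1)).pair (cst 1))
      (cons ((add (mul (cst 3) hf) (cst 2)).pair (cst 2)) (Primrec.const [])))

lemma trR {t : γ → ℕ} {r : γ → ℕ × ℕ × ℕ} (ht : Primrec t) (hr : Primrec r) :
    Primrec fun a => Num.trR (t a) (r a) := by
  unfold Num.trR
  have h1 := Primrec.fst.comp hr
  have h2 := Primrec.fst.comp (Primrec.snd.comp hr)
  have h3 := Primrec.snd.comp (Primrec.snd.comp hr)
  exact Primrec.ite (eqn h2 (cst 3)) (h1.pair (ht.pair (m1 ht)))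
    (h1.pair (h2.pair (Primrec.ite ((eqn h3 (cst 0)).not.and (eqn h3 ht)) (cst 1) (cst 0))))

lemma child {c : γ → Cl} {N t : γ → ℕ} (hc : Primrec c) (hN : Primrec N) (ht : Primrec t) :
    Primrec fun a => Num.child (c a) (N a) (t a) := by
  unfold Num.child
  have hs := add hN ht
  refine mk hs (pos.comp hc) (bp.comp hc) (m1 ht) ?_ ?_
  · refine cons (hs.pair ((cst 3).pair (cst 0))) ?_
    exact Primrec.list_map (recs.comp hc) (trR (ht.comp Primrec.fst) Primrec.snd)
  · have h3 := mul (cst 3) hs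
    refine cons (h3.pair (cst 0)) (cons ((add h3 (cst 1)).pair (cst 1))
      (cons ((add h3 (cst 2)).pair (cst 1)) ?_))
    refine Primrec.list_map (filterL (mem.comp hc) (R := fun a m => m.2 = t a) ?_) ?_
    · exact eqn (Primrec.snd.comp Primrec.snd) (ht.comp Primrec.fst)
    · exact Primrec.pair (Primrec.fst.comp Primrec.snd) (m1 (ht.comp Primrec.fst))

lemma shR {b : γ → ℕ} {r : γ → ℕ × ℕ × ℕ} (hb : Primrec b) (hr : Primrec r) :
    Primrec fun a => Num.shR (b a) (r a) := by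
  unfold Num.shR
  have h1 := Primrec.fst.comp hr
  have h2 := Primrec.fst.comp (Primrec.snd.comp hr)
  have h3 := Primrec.snd.comp (Primrec.snd.comp hr)
  exact h1.pair (h2.pair (Primrec.ite (eqn h3 (cst 0)).not hb (cst 0)))

lemma shM {b : γ → ℕ} {m : γ → ℕ × ℕ} (hb : Primrec b) (hm : Primrec m) :
    Primrec fun a => Num.shM (b a) (m a) := by
  unfold Num.shM
  have h1 := Primrec.fst.comp hm
  have h2 := Primrec.snd.comp hm
  exact h1.pair (Primrec.ite (eqn h2 (cst 0)).not hb (cst 0))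

lemma merge {c c' : γ → Cl} {b : γ → ℕ} (hc : Primrec c) (hc' : Primrec c') (hb : Primrec b) :
    Primrec fun a => Num.merge (c a) (c' a) (b a) := by
  unfold Num.merge
  refine mk (id.comp hc) (pos.comp hc) (max (bp.comp hc) (bp.comp hc')) (typ.comp hc) ?_ ?_
  · exact app (recs.comp hc) (Primrec.list_map (recs.comp hc') (shR (hb.comp Primrec.fst) Primrec.snd))
  · exact app (mem.comp hc) (Primrec.list_map (mem.comp hc') (shM (hb.comp Primrec.fst) Primrec.snd))

lemma sepL {S : γ → List Cl} {c : γ → Cl} {N : γ → ℕ} (hS : Primrec S) (hc : Primrec c)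
    (hN : Primrec N) : Primrec fun a => Num.sepL (S a) (c a) (N a) := by
  unfold Num.sepL
  refine cons (child hc hN (cst 0)) (cons (child hc hN (cst 1)) (cons (child hc hN (cst 2)) ?_))
  refine filterL hS (R := fun a d => d.id ≠ (c a).id) ?_
  exact (eqn (id.comp Primrec.snd) (id.comp (hc.comp Primrec.fst))).not

lemma merL {S : γ → List Cl} {c c' : γ → Cl} {b : γ → ℕ} (hS : Primrec S) (hc : Primrec c)
    (hc' : Primrec c') (hb : Primrec b) : Primrec fun a => Num.merL (S a) (c a) (c' a) (b a) := by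
  unfold Num.merL
  refine cons (merge hc hc' hb) ?_
  refine filterL hS (R := fun a d => d.id ≠ (c a).id ∧ d.id ≠ (c' a).id) ?_
  exact (eqn (id.comp Primrec.snd) (id.comp (hc.comp Primrec.fst))).not.and
    (eqn (id.comp Primrec.snd) (id.comp (hc'.comp Primrec.fst))).not

lemma elt {e i j X : γ → ℕ} (he : Primrec e) (hi : Primrec i) (hj : Primrec j) (hX : Primrec X) :
    Primrec fun a => Num.elt (e a) (i a) (j a) (X a) :=
  pair he (pair hi (pair hj hX))

lemma ag {y : γ → ℕ} (hy : Primrec y) : Primrec fun a => Num.ag (y a) :=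
  add (add (mul (cst 3) (div hy (cst 2))) (cst 1)) (mod hy (cst 2))

end Pr

/-- the data are primitive recursive -/
structure Par.Prim (P : Par) : Prop where
  cnt : Primrec (fun q : ℕ × ℕ × ℕ × ℕ => P.cnt q.1 q.2.1 q.2.2.1 q.2.2.2)
  tT : Primrec (fun q : ℕ × ℕ × ℕ => P.tT q.1 q.2.1 q.2.2)
  tN : Primrec (fun q : ℕ × ℕ × ℕ => P.tN q.1 q.2.1 q.2.2)

namespace Pr

open Primrec

variable {γ β σ : Type} [Primcodable γ] [Primcodable β] [Primcodable σ]

variable {P : Par} (hP : P.Prim)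
include hP

lemma cnt {e s i x : γ → ℕ} (he : Primrec e) (hs : Primrec s) (hi : Primrec i) (hx : Primrec x) :
    Primrec fun a => P.cnt (e a) (s a) (i a) (x a) :=
  hP.cnt.comp (he.pair (hs.pair (hi.pair hx)))

lemma tT {m s X : γ → ℕ} (hm : Primrec m) (hs : Primrec s) (hX : Primrec X) :
    Primrec fun a => P.tT (m a) (s a) (X a) :=
  hP.tT.comp (hm.pair (hs.pair hX))

lemma tN {m s X : γ → ℕ} (hm : Primrec m) (hs : Primrec s) (hX : Primrec X) :
    Primrec fun a => P.tN (m a) (s a) (X a) :=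
  hP.tN.comp (hm.pair (hs.pair hX))

/-- the counter of the opponent at a marker is at least `k` -/
lemma cle (k : ℕ) {e s i j X : γ → ℕ} (he : Primrec e) (hs : Primrec s) (hi : Primrec i)
    (hj : Primrec j) (hX : Primrec X) :
    PrimrecPred fun a => k ≤ P.cnt (e a) (s a) (i a) (Num.elt (e a) (i a) (j a) (X a)) :=
  le (cst k) (cnt hP he hs hi (elt he hi hj hX))

lemma comm {e s : γ → ℕ} {c : γ → Cl} {b : γ → ℕ} (he : Primrec e) (hs : Primrec s)
    (hc : Primrec c) (hb : Primrec b) :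
    PrimrecPred fun a => Num.comm P (e a) (s a) (c a) (b a) := by
  unfold Num.comm
  refine exL (recs.comp hc) ?_
  refine PrimrecPred.and (p := fun q : γ × (ℕ × ℕ × ℕ) => q.2.2.2 = b q.1)
    (eqn (Primrec.snd.comp (Primrec.snd.comp Primrec.snd)) (hb.comp Primrec.fst)) ?_
  refine exLt (hs.comp Primrec.fst) ?_
  have hX : Primrec fun q : (γ × (ℕ × ℕ × ℕ)) × ℕ => q.1.2.1 :=
    Primrec.fst.comp (Primrec.snd.comp Primrec.fst)
  have hj : Primrec fun q : (γ × (ℕ × ℕ × ℕ)) × ℕ => q.1.2.2.1 :=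
    Primrec.fst.comp (Primrec.snd.comp (Primrec.snd.comp Primrec.fst))
  have he' := he.comp (Primrec.fst.comp (Primrec.fst (α := γ × (ℕ × ℕ × ℕ)) (β := ℕ)))
  have hs' := hs.comp (Primrec.fst.comp (Primrec.fst (α := γ × (ℕ × ℕ × ℕ)) (β := ℕ)))
  exact (cle hP 1 he' hs' Primrec.snd (cst 0) hX).and (cle hP 2 he' hs' Primrec.snd hj hX)

lemma trig {s : γ → ℕ} {c : γ → Cl} (hs : Primrec s) (hc : Primrec c) :
    PrimrecPred fun a => Num.trig P (s a) (c a) := by
  unfold Num.trig
  have hp := pos.comp hc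
  have hid := id.comp hc
  have hp2 := div hp (cst 2)
  refine PrimrecPred.or ((eqn (mod hp (cst 2)) (cst 0)).and ?_)
    ((eqn (mod hp (cst 2)) (cst 0)).not.and ?_)
  · exact Primrec.eq.comp (tT hP hp2 hs hid) (Primrec.const true)
  · refine exL (mem.comp hc) ?_
    have h1 : Primrec fun q : γ × (ℕ × ℕ) =>
        (P.tN ((c q.1).pos / 2) (s q.1) (c q.1).id).map Num.ag :=
      Primrec.option_map (tN hP (hp2.comp Primrec.fst) (hs.comp Primrec.fst)
        (hid.comp Primrec.fst)) (ag Primrec.snd)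
    exact Primrec.eq.comp h1 (Primrec.option_some.comp (Primrec.fst.comp Primrec.snd))

lemma sepOk {s : γ → ℕ} {c : γ → Cl} (hs : Primrec s) (hc : Primrec c) :
    PrimrecPred fun a => Num.sepOk P (s a) (c a) :=
  (eqn (typ.comp hc) (cst 2)).and (trig hP hs hc)

lemma merOk {s : γ → ℕ} {c c' : γ → Cl} {e b : γ → ℕ} (hs : Primrec s) (hc : Primrec c)
    (hc' : Primrec c') (he : Primrec e) (hb : Primrec b) :
    PrimrecPred fun a => Num.merOk P (s a) (c a) (c' a) (e a) (b a) := by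
  unfold Num.merOk
  have ht := typ.comp hc
  have ht' := typ.comp hc'
  refine PrimrecPred.and ((eqn ht (cst 0)).not.and (eqn ht' (cst 0)).not) ?_
  refine PrimrecPred.and ((eqn hb (cst 0)).not.and (le hb ht)) ?_
  refine PrimrecPred.and (lt (bp.comp hc) (pos.comp hc')) ?_
  refine PrimrecPred.and (lt he (pos.comp hc)) ?_
  refine PrimrecPred.and (comm hP he hs hc hb).not ?_
  exact (comm hP he hs hc' (cst 1)).or (comm hP he hs hc' (cst 2))

omit hP in
lemma fnd {S : γ → List Cl} {k : γ → ℕ} (hS : Primrec S) (hk : Primrec k) :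
    Primrec fun a => Num.fnd (S a) (k a) := by
  classical
  unfold Num.fnd
  refine Primrec.list_head?.comp ((filterL hS (R := fun a c => c.id = k a) ?_).of_eq
    fun a => List.filter_congr fun b _ => decide_eq_decide.2 Iff.rfl)
  exact eqn (id.comp Primrec.snd) (hk.comp Primrec.fst)

lemma actSep {s : γ → ℕ} {S : γ → St} {c : γ → Cl} (hs : Primrec s) (hS : Primrec S)
    (hc : Primrec c) : Primrec fun a => Num.actSep P (s a) (S a) (c a) := by
  classical
  unfold Num.actSep
  have h1 := Primrec.fst.comp hS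
  have h2 := Primrec.snd.comp hS
  exact Primrec.ite (sepOk hP hs hc) ((sepL h1 hc h2).pair (add h2 (cst 3))) hS

omit hP in
lemma reHost {S : γ → St} {c' : γ → Cl} (hS : Primrec S) (hc' : Primrec c') :
    Primrec fun a => Num.reHost (S a) (c' a) := by
  unfold Num.reHost
  have h1 := Primrec.fst.comp hS
  have h2 := Primrec.snd.comp hS
  exact Primrec.ite (eqn (typ.comp hc') (cst 2))
    ((cons (hostCl h2 (pos.comp hc')) h1).pair (add h2 (cst 1))) hS

lemma actMer {s : γ → ℕ} {S : γ → St} {c c' : γ → Cl} {e b : γ → ℕ} (hs : Primrec s)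
    (hS : Primrec S) (hc : Primrec c) (hc' : Primrec c') (he : Primrec e) (hb : Primrec b) :
    Primrec fun a => Num.actMer P (s a) (S a) (c a) (c' a) (e a) (b a) := by
  classical
  unfold Num.actMer
  have h1 := Primrec.fst.comp hS
  have h2 := Primrec.snd.comp hS
  exact Primrec.ite (merOk hP hs hc hc' he hb) (reHost ((merL h1 hc hc' hb).pair h2) hc') hS

lemma act2 {s : γ → ℕ} {S : γ → St} {c c' : γ → Cl} {e b : γ → ℕ} (hs : Primrec s)
    (hS : Primrec S) (hc : Primrec c) (hc' : Primrec c') (he : Primrec e) (hb : Primrec b) :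
    Primrec fun a => Num.act2 P (s a) (S a) (c a) (c' a) (e a) (b a) := by
  unfold Num.act2
  exact Primrec.ite (eqn hb (cst 0)) (actSep hP hs hS hc) (actMer hP hs hS hc hc' he hb)

lemma act {s : γ → ℕ} {S : γ → St} {k k' e b : γ → ℕ} (hs : Primrec s)
    (hS : Primrec S) (hk : Primrec k) (hk' : Primrec k') (he : Primrec e) (hb : Primrec b) :
    Primrec fun a => Num.act P (s a) (S a) (k a) (k' a) (e a) (b a) := by
  unfold Num.act
  have h1 := Primrec.fst.comp hS
  refine Primrec.option_getD.comp ?_ hS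
  refine Primrec.option_bind (fnd h1 hk) ?_
  refine Primrec.option_map (fnd (h1.comp Primrec.fst) (hk'.comp Primrec.fst)) ?_
  have hf : Primrec fun q : (γ × Cl) × Cl => q.1.1 := Primrec.fst.comp Primrec.fst
  exact act2 hP (hs.comp hf) (hS.comp hf) (Primrec.snd.comp Primrec.fst) Primrec.snd (he.comp hf)
    (hb.comp hf)

lemma step {s : γ → ℕ} {S : γ → St} (hs : Primrec s) (hS : Primrec S) :
    Primrec fun a => Num.step P (s a) (S a) := by
  unfold Num.step
  have hw := un2 hs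
  have hw1 := un2 hw
  have hw2 := un2 hw1
  have hA := act hP hs hS (un1 hw) (un1 hw1) (un1 hw2) (un2 hw2)
  have h1 := Primrec.fst.comp hA
  have h2 := Primrec.snd.comp hA
  exact (cons (hostCl h2 hs) h1).pair (add h2 (cst 1))

lemma st : Primrec (Num.st P) := by
  refine (Primrec.nat_rec₁ (f := fun s S => Num.step P s S) ([], 0) ?_).of_eq ?_
  · exact step hP Primrec.fst Primrec.snd
  · intro s
    induction s with
    | zero => rfl
    | succ s ih =>
      rw [Num.st, ← ih]

lemma stc {s : γ → ℕ} (hs : Primrec s) : Primrec fun a => (Num.st P (s a)).1 :=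
  Primrec.fst.comp ((st hP).comp hs)

omit hP in
lemma loc {S : γ → List Cl} {k : γ → ℕ} (hS : Primrec S) (hk : Primrec k) :
    Primrec fun a => Num.loc (S a) (k a) := by
  unfold Num.loc
  refine Primrec.list_head?.comp (Primrec.listFilterMap hS ?_)
  refine Primrec.option_map ?_ ?_
  · exact Primrec.listLookup.comp (hk.comp Primrec.fst) (mem.comp Primrec.snd)
  · exact (Primrec.snd.comp Primrec.fst).pair Primrec.snd

omit hP in
lemma lk {X : γ → ℕ} {l : γ → List (ℕ × ℕ × ℕ)} (hX : Primrec X) (hl : Primrec l) :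
    Primrec fun a => Num.lk (X a) (l a) :=
  Primrec.listLookup.comp hX hl

omit hP in
lemma sub {f g : γ → ℕ} (hf : Primrec f) (hg : Primrec g) : Primrec fun a => f a - g a :=
  nat_sub.comp hf hg

omit hP in
lemma Dv (n : ℕ) {k j ρ : γ → ℕ} {κ : γ → Option (ℕ × ℕ)} (hk : Primrec k) (hj : Primrec j)
    (hκ : Primrec κ) (hρ : Primrec ρ) : Primrec fun a => Num.Dv n (k a) (j a) (κ a) (ρ a) := by
  unfold Num.Dv
  have h1 : PrimrecPred fun a => k a < 2 := lt hk (cst 2)
  have hg := Primrec.option_getD.comp hκ (Primrec.const ((0, 0) : ℕ × ℕ))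
  have g1 := Primrec.fst.comp hg
  have g2 := Primrec.snd.comp hg
  have hsome : PrimrecPred fun a => (κ a).isSome = true :=
    Primrec.eq.comp (Primrec.option_isSome.comp hκ) (Primrec.const true)
  have hnone : PrimrecPred fun a => (κ a).isNone = true :=
    hsome.not.of_eq fun a => by cases κ a <;> simp
  have hk1 := sub hk (cst 1)
  have hk2 := sub hk (cst 2)
  exact Primrec.ite (eqn hj (cst 0)) (Primrec.ite hsome (cst _) (Primrec.ite h1 (cst 0) hk1))
    (Primrec.ite (lt (cst 2) hj) (cst 0) (Primrec.ite hnone (cst 0)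
    (Primrec.ite (eqn g1 (cst 3)) (cst 1) (Primrec.ite (eqn g1 hj).not (Primrec.ite h1 (cst 1) hk1)
    (Primrec.ite (eqn g2 (cst 0)) (Primrec.ite h1 (cst 0) hk1) (Primrec.ite (eqn g2 hρ)
    (Primrec.ite h1 (cst 2) hk) (Primrec.ite h1 (cst 0) hk2)))))))

lemma DD (n : ℕ) {s α x : γ → ℕ} (hs : Primrec s) (hα : Primrec α) (hx : Primrec x) :
    Primrec fun a => Num.DD P n (s a) (α a) (x a) := by
  unfold Num.DD
  refine Primrec.option_getD.comp ?_ (cst 0)
  refine Primrec.option_map (loc (stc hP hs) hα) ?_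
  have hx1 := un1 hx
  have hx2 := un2 hx
  have hx3 := un1 hx2
  have hx4 := un2 hx2
  have hx5 := un1 hx4
  have hx6 := un2 hx4
  have hc := cnt hP hx1 hs hx3 hx
  exact Dv n (hc.comp Primrec.fst) (hx5.comp Primrec.fst)
    (lk (hx6.comp Primrec.fst) (recs.comp (Primrec.fst.comp Primrec.snd)))
    (Primrec.snd.comp Primrec.snd)

omit hP in
/-- membership in a list -/
lemma memL {f : γ → β} {g : γ → List β} (hf : Primrec f) (hg : Primrec g) :
    PrimrecPred fun a => f a ∈ g a := by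
  refine (exL hg (R := fun a b => b = f a) ?_).of_eq fun a => ?_
  · exact Primrec.eq.comp Primrec.snd (hf.comp Primrec.fst)
  · simp

lemma GR {e s i X : γ → ℕ} (he : Primrec e) (hs : Primrec s) (hi : Primrec i) (hX : Primrec X) :
    PrimrecPred fun a => Num.GR P (e a) (s a) (i a) (X a) := by
  unfold Num.GR
  refine exL (stc hP hs) ?_
  have f := Primrec.fst (α := γ) (β := Cl)
  refine PrimrecPred.and (memL ((hX.comp f).pair ((cst 3).pair (cst 0))) (recs.comp Primrec.snd)) ?_
  exact PrimrecPred.and (cle hP 1 (he.comp f) (hs.comp f) (hi.comp f) (cst 0) (hX.comp f))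
    (PrimrecPred.and (cle hP 1 (he.comp f) (hs.comp f) (hi.comp f) (cst 1) (hX.comp f))
    (cle hP 1 (he.comp f) (hs.comp f) (hi.comp f) (cst 2) (hX.comp f)))

lemma HR {e s i X : γ → ℕ} (he : Primrec e) (hs : Primrec s) (hX : Primrec X) (hi : Primrec i) :
    PrimrecPred fun a => Num.HR P (e a) (s a) (X a) (i a) := by
  unfold Num.HR
  refine exL (stc hP hs) ?_
  have f := Primrec.fst (α := γ) (β := Cl)
  refine PrimrecPred.and (memL ((mul (cst 3) (hX.comp f)).pair (cst 0)) (mem.comp Primrec.snd)) ?_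
  refine PrimrecPred.or ?_ ?_
  · refine PrimrecPred.and (memL ((hX.comp f).pair ((cst 3).pair (cst 0))) (recs.comp Primrec.snd)) ?_
    exact PrimrecPred.and (cle hP 1 (he.comp f) (hs.comp f) (hi.comp f) (cst 0) (hX.comp f))
      (PrimrecPred.and (cle hP 1 (he.comp f) (hs.comp f) (hi.comp f) (cst 1) (hX.comp f))
      (cle hP 1 (he.comp f) (hs.comp f) (hi.comp f) (cst 2) (hX.comp f)))
  · exact PrimrecPred.and (eqn (typ.comp Primrec.snd) (cst 0))
      (cle hP 1 (he.comp f) (hs.comp f) (hi.comp f) (cst 0) (id.comp Primrec.snd))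

lemma FR {e s i y : γ → ℕ} (he : Primrec e) (hs : Primrec s) (hy : Primrec y) (hi : Primrec i) :
    PrimrecPred fun a => Num.FR P (e a) (s a) (y a) (i a) := by
  have key : PrimrecPred fun a => ∃ c ∈ (Num.st P (s a)).1, ∃ m ∈ c.mem, m.1 = Num.ag (y a) ∧
      ((c.typ = 0 ∧ 1 ≤ P.cnt (e a) (s a) (i a) (Num.elt (e a) (i a) 0 c.id)) ∨
        ∃ r ∈ c.recs, r.2.2 = m.2 ∧ r.2.1 ≠ 3 ∧
          1 ≤ P.cnt (e a) (s a) (i a) (Num.elt (e a) (i a) 0 r.1) ∧
          2 ≤ P.cnt (e a) (s a) (i a) (Num.elt (e a) (i a) r.2.1 r.1)) := by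
    refine exL (stc hP hs) ?_
    refine exL (f := fun q : γ × Cl => q.2.mem) (mem.comp Primrec.snd) ?_
    have f : Primrec fun q : (γ × Cl) × (ℕ × ℕ) => q.1.1 := Primrec.fst.comp Primrec.fst
    have fc : Primrec fun q : (γ × Cl) × (ℕ × ℕ) => q.1.2 := Primrec.snd.comp Primrec.fst
    refine PrimrecPred.and (eqn (Primrec.fst.comp Primrec.snd) (ag (hy.comp f))) ?_
    refine PrimrecPred.or ?_ ?_
    · exact PrimrecPred.and (eqn (typ.comp fc) (cst 0))
        (cle hP 1 (he.comp f) (hs.comp f) (hi.comp f) (cst 0) (id.comp fc))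
    · refine exL (recs.comp fc) ?_
      have h : Primrec fun q : ((γ × Cl) × (ℕ × ℕ)) × (ℕ × ℕ × ℕ) => q.1.1.1 := f.comp Primrec.fst
      have hX : Primrec fun q : ((γ × Cl) × (ℕ × ℕ)) × (ℕ × ℕ × ℕ) => q.2.1 :=
        Primrec.fst.comp Primrec.snd
      have hj : Primrec fun q : ((γ × Cl) × (ℕ × ℕ)) × (ℕ × ℕ × ℕ) => q.2.2.1 :=
        Primrec.fst.comp (Primrec.snd.comp Primrec.snd)
      have hb : Primrec fun q : ((γ × Cl) × (ℕ × ℕ)) × (ℕ × ℕ × ℕ) => q.2.2.2 :=
        Primrec.snd.comp (Primrec.snd.comp Primrec.snd)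
      have hm : Primrec fun q : ((γ × Cl) × (ℕ × ℕ)) × (ℕ × ℕ × ℕ) => q.1.2.2 :=
        Primrec.snd.comp (Primrec.snd.comp Primrec.fst)
      exact PrimrecPred.and (eqn hb hm) (PrimrecPred.and (eqn hj (cst 3)).not (PrimrecPred.and
        (cle hP 1 (he.comp h) (hs.comp h) (hi.comp h) (cst 0) hX)
        (cle hP 2 (he.comp h) (hs.comp h) (hi.comp h) hj hX)))
  refine key.of_eq fun a => ?_
  unfold Num.FR
  constructor
  · rintro ⟨c, hc, ⟨α, ρ⟩, hm, h1, h2⟩
    simp only at h1 h2
    subst h1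
    refine ⟨c, hc, ρ, hm, ?_⟩
    rcases h2 with h2 | ⟨⟨X, j, b⟩, hr, h3, h4, h5⟩
    · exact Or.inl h2
    · simp only at h3 h4 h5
      subst h3
      exact Or.inr ⟨X, j, hr, h4, h5⟩
  · rintro ⟨c, hc, ρ, hm, h2⟩
    refine ⟨c, hc, (_, ρ), hm, rfl, ?_⟩
    rcases h2 with h2 | ⟨X, j, hr, h4, h5⟩
    · exact Or.inl h2
    · exact Or.inr ⟨(X, j, ρ), hr, rfl, h4, h5⟩

/-- the relation of being in the same class -/
lemma same {s X Y : γ → ℕ} (hs : Primrec s) (hX : Primrec X) (hY : Primrec Y) :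
    PrimrecPred fun a => ∃ c ∈ (Num.st P (s a)).1, (3 * X a, 0) ∈ c.mem ∧ (3 * Y a, 0) ∈ c.mem := by
  refine exL (stc hP hs) ?_
  have f := Primrec.fst (α := γ) (β := Cl)
  exact PrimrecPred.and (memL ((mul (cst 3) (hX.comp f)).pair (cst 0)) (mem.comp Primrec.snd))
    (memL ((mul (cst 3) (hY.comp f)).pair (cst 0)) (mem.comp Primrec.snd))

end Pr

end Pool.Agent.Helper158.Num
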