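import Pool.Agent.Helper158.Num.Cases

/-! The requirements: `mu` is not positive, `nu` does not reduce to `mu`, `nu` is positive. -/

namespace Pool.Agent.Helper158.Num

open Classical

variable {P : Par} {n : ℕ}

variable (P n) in
/-- the requirement with number `r` is satisfied -/
def Sat (r : ℕ) : Prop :=
  (r % 2 = 0 ∧ ∃ X s, P.tT (r / 2) s X = true ∧ mu P n (2 * X) ≠ mu P n (2 * X + 1)) ∨
  (r % 2 ≠ 0 ∧ ∃ X s y, P.tN (r / 2) s X = some y ∧ nu P n X ≠ mu P n y)

lemma ag_even (X : ℕ) : ag (2 * X) = 3 * X + 1 := by unfold ag; omega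
lemma ag_odd (X : ℕ) : ag (2 * X + 1) = 3 * X + 2 := by unfold ag; omega

/-- final classes with different records of the same name are different -/
lemma ne_of_recs (hn : 2 ≤ n) (hP : P.Ok n) {α α' X j b j' b' : ℕ}
    (h1 : (X, j, b) ∈ (fc hP α).recs) (h2 : (X, j', b') ∈ (fc hP α').recs) (hj : j ≠ j') :
    F P n α ≠ F P n α' := by
  intro h
  have h3 := F_inj hP hn h
  rw [← h3] at h2
  obtain ⟨t, ht, hI⟩ := (fc_FC hP α).inv
  exact hj (hI.ru _ ht _ _ _ _ _ h1 h2).1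

lemma sat_of_sep (hn : 2 ≤ n) (hP : P.Ok n) {s : ℕ} {c : Cl} (hc : c ∈ (st P s).1)
    (ok : sepOk P s c)
    (h : (st P (s + 1)).1 = hostCl ((st P s).2 + 3) s :: sepL (st P s).1 c (st P s).2) :
    Sat P n c.pos := by
  have hI := inv P s
  have hself := hI.rself c hc
  have hch : ∀ t ≤ 2, child c (st P s).2 t ∈ (st P (s + 1)).1 := by
    intro t ht
    rw [h, List.mem_cons, hI.mem_sep hc]
    exact Or.inr (Or.inl ⟨t, ht, rfl⟩)
  have hrec : ∀ t ≤ 2, (c.id, t, m1 t) ∈ (child c (st P s).2 t).recs := by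
    intro t ht
    rw [mem_child_recs]
    exact Or.inr (Or.inl ⟨0, hself, rfl, rfl⟩)
  have key : ∀ α t, t ≤ 2 → t ≠ 0 → (α, t) ∈ c.mem → ∃ b, (c.id, t, b) ∈ (fc hP α).recs := by
    intro α t ht ht0 hα
    have h1 : (α, m1 t) ∈ (child c (st P s).2 t).mem := by
      rw [mem_child_mem]; exact Or.inr (Or.inr (Or.inr ⟨hα, rfl⟩))
    exact ⟨_, (pers hP (hch t ht) h1 (hrec t ht) (by omega)
      (fun h2 => ht0 (m1_eq_zero.1 h2))).1⟩
  rcases ok.2 with ⟨hr, htr⟩ | ⟨hr, m, hm, htr⟩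
  · left
    refine ⟨hr, c.id, s, htr, ?_⟩
    obtain ⟨b, h1⟩ := key _ 1 (by norm_num) one_ne_zero (hI.ms1 c hc)
    obtain ⟨b', h2⟩ := key _ 2 (by norm_num) two_ne_zero (hI.ms2 c hc ok.1)
    unfold mu
    rw [ag_even, ag_odd]
    exact ne_of_recs hn hP h1 h2 (by norm_num)
  · right
    rw [Option.map_eq_some_iff] at htr
    obtain ⟨y, hy, hy2⟩ := htr
    refine ⟨hr, c.id, s, y, hy, ?_⟩
    obtain ⟨α, ρ⟩ := m
    simp only at hy2
    subst hy2
    have hρ : ρ ≠ 0 := fun h3 => ag_mod y ((hI.mz c hc _ _ hm).1 h3)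
    have hρ2 : ρ ≤ 2 := by
      have := hI.mb c hc _ _ hm
      have := ok.1
      omega
    obtain ⟨b, h1⟩ := key _ ρ hρ2 hρ hm
    have h2 : (3 * c.id, 0) ∈ (child c (st P s).2 0).mem := by
      rw [mem_child_mem]
      exact Or.inr (Or.inr (Or.inr ⟨(hI.r3 c hc _ _ hself).2.1, rfl⟩))
    have h3 : FC P (child c (st P s).2 0) := static_FC (hch 0 (by norm_num)) rfl
    have h4 := (fc_eq hP h3 h2).1
    have h5 : (c.id, 0, 0) ∈ (fc hP (3 * c.id)).recs := by
      rw [h4]; exact hrec 0 (by norm_num)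
    exact ne_of_recs hn hP h5 h1 (fun h6 => hρ h6.symm)

/-- each position hosts a class or its requirement is satisfied -/
lemma hosted (hn : 2 ≤ n) (hP : P.Ok n) (s : ℕ) : ∀ r < s,
    (∃ c ∈ (st P s).1, c.typ = 2 ∧ c.pos = r) ∨ Sat P n r := by
  induction s with
  | zero => intro r hr; omega
  | succ s ih =>
    intro r hr
    have hI := inv P s
    rcases Nat.lt_succ_iff_lt_or_eq.1 hr with hr | rfl
    · rcases ih r hr with ⟨c, hc, h1, h2⟩ | h1
      · cases ev P s with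
        | no h => exact Or.inl ⟨c, by rw [h]; exact List.mem_cons_of_mem _ hc, h1, h2⟩
        | sep d hd ok h =>
          by_cases hcd : c = d
          · subst hcd
            rw [← h2]
            exact Or.inr (sat_of_sep hn hP hd ok h)
          · left
            refine ⟨c, ?_, h1, h2⟩
            rw [h, List.mem_cons, hI.mem_sep hd]
            exact Or.inr (Or.inr ⟨hc, hcd⟩)
        | mer d d' e b hd hd' ok h =>
          left
          by_cases hcd : c = d
          · subst hcd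
            refine ⟨merge c d' b, ?_, h1, h2⟩
            have h3 : merge c d' b ∈ merL (st P s).1 c d' b := (hI.mem_mer hd hd').2 (Or.inl rfl)
            rcases h with ⟨-, h⟩ | ⟨-, h⟩
            · rw [h]; exact List.mem_cons_of_mem _ (List.mem_cons_of_mem _ h3)
            · rw [h]; exact List.mem_cons_of_mem _ h3
          · by_cases hcd' : c = d'
            · subst hcd'
              rcases h with ⟨-, h⟩ | ⟨h4, -⟩
              · refine ⟨hostCl (st P s).2 c.pos, ?_, rfl, h2⟩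
                rw [h]; exact List.mem_cons_of_mem _ List.mem_cons_self
              · exact absurd h1 h4
            · refine ⟨c, ?_, h1, h2⟩
              have h3 : c ∈ merL (st P s).1 d d' b :=
                (hI.mem_mer hd hd').2 (Or.inr ⟨hc, hcd, hcd'⟩)
              rcases h with ⟨-, h⟩ | ⟨-, h⟩
              · rw [h]; exact List.mem_cons_of_mem _ (List.mem_cons_of_mem _ h3)
              · rw [h]; exact List.mem_cons_of_mem _ h3
      · exact Or.inr h1
    · left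
      obtain ⟨S', -, h2⟩ := step_res P r (st P r)
      refine ⟨hostCl S'.2 r, ?_, rfl, rfl⟩
      rw [st, h2]
      exact List.mem_cons_self

/-- a final host is never triggered -/
lemma not_trig {c : Cl} (hc : FC P c) (ht : c.typ = 2) : ∃ s₀, ∀ q ≥ s₀, ¬ trig P (code q c.id c.id 0 0) c := by
  obtain ⟨s₀, h0⟩ := hc
  refine ⟨s₀, fun q hq htr => ?_⟩
  set s := code q c.id c.id 0 0 with hs
  have hqs : q ≤ s := le_code _ _ _ _ _
  have hcs := h0 s (by omega)
  have h1 : (st P (s + 1)).1 = hostCl ((st P s).2 + 3) s :: sepL (st P s).1 c (st P s).2 := by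
    rw [st]
    conv_lhs => rw [hs]
    rw [step_code, ← hs, act_sep P (inv P s) hcs ⟨ht, htr⟩ 0]
  exact sep_notMem hcs h1 (h0 (s + 1) (by omega))

lemma final_host (hn : 2 ≤ n) (hP : P.Ok n) (r : ℕ) :
    (∃ c, FC P c ∧ c.typ = 2 ∧ c.pos = r) ∨ Sat P n r := by
  obtain ⟨s₀, hs₀⟩ := stab hP r
  rcases hosted hn hP (max s₀ (r + 1)) r (by omega) with ⟨c, hc, h1, h2⟩ | h1
  · left
    refine ⟨c, ⟨max s₀ (r + 1), fun s hs => ?_⟩, h1, h2⟩
    exact (hs₀ _ (le_max_left _ _) s hs c (by omega)).1 hc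
  · exact Or.inr h1

/-- `mu` is not positive: the `m`-th set is not its equality -/
lemma mu_not_pos (hn : 2 ≤ n) (hP : P.Ok n) (m : ℕ) :
    ∃ X, (mu P n (2 * X) = mu P n (2 * X + 1) ∧ ∀ s, P.tT m s X = false) ∨
      (mu P n (2 * X) ≠ mu P n (2 * X + 1) ∧ ∃ s, P.tT m s X = true) := by
  have hr : (2 * m) % 2 = 0 := by omega
  have hr2 : (2 * m) / 2 = m := by omega
  rcases final_host hn hP (2 * m) with ⟨c, hc, h1, h2⟩ | h1
  · refine ⟨c.id, Or.inl ⟨?_, ?_⟩⟩
    · unfold mu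
      rw [ag_even, ag_odd]
      obtain ⟨t, ht, hI⟩ := hc.inv
      exact F_eq_of_mem hP hc (hI.ms1 c ht) (hI.ms2 c ht h1)
    · intro s
      by_contra hcon
      simp only [Bool.not_eq_false] at hcon
      obtain ⟨s₀, h3⟩ := not_trig hc h1
      apply h3 (max s₀ s) (le_max_left _ _)
      left
      rw [h2]
      refine ⟨hr, ?_⟩
      rw [hr2]
      exact hP.tTm _ _ _ _ ((le_max_right s₀ s).trans (le_code _ _ _ _ _)) hcon
  · rcases h1 with ⟨-, X, s, h3, h4⟩ | ⟨h3, -⟩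
    · rw [hr2] at h3
      exact ⟨X, Or.inr ⟨h4, s, h3⟩⟩
    · exact absurd hr h3

/-- the `m`-th function does not reduce `nu` to `mu` -/
lemma nu_not_le (hn : 2 ≤ n) (hP : P.Ok n) (m : ℕ) :
    ∃ X, ∀ s y, P.tN m s X = some y → nu P n X ≠ mu P n y := by
  have hr : (2 * m + 1) % 2 ≠ 0 := by omega
  have hr2 : (2 * m + 1) / 2 = m := by omega
  rcases final_host hn hP (2 * m + 1) with ⟨c, hc, h1, h2⟩ | h1
  · refine ⟨c.id, fun s y hy heq => ?_⟩
    obtain ⟨s₀, h3⟩ := not_trig hc h1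
    apply h3 (max s₀ s) (le_max_left _ _)
    right
    rw [h2]
    refine ⟨hr, ?_⟩
    have h4 := F_inj hP hn heq
    have h5 := (fc_eq hP hc hc.nu_mem).1
    have h6 := fc_mem hP (ag y)
    rw [← h4, h5] at h6
    refine ⟨_, h6, ?_⟩
    rw [hr2, hP.tNm _ _ _ _ _ ((le_max_right s₀ s).trans (le_code _ _ _ _ _)) hy]
    rfl
  · rcases h1 with ⟨h3, -⟩ | ⟨-, X, s, y, h3, h4⟩
    · exact absurd h3 hr
    · rw [hr2] at h3
      refine ⟨X, fun s' y' hy' => ?_⟩
      have e1 := hP.tNm _ _ (max s s') _ _ (le_max_left _ _) h3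
      have e2 := hP.tNm _ _ (max s s') _ _ (le_max_right _ _) hy'
      rw [e1] at e2
      simp only [Option.some.injEq] at e2
      rw [← e2]; exact h4

/-- `nu` is positive -/
lemma nu_pos (hn : 2 ≤ n) (hP : P.Ok n) (X Y : ℕ) : nu P n X = nu P n Y ↔
    ∃ s, ∃ c ∈ (st P s).1, (3 * X, 0) ∈ c.mem ∧ (3 * Y, 0) ∈ c.mem := by
  constructor
  · intro h
    have h1 := F_inj hP hn h
    have hF := fc_FC hP (3 * X)
    obtain ⟨t, ht, hI⟩ := hF.inv
    have key : ∀ Z, (3 * Z, fr hP (3 * Z)) ∈ (fc hP (3 * X)).mem → (3 * Z, 0) ∈ (fc hP (3 * X)).mem := by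
      intro Z hZ
      rwa [(hI.mz _ ht _ _ hZ).2 (by omega)] at hZ
    refine ⟨t, _, ht, key _ (fc_mem hP _), key _ ?_⟩
    rw [h1]
    exact fc_mem hP _
  · rintro ⟨s, c, hc, hX, hY⟩
    have hI := inv P s
    -- the record of `Y`
    have hYN : Y < (st P s).2 := by have := hI.mlt c hc _ _ hY; omega
    obtain ⟨d, hd, h1, h2⟩ := hI.rex Y hYN
    obtain ⟨rfl, -⟩ := hI.mu d hd c hc _ _ _ h1 hY
    obtain ⟨t, ht, h3⟩ := (fc_FC hP (3 * X)).at s
    have htr := tr_of P ht hd hX h3 (fc_mem hP (3 * X))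
    have h4 : (3 * Y, 0) ∈ (fc hP (3 * X)).mem := by
      rcases h2 with h2 | ⟨h2, -⟩
      · rcases htr.r3 Y h2 with h5 | ⟨j, h5, -, h6⟩
        · exact (fc_FC hP (3 * X)).nu_of h5 (Or.inl rfl)
        · exact (fc_FC hP (3 * X)).nu_of h5 (Or.inr (h6.2 rfl))
      · rw [htr.st (hI.r0 d hd _ _ h2).2.1]; exact hY
    exact F_eq_of_mem hP (fc_FC hP (3 * X)) (fc_mem hP (3 * X)) h4

end Pool.Agent.Helper158.Num
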