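import Pool.Agent.Helper158.Num.Cls

/-! The separation of a class keeps the invariants. -/

namespace Pool.Agent.Helper158.Num

def sepL (S : List Cl) (c : Cl) (N : ℕ) : List Cl :=
  child c N 0 :: child c N 1 :: child c N 2 :: S.filter (fun d => d.id ≠ c.id)

def merL (S : List Cl) (c c' : Cl) (b : ℕ) : List Cl :=
  merge c c' b :: S.filter (fun d => d.id ≠ c.id ∧ d.id ≠ c'.id)

namespace Inv
variable {S : List Cl} {N : ℕ}

lemma mem_sep (h : Inv S N) {c : Cl} (hc : c ∈ S) {d : Cl} :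
    d ∈ sepL S c N ↔ (∃ t, t ≤ 2 ∧ d = child c N t) ∨ (d ∈ S ∧ d ≠ c) := by
  simp only [sepL, List.mem_cons, List.mem_filter, decide_eq_true_eq]
  constructor
  · rintro (rfl | rfl | rfl | ⟨h1, h2⟩)
    · exact Or.inl ⟨0, by omega, rfl⟩
    · exact Or.inl ⟨1, by omega, rfl⟩
    · exact Or.inl ⟨2, by omega, rfl⟩
    · exact Or.inr ⟨h1, fun e => h2 (by rw [e])⟩
  · rintro (⟨t, ht, rfl⟩ | ⟨h1, h2⟩)
    · interval_cases t <;> simp
    · exact Or.inr (Or.inr (Or.inr ⟨h1, fun e => h2 (h.idu d h1 c hc e)⟩))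

lemma mem_mer (h : Inv S N) {c c' : Cl} (hc : c ∈ S) (hc' : c' ∈ S) {b : ℕ} {d : Cl} :
    d ∈ merL S c c' b ↔ d = merge c c' b ∨ (d ∈ S ∧ d ≠ c ∧ d ≠ c') := by
  simp only [merL, List.mem_cons, List.mem_filter, decide_eq_true_eq]
  constructor
  · rintro (rfl | ⟨h1, h2, h3⟩)
    · exact Or.inl rfl
    · exact Or.inr ⟨h1, fun e => h2 (by rw [e]), fun e => h3 (by rw [e])⟩
  · rintro (rfl | ⟨h1, h2, h3⟩)
    · exact Or.inl rfl
    · exact Or.inr ⟨h1, fun e => h2 (h.idu d h1 c hc e), fun e => h3 (h.idu d h1 c' hc' e)⟩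

/-- the relation between the names of a child and of its parent -/
lemma child_name (h : Inv S N) {c : Cl} (hc : c ∈ S) {t X j b : ℕ}
    (h1 : (X, j, b) ∈ (child c N t).recs) :
    X = N + t ∨ (X < N ∧ ∃ j' b', (X, j', b') ∈ c.recs) := by
  rw [mem_child_recs] at h1
  rcases h1 with ⟨rfl, -⟩ | ⟨b0, h2, -⟩ | ⟨b0, h2, -⟩
  · exact Or.inl rfl
  · exact Or.inr ⟨h.rlt c hc _ _ _ h2, _, _, h2⟩
  · exact Or.inr ⟨h.rlt c hc _ _ _ h2, _, _, h2⟩

lemma sep (h : Inv S N) {c : Cl} (hc : c ∈ S) (hty : c.typ = 2) : Inv (sepL S c N) (N + 3) where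
  idu d hd e he hde := by
    rw [h.mem_sep hc] at hd he
    rcases hd with ⟨t, ht, rfl⟩ | ⟨hd, hd'⟩ <;> rcases he with ⟨t', ht', rfl⟩ | ⟨he, he'⟩
    · have : t = t' := by simp only [child] at hde; omega
      rw [this]
    · have := h.idlt he; simp only [child] at hde; omega
    · have := h.idlt hd; simp only [child] at hde; omega
    · exact h.idu d hd e he hde
  rself d hd := by
    rw [h.mem_sep hc] at hd
    rcases hd with ⟨t, ht, rfl⟩ | ⟨hd, hd'⟩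
    · simp [child]
    · exact h.rself d hd
  rlt d hd X j b h1 := by
    rw [h.mem_sep hc] at hd
    rcases hd with ⟨t, ht, rfl⟩ | ⟨hd, hd'⟩
    · rcases h.child_name hc h1 with h2 | ⟨h2, -⟩ <;> omega
    · have := h.rlt d hd _ _ _ h1; omega
  ru d hd X j b j' b' h1 h2 := by
    rw [h.mem_sep hc] at hd
    rcases hd with ⟨t, ht, rfl⟩ | ⟨hd, hd'⟩
    · rw [mem_child_recs] at h1 h2
      rcases h1 with ⟨rfl, rfl, rfl⟩ | ⟨b0, h3, rfl, rfl⟩ | ⟨b0, h3, h4, rfl⟩ <;>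
      rcases h2 with ⟨e1, rfl, rfl⟩ | ⟨b1, h5, rfl, rfl⟩ | ⟨b1, h5, h6, rfl⟩
      · exact ⟨rfl, rfl⟩
      · have := h.rlt c hc _ _ _ h5; omega
      · have := h.rlt c hc _ _ _ h5; omega
      · have := h.rlt c hc _ _ _ h3; omega
      · exact ⟨rfl, rfl⟩
      · exact absurd (h.ru c hc _ _ _ _ _ h3 h5).1.symm h6
      · have := h.rlt c hc _ _ _ h3; omega
      · exact absurd (h.ru c hc _ _ _ _ _ h3 h5).1 h4
      · obtain ⟨rfl, rfl⟩ := h.ru c hc _ _ _ _ _ h3 h5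
        exact ⟨rfl, rfl⟩
    · exact h.ru d hd _ _ _ _ _ h1 h2
  r3 d hd X b h1 := by
    rw [h.mem_sep hc] at hd
    rcases hd with ⟨t, ht, rfl⟩ | ⟨hd, hd'⟩
    · rw [mem_child_recs] at h1
      rcases h1 with ⟨rfl, -, rfl⟩ | ⟨b0, h3, h4, rfl⟩ | ⟨b0, h3, h4, rfl⟩
      · refine ⟨rfl, by rw [mem_child_mem]; exact Or.inl ⟨rfl, rfl⟩, ?_⟩
        intro e he j' b' h2
        rw [h.mem_sep hc] at he
        rcases he with ⟨t', ht', rfl⟩ | ⟨he, he'⟩
        · rcases h.child_name hc h2 with h3 | ⟨h3, -⟩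
          · have : t = t' := by omega
            rw [this]
          · omega
        · have := h.rlt e he _ _ _ h2; omega
      · omega
      · exact absurd rfl h4
    · obtain ⟨h2, h3, h4⟩ := h.r3 d hd X b h1
      refine ⟨h2, h3, ?_⟩
      intro e he j' b' h5
      rw [h.mem_sep hc] at he
      rcases he with ⟨t', ht', rfl⟩ | ⟨he, he'⟩
      · rcases h.child_name hc h5 with h6 | ⟨-, j'', b'', h6⟩
        · have := h.rlt d hd _ _ _ h1; omega
        · exact absurd (h4 c hc _ _ h6).symm hd'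
      · exact h4 e he _ _ h5
  r0 d hd X b h1 := by
    rw [h.mem_sep hc] at hd
    rcases hd with ⟨t, ht, rfl⟩ | ⟨hd, hd'⟩
    · rw [mem_child_recs] at h1
      rcases h1 with ⟨rfl, h2, rfl⟩ | ⟨b0, h3, rfl, rfl⟩ | ⟨b0, h3, h4, rfl⟩
      · omega
      · refine ⟨rfl, rfl, ?_⟩
        rw [mem_child_mem]
        exact Or.inr (Or.inr (Or.inr ⟨(h.r3 c hc _ _ h3).2.1, rfl⟩))
      · have := (h.r0 c hc _ _ h3).2.1; omega
    · exact h.r0 d hd _ _ h1
  rj d hd e he X j b b' h1 h2 h3 h4 := by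
    rw [h.mem_sep hc] at hd he
    rcases hd with ⟨t, ht, rfl⟩ | ⟨hd, hd'⟩ <;> rcases he with ⟨t', ht', rfl⟩ | ⟨he, he'⟩
    · rw [mem_child_recs] at h1 h2
      rcases h1 with ⟨rfl, rfl, rfl⟩ | ⟨b0, h5, rfl, rfl⟩ | ⟨b0, h5, h6, rfl⟩ <;>
      rcases h2 with ⟨e1, e2, rfl⟩ | ⟨b1, h7, rfl, rfl⟩ | ⟨b1, h7, h8, rfl⟩
      · exact absurd rfl h3
      · have := h.rlt c hc _ _ _ h7; omega
      · have := h.rlt c hc _ _ _ h7; omega
      · exact absurd rfl h4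
      · rfl
      · exact absurd (h.ru c hc _ _ _ _ _ h5 h7).1.symm h8
      · exact absurd rfl h4
      · exact absurd (h.ru c hc _ _ _ _ _ h5 h7).1 h6
      · obtain ⟨-, rfl⟩ := h.ru c hc _ _ _ _ _ h5 h7
        split_ifs at h3 h4 with h9 h10
        · rw [← h9.2, ← h10.2]
        · exact absurd rfl h4
        · exact absurd rfl h3
        · exact absurd rfl h3
    · rw [mem_child_recs] at h1
      rcases h1 with ⟨rfl, rfl, rfl⟩ | ⟨b0, h5, rfl, rfl⟩ | ⟨b0, h5, h6, rfl⟩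
      · exact absurd rfl h3
      · exact absurd ((h.r3 c hc _ _ h5).2.2 e he _ _ h2) he'
      · split_ifs at h3 with h9
        · exact absurd (h.rj c hc e he _ _ _ _ h5 h2 h9.1 h4).symm he'
        · exact absurd rfl h3
    · rw [mem_child_recs] at h2
      rcases h2 with ⟨rfl, rfl, rfl⟩ | ⟨b0, h5, rfl, rfl⟩ | ⟨b0, h5, h6, rfl⟩
      · exact absurd rfl h4
      · exact absurd ((h.r3 c hc _ _ h5).2.2 d hd _ _ h1) hd'
      · split_ifs at h4 with h9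
        · exact absurd (h.rj c hc d hd _ _ _ _ h5 h1 h9.1 h3).symm hd'
        · exact absurd rfl h4
    · exact h.rj d hd e he _ _ _ _ h1 h2 h3 h4
  rb d hd X j b h1 := by
    rw [h.mem_sep hc] at hd
    rcases hd with ⟨t, ht, rfl⟩ | ⟨hd, hd'⟩
    · rw [mem_child_recs] at h1
      rcases h1 with ⟨rfl, rfl, rfl⟩ | ⟨b0, h5, rfl, rfl⟩ | ⟨b0, h5, h6, rfl⟩
      · exact ⟨le_rfl, Nat.zero_le _⟩
      · exact ⟨by omega, le_rfl⟩
      · refine ⟨(h.rb c hc _ _ _ h5).1, ?_⟩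
        simp only [child]
        split_ifs with h9
        · rw [m1_of_ne (by omega)]
        · exact Nat.zero_le _
    · exact h.rb d hd _ _ _ h1
  ra d hd X j b h1 h2 := by
    rw [h.mem_sep hc] at hd
    rcases hd with ⟨t, ht, rfl⟩ | ⟨hd, hd'⟩
    · have h3 : b = 1 := by
        rw [mem_child_recs] at h1
        rcases h1 with ⟨rfl, rfl, rfl⟩ | ⟨b0, h5, rfl, rfl⟩ | ⟨b0, h5, h6, rfl⟩
        · exact absurd rfl h2
        · exact m1_of_ne (fun e => h2 (by rw [e]; rfl))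
        · split_ifs at h2 ⊢
          · rfl
          · exact absurd rfl h2
      rw [h3]
      exact ⟨_, by rw [mem_child_mem]; exact Or.inr (Or.inl ⟨rfl, rfl⟩)⟩
    · exact h.ra d hd _ _ _ h1 h2
  rex X hX := by
    have key : ∀ j, ∀ d ∈ S, ∀ b, b ≠ 0 → (X, j, b) ∈ d.recs →
        ∃ d ∈ sepL S c N, ∃ b, b ≠ 0 ∧ (X, j, b) ∈ d.recs := by
      intro j d hd b hb h1
      by_cases hdc : d = c
      · subst hdc
        have h2 := h.rb d hd _ _ _ h1
        by_cases hj : j = 3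
        · subst hj; exact absurd (h.r3 d hd _ _ h1).1 hb
        · refine ⟨child d N b, (h.mem_sep hc).2 (Or.inl ⟨b, by omega, rfl⟩), 1, one_ne_zero, ?_⟩
          rw [mem_child_recs]
          exact Or.inr (Or.inr ⟨b, h1, hj, by rw [if_pos ⟨hb, rfl⟩]⟩)
      · exact ⟨d, (h.mem_sep hc).2 (Or.inr ⟨hd, hdc⟩), b, hb, h1⟩
    by_cases hXN : X < N
    · obtain ⟨d, hd, h1, h2⟩ := h.rex X hXN
      rcases h2 with h2 | ⟨h2, h3⟩
      · by_cases hdc : d = c
        · subst hdc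
          refine ⟨child d N 0, (h.mem_sep hc).2 (Or.inl ⟨0, by omega, rfl⟩), ?_, Or.inr ⟨?_, ?_⟩⟩
          · rw [mem_child_mem]; exact Or.inr (Or.inr (Or.inr ⟨h1, rfl⟩))
          · rw [mem_child_recs]; exact Or.inr (Or.inl ⟨0, h2, rfl, rfl⟩)
          · intro j hj
            refine ⟨child d N j, (h.mem_sep hc).2 (Or.inl ⟨j, by omega, rfl⟩), 1, one_ne_zero, ?_⟩
            rw [mem_child_recs]
            exact Or.inr (Or.inl ⟨0, h2, rfl, (m1_of_ne (by omega)).symm⟩)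
        · exact ⟨d, (h.mem_sep hc).2 (Or.inr ⟨hd, hdc⟩), h1, Or.inl h2⟩
      · have hdc : d ≠ c := by
          rintro rfl
          have := (h.r0 d hd _ _ h2).2.1; omega
        refine ⟨d, (h.mem_sep hc).2 (Or.inr ⟨hd, hdc⟩), h1, Or.inr ⟨h2, fun j hj => ?_⟩⟩
        obtain ⟨e, he, b, hb, h4⟩ := h3 j hj
        exact key j e he b hb h4
    · obtain ⟨t, ht, rfl⟩ : ∃ t, t ≤ 2 ∧ X = N + t := ⟨X - N, by omega, by omega⟩
      refine ⟨child c N t, (h.mem_sep hc).2 (Or.inl ⟨t, ht, rfl⟩), ?_, Or.inl ?_⟩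
      · rw [mem_child_mem]; exact Or.inl ⟨rfl, rfl⟩
      · rw [mem_child_recs]; exact Or.inl ⟨rfl, rfl, rfl⟩
  mlt d hd α ρ h1 := by
    rw [h.mem_sep hc] at hd
    rcases hd with ⟨t, ht, rfl⟩ | ⟨hd, hd'⟩
    · rw [mem_child_mem] at h1
      rcases h1 with ⟨rfl, -⟩ | ⟨rfl, -⟩ | ⟨rfl, -⟩ | ⟨h2, -⟩
      · omega
      · omega
      · omega
      · have := h.mlt c hc _ _ h2; omega
    · have := h.mlt d hd _ _ h1; omega
  mu d hd e he α ρ ρ' h1 h2 := by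
    rw [h.mem_sep hc] at hd he
    rcases hd with ⟨t, ht, rfl⟩ | ⟨hd, hd'⟩ <;> rcases he with ⟨t', ht', rfl⟩ | ⟨he, he'⟩
    · rw [mem_child_mem] at h1 h2
      rcases h1 with ⟨rfl, rfl⟩ | ⟨rfl, rfl⟩ | ⟨rfl, rfl⟩ | ⟨h3, rfl⟩ <;>
      rcases h2 with ⟨e1, rfl⟩ | ⟨e1, rfl⟩ | ⟨e1, rfl⟩ | ⟨h4, rfl⟩
      · have : t = t' := by omega
        rw [this]; exact ⟨rfl, rfl⟩
      · omega
      · omega
      · have := h.mlt c hc _ _ h4; omega
      · omega
      · have : t = t' := by omega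
        rw [this]; exact ⟨rfl, rfl⟩
      · omega
      · have := h.mlt c hc _ _ h4; omega
      · omega
      · omega
      · have : t = t' := by omega
        rw [this]; exact ⟨rfl, rfl⟩
      · have := h.mlt c hc _ _ h4; omega
      · have := h.mlt c hc _ _ h3; omega
      · have := h.mlt c hc _ _ h3; omega
      · have := h.mlt c hc _ _ h3; omega
      · have := (h.mu c hc c hc _ _ _ h3 h4).2
        rw [this]; exact ⟨rfl, rfl⟩
    · rw [mem_child_mem] at h1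
      rcases h1 with ⟨rfl, rfl⟩ | ⟨rfl, rfl⟩ | ⟨rfl, rfl⟩ | ⟨h3, rfl⟩
      · have := h.mlt e he _ _ h2; omega
      · have := h.mlt e he _ _ h2; omega
      · have := h.mlt e he _ _ h2; omega
      · exact absurd (h.mu c hc e he _ _ _ h3 h2).1.symm he'
    · rw [mem_child_mem] at h2
      rcases h2 with ⟨rfl, rfl⟩ | ⟨rfl, rfl⟩ | ⟨rfl, rfl⟩ | ⟨h3, rfl⟩
      · have := h.mlt d hd _ _ h1; omega
      · have := h.mlt d hd _ _ h1; omega
      · have := h.mlt d hd _ _ h1; omega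
      · exact absurd (h.mu c hc d hd _ _ _ h3 h1).1.symm hd'
    · exact h.mu d hd e he _ _ _ h1 h2
  mex α hα := by
    by_cases hαN : α < 3 * N
    · obtain ⟨d, hd, ρ, h1⟩ := h.mex α hαN
      by_cases hdc : d = c
      · subst hdc
        have h2 := h.mb d hd _ _ h1
        exact ⟨child d N ρ, (h.mem_sep hc).2 (Or.inl ⟨ρ, by omega, rfl⟩), m1 ρ, by
          rw [mem_child_mem]; exact Or.inr (Or.inr (Or.inr ⟨h1, rfl⟩))⟩
      · exact ⟨d, (h.mem_sep hc).2 (Or.inr ⟨hd, hdc⟩), ρ, h1⟩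
    · obtain ⟨t, ht, hα2⟩ : ∃ t, t ≤ 2 ∧
          (α = 3 * (N + t) ∨ α = 3 * (N + t) + 1 ∨ α = 3 * (N + t) + 2) :=
        ⟨(α - 3 * N) / 3, by omega, by omega⟩
      refine ⟨child c N t, (h.mem_sep hc).2 (Or.inl ⟨t, ht, rfl⟩), ?_⟩
      rcases hα2 with h1 | h1 | h1
      · exact ⟨0, by rw [mem_child_mem]; exact Or.inl ⟨h1, rfl⟩⟩
      · exact ⟨1, by rw [mem_child_mem]; exact Or.inr (Or.inl ⟨h1, rfl⟩)⟩
      · exact ⟨1, by rw [mem_child_mem]; exact Or.inr (Or.inr (Or.inl ⟨h1, rfl⟩))⟩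
  mz d hd α ρ h1 := by
    rw [h.mem_sep hc] at hd
    rcases hd with ⟨t, ht, rfl⟩ | ⟨hd, hd'⟩
    · rw [mem_child_mem] at h1
      rcases h1 with ⟨rfl, rfl⟩ | ⟨rfl, rfl⟩ | ⟨rfl, rfl⟩ | ⟨h2, rfl⟩
      · omega
      · omega
      · omega
      · rw [m1_eq_zero]; exact h.mz c hc _ _ h2
    · exact h.mz d hd _ _ h1
  mb d hd α ρ h1 := by
    rw [h.mem_sep hc] at hd
    rcases hd with ⟨t, ht, rfl⟩ | ⟨hd, hd'⟩
    · rw [mem_child_mem] at h1
      have := m1_le t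
      rcases h1 with ⟨rfl, rfl⟩ | ⟨rfl, rfl⟩ | ⟨rfl, rfl⟩ | ⟨h2, rfl⟩
      · simp
      · simp
      · simp
      · simp only [child]; omega
    · exact h.mb d hd _ _ h1
  ms1 d hd := by
    rw [h.mem_sep hc] at hd
    rcases hd with ⟨t, ht, rfl⟩ | ⟨hd, hd'⟩
    · rw [mem_child_mem]; exact Or.inr (Or.inl ⟨rfl, rfl⟩)
    · exact h.ms1 d hd
  ms2 d hd h1 := by
    rw [h.mem_sep hc] at hd
    rcases hd with ⟨t, ht, rfl⟩ | ⟨hd, hd'⟩
    · simp only [child] at h1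
      have := m1_le t; omega
    · exact h.ms2 d hd h1
  typ d hd := by
    rw [h.mem_sep hc] at hd
    rcases hd with ⟨t, ht, rfl⟩ | ⟨hd, hd'⟩
    · simp only [child]
      have := m1_le t; omega
    · exact h.typ d hd
  pb d hd := by
    rw [h.mem_sep hc] at hd
    rcases hd with ⟨t, ht, rfl⟩ | ⟨hd, hd'⟩
    · exact h.pb c hc
    · exact h.pb d hd
  shr d hd e he X j b j' b' h1 h2 := by
    rw [h.mem_sep hc] at hd he
    rcases hd with ⟨t, ht, rfl⟩ | ⟨hd, hd'⟩ <;> rcases he with ⟨t', ht', rfl⟩ | ⟨he, he'⟩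
    · exact h.pb c hc
    · rcases h.child_name hc h1 with h3 | ⟨-, j'', b'', h3⟩
      · have := h.rlt e he _ _ _ h2; omega
      · exact h.shr c hc e he _ _ _ _ _ h3 h2
    · rcases h.child_name hc h2 with h3 | ⟨-, j'', b'', h3⟩
      · have := h.rlt d hd _ _ _ h1; omega
      · exact h.shr d hd c hc _ _ _ _ _ h1 h3
    · exact h.shr d hd e he _ _ _ _ _ h1 h2

end Inv

end Pool.Agent.Helper158.Num
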