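import Pool.Agent.Helper158.Num.Stage

/-! Stabilisation. -/

namespace Pool.Agent.Helper158.Num

open Classical

structure Par.Ok (P : Par) (n : ℕ) : Prop where
  mono : ∀ e s t i x, s ≤ t → P.cnt e s i x ≤ P.cnt e t i x
  le : ∀ e s i x, P.cnt e s i x ≤ n
  supp : ∀ e s i x, 1 ≤ P.cnt e s i x → i < s
  triv : ∃ e₀, ∀ s i x, P.cnt e₀ s i x = 0
  tTm : ∀ m s t X, s ≤ t → P.tT m s X = true → P.tT m t X = true
  tNm : ∀ m s t X y, s ≤ t → P.tN m s X = some y → P.tN m t X = some y

variable {P : Par} {n : ℕ}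

lemma comm_mono (hP : P.Ok n) {e s t : ℕ} (h : s ≤ t) {c : Cl} {b : ℕ} (h1 : comm P e s c b) :
    comm P e t c b := by
  obtain ⟨r, hr, h2, i, hi, h3, h4⟩ := h1
  exact ⟨r, hr, h2, i, by omega, h3.trans (hP.mono _ _ _ _ _ h), h4.trans (hP.mono _ _ _ _ _ h)⟩

lemma comm_merge_left {e s : ℕ} {c c' : Cl} {b b1 : ℕ} (h : comm P e s c b1) :
    comm P e s (merge c c' b) b1 := by
  obtain ⟨⟨X, j, b2⟩, hr, h2, h3⟩ := h
  exact ⟨(X, j, b2), by rw [mem_merge_recs]; exact Or.inl hr, h2, h3⟩

lemma comm_merge_right {e s : ℕ} {c c' : Cl} {b b1 : ℕ} (h0 : b1 ≠ 0) (h : comm P e s c' b1) :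
    comm P e s (merge c c' b) b := by
  obtain ⟨⟨X, j, b2⟩, hr, h2, h3⟩ := h
  simp only at h2
  subst h2
  exact ⟨(X, j, b), by rw [mem_merge_recs]; exact Or.inr ⟨b2, hr, by rw [if_pos h0]⟩, rfl, h3⟩

/-- some class at position `p` changes at stage `s` -/
def Ch (P : Par) (s p : ℕ) : Prop := ∃ c ∈ (st P s).1, c.pos = p ∧ c ∉ (st P (s + 1)).1

/-- description of a stage -/
inductive Ev (P : Par) (s : ℕ) : Prop
  | no (h : (st P (s + 1)).1 = hostCl (st P s).2 s :: (st P s).1)
  | sep (c : Cl) (hc : c ∈ (st P s).1) (ok : sepOk P s c)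
      (h : (st P (s + 1)).1 = hostCl ((st P s).2 + 3) s :: sepL (st P s).1 c (st P s).2)
  | mer (c c' : Cl) (e b : ℕ) (hc : c ∈ (st P s).1) (hc' : c' ∈ (st P s).1)
      (ok : merOk P s c c' e b)
      (h : (c'.typ = 2 ∧ (st P (s + 1)).1 = hostCl ((st P s).2 + 1) s :: hostCl (st P s).2 c'.pos ::
        merL (st P s).1 c c' b) ∨
        (c'.typ ≠ 2 ∧ (st P (s + 1)).1 = hostCl (st P s).2 s :: merL (st P s).1 c c' b))

lemma ev (P : Par) (s : ℕ) : Ev P s := by
  obtain ⟨S', h1, h2⟩ := step_res P s (st P s)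
  have h3 : (st P (s + 1)).1 = hostCl S'.2 s :: S'.1 := by rw [st, h2]
  cases h1 with
  | no => exact Ev.no h3
  | sep c hc ok => exact Ev.sep c hc ok h3
  | mer c c' e b hc hc' ok =>
    refine Ev.mer c c' e b hc hc' ok ?_
    unfold reHost at h3
    split_ifs at h3 with h4
    · exact Or.inl ⟨h4, h3⟩
    · exact Or.inr ⟨h4, h3⟩

lemma ne_host {s p N : ℕ} {c : Cl} (hc : c ∈ (st P s).1) (hN : (st P s).2 ≤ N) : c ≠ hostCl N p := by
  rintro rfl
  have := (inv P s).idlt hc
  simp only [hostCl] at this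
  omega

lemma sep_notMem {s : ℕ} {c : Cl} (hc : c ∈ (st P s).1)
    (h : (st P (s + 1)).1 = hostCl ((st P s).2 + 3) s :: sepL (st P s).1 c (st P s).2) :
    c ∉ (st P (s + 1)).1 := by
  rw [h, List.mem_cons, (inv P s).mem_sep hc]
  rintro (h1 | ⟨t, ht, h1⟩ | ⟨-, h1⟩)
  · exact ne_host hc (by omega) h1
  · have h2 := (inv P s).idlt hc
    rw [h1] at h2
    simp only [child] at h2
    omega
  · exact h1 rfl

lemma mer_notMem {s : ℕ} {c c' : Cl} {e b : ℕ} (hc : c ∈ (st P s).1) (hc' : c' ∈ (st P s).1)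
    (ok : merOk P s c c' e b)
    (h : (c'.typ = 2 ∧ (st P (s + 1)).1 = hostCl ((st P s).2 + 1) s :: hostCl (st P s).2 c'.pos ::
        merL (st P s).1 c c' b) ∨
        (c'.typ ≠ 2 ∧ (st P (s + 1)).1 = hostCl (st P s).2 s :: merL (st P s).1 c c' b)) :
    c ∉ (st P (s + 1)).1 ∧ c' ∉ (st P (s + 1)).1 := by
  have hI := inv P s
  have ok' := ok.ok P hc hc'
  have h1 : c ∉ merL (st P s).1 c c' b := by
    rw [hI.mem_mer hc hc']
    rintro (h1 | ⟨-, h1, -⟩)
    · have h2 : (c'.id, 3, 0) ∈ c.recs := by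
        rw [h1, mem_merge_recs]
        exact Or.inr ⟨0, hI.rself c' hc', by simp⟩
      exact hI.mer_disj ok' h2 (hI.rself c' hc')
    · exact h1 rfl
  have h2 : c' ∉ merL (st P s).1 c c' b := by
    rw [hI.mem_mer hc hc']
    rintro (h1 | ⟨-, -, h1⟩)
    · have h2 : c'.id = c.id := by rw [h1]; rfl
      exact hI.mer_ne ok' (hI.idu c' hc' c hc h2).symm
    · exact h1 rfl
  rcases h with ⟨-, h⟩ | ⟨-, h⟩
  · rw [h]
    simp only [List.mem_cons, not_or]
    exact ⟨⟨ne_host hc (by omega), ne_host hc le_rfl, h1⟩,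
      ⟨ne_host hc' (by omega), ne_host hc' le_rfl, h2⟩⟩
  · rw [h]
    simp only [List.mem_cons, not_or]
    exact ⟨⟨ne_host hc le_rfl, h1⟩, ⟨ne_host hc' le_rfl, h2⟩⟩

lemma old_of_new {s : ℕ} {d : Cl} (hd : d ∈ (st P (s + 1)).1) (h1 : d.pos ≠ s)
    (h2 : ¬ Ch P s d.pos) : d ∈ (st P s).1 := by
  have hI := inv P s
  cases ev P s with
  | no h =>
    rw [h, List.mem_cons] at hd
    rcases hd with rfl | hd
    · exact absurd rfl h1
    · exact hd
  | sep c hc ok h =>
    have h3 := sep_notMem hc h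
    rw [h, List.mem_cons, hI.mem_sep hc] at hd
    rcases hd with rfl | ⟨t, ht, rfl⟩ | ⟨hd, -⟩
    · exact absurd rfl h1
    · exact absurd ⟨c, hc, rfl, h3⟩ h2
    · exact hd
  | mer c c' e b hc hc' ok h =>
    have h3 := mer_notMem hc hc' ok h
    have h4 : d = hostCl (st P s).2 c'.pos ∨ d ∈ merL (st P s).1 c c' b := by
      rcases h with ⟨-, h⟩ | ⟨-, h⟩
      · rw [h, List.mem_cons, List.mem_cons] at hd
        rcases hd with rfl | hd | hd
        · exact absurd rfl h1
        · exact Or.inl hd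
        · exact Or.inr hd
      · rw [h, List.mem_cons] at hd
        rcases hd with rfl | hd
        · exact absurd rfl h1
        · exact Or.inr hd
    rcases h4 with rfl | h4
    · exact absurd ⟨c', hc', rfl, h3.2⟩ h2
    · rw [hI.mem_mer hc hc'] at h4
      rcases h4 with rfl | ⟨h4, -⟩
      · exact absurd ⟨c, hc, rfl, h3.1⟩ h2
      · exact h4

/-! ### the measure -/

noncomputable def un (P : Par) (s : ℕ) (c : Cl) (b : ℕ) : ℕ :=
  ((Finset.range c.pos).filter (fun e => ¬ comm P e s c b)).card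

lemma un_le (P : Par) (s : ℕ) (c : Cl) (b : ℕ) : un P s c b ≤ c.pos := by
  unfold un
  exact (Finset.card_filter_le _ _).trans (by simp)

noncomputable def wt (P : Par) (s : ℕ) (c : Cl) : ℕ :=
  if c.typ = 0 then 0 else if c.typ = 1 then un P s c 1 else
    2 * c.pos + 1 + un P s c 1 + un P s c 2

lemma un_mono {s t : ℕ} {c d : Cl} {b : ℕ} (hp : d.pos = c.pos)
    (h : ∀ e, comm P e s c b → comm P e t d b) : un P t d b ≤ un P s c b := by
  unfold un
  rw [hp]
  apply Finset.card_le_card
  intro e he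
  simp only [Finset.mem_filter, Finset.mem_range] at he ⊢
  exact ⟨he.1, fun h1 => he.2 (h e h1)⟩

lemma un_lt {s t : ℕ} {c d : Cl} {b : ℕ} (hp : d.pos = c.pos)
    (h : ∀ e, comm P e s c b → comm P e t d b) {e : ℕ} (he : e < c.pos) (h1 : ¬ comm P e s c b)
    (h2 : comm P e t d b) : un P t d b < un P s c b := by
  unfold un
  rw [hp]
  apply Finset.card_lt_card
  rw [Finset.ssubset_iff_of_subset]
  · exact ⟨e, by simp [he, h1], by simp [h2]⟩
  · intro e he
    simp only [Finset.mem_filter, Finset.mem_range] at he ⊢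
    exact ⟨he.1, fun h1 => he.2 (h e h1)⟩

lemma wt_mono (hP : P.Ok n) {s t : ℕ} (h : s ≤ t) (c : Cl) : wt P t c ≤ wt P s c := by
  have h1 := un_mono (P := P) (s := s) (t := t) (c := c) (d := c) (b := 1) rfl
    (fun e h2 => comm_mono hP h h2)
  have h2 := un_mono (P := P) (s := s) (t := t) (c := c) (d := c) (b := 2) rfl
    (fun e h2 => comm_mono hP h h2)
  unfold wt
  split_ifs <;> omega

/-- total weight at position `p` -/
noncomputable def tw (P : Par) (p s : ℕ) (l : List Cl) : ℕ :=
  (l.map (fun c => if c.pos = p then wt P s c else 0)).sum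

lemma tw_cons (p s : ℕ) (c : Cl) (l : List Cl) :
    tw P p s (c :: l) = (if c.pos = p then wt P s c else 0) + tw P p s l := by
  simp [tw]

lemma tw_mono (hP : P.Ok n) {p s t : ℕ} (h : s ≤ t) (l : List Cl) : tw P p t l ≤ tw P p s l := by
  induction l with
  | nil => simp [tw]
  | cons c l ih =>
    rw [tw_cons, tw_cons]
    have := wt_mono hP h c
    split_ifs <;> omega

lemma tw_filter (p s : ℕ) (q : Cl → Bool) (l : List Cl) : tw P p s (l.filter q) ≤ tw P p s l := by
  induction l with
  | nil => simp [tw]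
  | cons c l ih =>
    rw [List.filter_cons]
    split_ifs
    · rw [tw_cons, tw_cons]; omega
    · rw [tw_cons]; omega

lemma tw_filter_mem (p s : ℕ) (q : Cl → Bool) (l : List Cl) {c : Cl} (hc : c ∈ l) (hq : q c = false)
    (hp : c.pos = p) : tw P p s (l.filter q) + wt P s c ≤ tw P p s l := by
  induction l with
  | nil => simp at hc
  | cons d l ih =>
    rw [List.filter_cons]
    rcases List.mem_cons.1 hc with rfl | hc
    · rw [if_neg (by simp [hq]), tw_cons, if_pos hp]
      have := tw_filter (P := P) p s q l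
      omega
    · have := ih hc
      split_ifs
      · rw [tw_cons, tw_cons]; omega
      · rw [tw_cons]; omega

lemma tw_succ (hP : P.Ok n) {p s : ℕ} (hps : p < s) (hlow : ∀ p' < p, ¬ Ch P s p') :
    tw P p (s + 1) (st P (s + 1)).1 ≤ tw P p s (st P s).1 ∧
    (Ch P s p → tw P p (s + 1) (st P (s + 1)).1 < tw P p s (st P s).1) := by
  have hI := inv P s
  have hhost : ∀ (N : ℕ) (l : List Cl), tw P p (s + 1) (hostCl N s :: l) = tw P p (s + 1) l := by
    intro N l
    rw [tw_cons, if_neg]
    · simp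
    · simp only [hostCl]; omega
  cases ev P s with
  | no h =>
    rw [h, hhost]
    refine ⟨tw_mono hP (Nat.le_add_right s 1) _, ?_⟩
    rintro ⟨c, hc, -, h1⟩
    rw [h] at h1
    exact absurd (List.mem_cons_of_mem _ hc) h1
  | sep c hc ok h =>
    have h3 := sep_notMem hc h
    rw [h, hhost]
    unfold sepL
    rw [tw_cons, tw_cons, tw_cons]
    by_cases hcp : c.pos = p
    · have e0 : (child c (st P s).2 0).pos = p := hcp
      have e1 : (child c (st P s).2 1).pos = p := hcp
      have e2 : (child c (st P s).2 2).pos = p := hcp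
      rw [if_pos e0, if_pos e1, if_pos e2]
      have w0 : wt P (s + 1) (child c (st P s).2 0) = 0 := by
        unfold wt; rw [if_pos]; rfl
      have w1 : wt P (s + 1) (child c (st P s).2 1) ≤ p := by
        unfold wt
        rw [if_neg (by simp [child]), if_pos (by simp [child])]
        exact (un_le _ _ _ _).trans e1.le
      have w2 : wt P (s + 1) (child c (st P s).2 2) ≤ p := by
        unfold wt
        rw [if_neg (by simp [child]), if_pos (by simp [child])]
        exact (un_le _ _ _ _).trans e2.le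
      have w3 : 2 * p + 1 ≤ wt P s c := by
        unfold wt
        rw [if_neg (by rw [ok.1]; norm_num), if_neg (by rw [ok.1]; norm_num), hcp]
        omega
      have w4 := tw_filter_mem (P := P) p s (fun d => d.id ≠ c.id) (st P s).1 hc (by simp) hcp
      have w5 := tw_mono hP (p := p) (Nat.le_add_right s 1) ((st P s).1.filter (fun d => d.id ≠ c.id))
      constructor
      · omega
      · intro _; omega
    · have e0 : (child c (st P s).2 0).pos ≠ p := hcp
      have e1 : (child c (st P s).2 1).pos ≠ p := hcp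
      have e2 : (child c (st P s).2 2).pos ≠ p := hcp
      rw [if_neg e0, if_neg e1, if_neg e2]
      have w4 := tw_filter (P := P) p s (fun d => d.id ≠ c.id) (st P s).1
      have w5 := tw_mono hP (p := p) (Nat.le_add_right s 1) ((st P s).1.filter (fun d => d.id ≠ c.id))
      refine ⟨by omega, ?_⟩
      rintro ⟨d, hd, h1, h2⟩
      exfalso
      apply h2
      rw [h, List.mem_cons, hI.mem_sep hc]
      refine Or.inr (Or.inr ⟨hd, ?_⟩)
      rintro rfl
      exact hcp h1
  | mer c c' e b hc hc' ok h =>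
    have ok' := ok.ok P hc hc'
    have h3 := mer_notMem hc hc' ok h
    have hlt := ok'.lt
    have hpb := hI.pb c hc
    have hc'p : c'.pos ≠ p := by
      intro h4
      exact hlow c.pos (by omega) ⟨c, hc, rfl, h3.1⟩
    have h4 : tw P p (s + 1) (st P (s + 1)).1 = tw P p (s + 1) (merL (st P s).1 c c' b) := by
      rcases h with ⟨-, h⟩ | ⟨-, h⟩
      · rw [h, hhost, tw_cons, if_neg]
        · simp
        · exact hc'p
      · rw [h, hhost]
    rw [h4]
    unfold merL
    rw [tw_cons]
    by_cases hcp : c.pos = p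
    · have e0 : (merge c c' b).pos = p := hcp
      rw [if_pos e0]
      have w4 := tw_filter_mem (P := P) p s (fun d => d.id ≠ c.id ∧ d.id ≠ c'.id) (st P s).1 hc
        (by simp) hcp
      have w5 := tw_mono hP (p := p) (Nat.le_add_right s 1)
        ((st P s).1.filter (fun d => d.id ≠ c.id ∧ d.id ≠ c'.id))
      have key : ∀ b1 e', comm P e' s c b1 → comm P e' (s + 1) (merge c c' b) b1 := fun b1 e' h5 =>
        comm_merge_left (comm_mono hP (Nat.le_add_right s 1) h5)
      have key2 : comm P e (s + 1) (merge c c' b) b := by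
        rcases ok.2.2.2.2.2 with h5 | h5
        · exact comm_merge_right one_ne_zero (comm_mono hP (Nat.le_add_right s 1) h5)
        · exact comm_merge_right two_ne_zero (comm_mono hP (Nat.le_add_right s 1) h5)
      have u1 := un_mono (P := P) (c := c) (d := merge c c' b) (b := 1) rfl (key 1)
      have u2 := un_mono (P := P) (c := c) (d := merge c c' b) (b := 2) rfl (key 2)
      have u3 := un_lt (P := P) (c := c) (d := merge c c' b) (b := b) rfl (key b) ok.2.2.2.1
        ok.2.2.2.2.1 key2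
      have w6 : wt P (s + 1) (merge c c' b) < wt P s c := by
        have ht : (merge c c' b).typ = c.typ := rfl
        have hp' : (merge c c' b).pos = c.pos := rfl
        have hty := hI.typ c hc
        have hb := ok'.b0
        have hb2 := ok'.bt
        have ht0 := ok'.t
        unfold wt
        rw [ht, hp', if_neg ht0, if_neg ht0]
        by_cases ht1 : c.typ = 1
        · rw [if_pos ht1, if_pos ht1]
          have : b = 1 := by omega
          rw [this] at u3 ⊢
          exact u3
        · rw [if_neg ht1, if_neg ht1]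
          have : b = 1 ∨ b = 2 := by omega
          rcases this with rfl | rfl <;> omega
      constructor
      · omega
      · intro _; omega
    · have e0 : (merge c c' b).pos ≠ p := hcp
      rw [if_neg e0]
      have w4 := tw_filter (P := P) p s (fun d => d.id ≠ c.id ∧ d.id ≠ c'.id) (st P s).1
      have w5 := tw_mono hP (p := p) (Nat.le_add_right s 1)
        ((st P s).1.filter (fun d => d.id ≠ c.id ∧ d.id ≠ c'.id))
      refine ⟨by omega, ?_⟩
      rintro ⟨d, hd, h1, h2⟩
      exfalso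
      apply h2
      have h5 : d ∈ merL (st P s).1 c c' b := by
        rw [hI.mem_mer hc hc']
        refine Or.inr ⟨hd, ?_, ?_⟩
        · rintro rfl; exact hcp h1
        · rintro rfl; exact hc'p h1
      rcases h with ⟨-, h⟩ | ⟨-, h⟩
      · rw [h]; exact List.mem_cons_of_mem _ (List.mem_cons_of_mem _ h5)
      · rw [h]; exact List.mem_cons_of_mem _ h5

/-- finitely many changes at each position -/
lemma fin_ch (hP : P.Ok n) (p : ℕ) : ∃ s₀, ∀ s ≥ s₀, ¬ Ch P s p := by
  induction p using Nat.strong_induction_on with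
  | _ p ih =>
    have h1 : ∃ s₁, ∀ s ≥ s₁, ∀ p' < p, ¬ Ch P s p' := by
      choose! f hf using ih
      refine ⟨(Finset.range p).sup f, fun s hs p' hp' => hf p' hp' s ?_⟩
      exact (Finset.le_sup (Finset.mem_range.2 hp')).trans hs
    obtain ⟨s₁, hs₁⟩ := h1
    by_contra hcon
    push Not at hcon
    have h2 : ∀ k, ∃ s ≥ max s₁ (p + 1), tw P p s (st P s).1 + k ≤
        tw P p (max s₁ (p + 1)) (st P (max s₁ (p + 1))).1 := by
      have hmono : ∀ s t, max s₁ (p + 1) ≤ s → s ≤ t → tw P p t (st P t).1 ≤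
          tw P p s (st P s).1 := by
        intro s t hs hst
        induction t, hst using Nat.le_induction with
        | base => exact le_rfl
        | succ t ht iht =>
          refine (tw_succ hP (by omega) ?_).1.trans iht
          intro p' hp'
          exact hs₁ t (by omega) p' hp'
      intro k
      induction k with
      | zero => exact ⟨_, le_rfl, by omega⟩
      | succ k ihk =>
        obtain ⟨s, hs, h3⟩ := ihk
        obtain ⟨t, ht, h4⟩ := hcon s
        have h5 := (tw_succ hP (p := p) (s := t) (by omega)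
          (fun p' hp' => hs₁ t (by omega) p' hp')).2 h4
        have h6 := hmono s t hs ht
        exact ⟨t + 1, by omega, by omega⟩
    obtain ⟨s, -, h3⟩ := h2 (tw P p (max s₁ (p + 1)) (st P (max s₁ (p + 1))).1 + 1)
    omega

/-- stabilisation up to position `p` -/
lemma stab (hP : P.Ok n) (p : ℕ) : ∃ s₀, ∀ s ≥ s₀, ∀ t ≥ s, ∀ c : Cl, c.pos ≤ p →
    (c ∈ (st P s).1 ↔ c ∈ (st P t).1) := by
  have h1 : ∃ s₁, ∀ s ≥ s₁, ∀ p' ≤ p, ¬ Ch P s p' := by
    choose f hf using fin_ch hP
    refine ⟨(Finset.range (p + 1)).sup f, fun s hs p' hp' => hf p' s ?_⟩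
    exact (Finset.le_sup (Finset.mem_range.2 (Nat.lt_succ_of_le hp'))).trans hs
  obtain ⟨s₁, hs₁⟩ := h1
  refine ⟨max s₁ (p + 1), fun s hs t hst c hc => ?_⟩
  induction t, hst using Nat.le_induction with
  | base => exact Iff.rfl
  | succ t ht iht =>
    rw [iht]
    constructor
    · intro h2
      by_contra h3
      exact hs₁ t (by omega) c.pos hc ⟨c, h2, rfl, h3⟩
    · intro h2
      exact old_of_new h2 (by omega) (hs₁ t (by omega) _ hc)

/-- every agent eventually stays in one class -/
lemma agent_fin (hP : P.Ok n) (α : ℕ) : ∃ s₀ c ρ, ∀ s ≥ s₀, c ∈ (st P s).1 ∧ (α, ρ) ∈ c.mem := by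
  obtain ⟨c, hc, ρ, h1⟩ := born P (Nat.lt_succ_self α)
  obtain ⟨s₀, hs₀⟩ := stab hP c.pos
  obtain ⟨d, hd, ρ', h2, h3⟩ := tr_le P (le_max_left (α + 1) s₀) hc h1
  refine ⟨max (α + 1) s₀, d, ρ', fun s hs => ⟨?_, h2⟩⟩
  exact (hs₀ _ (le_max_right _ _) s hs d h3.pos).1 hd

end Pool.Agent.Helper158.Num
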