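import Pool.Agent.Helper158.Num.Tr

/-! The construction. -/

namespace Pool.Agent.Helper158.Num

open Classical

/-- the data against which the construction works: the opponents, given by counters of changes,
and the two kinds of triggers -/
structure Par where
  cnt : ℕ → ℕ → ℕ → ℕ → ℕ
  tT : ℕ → ℕ → ℕ → Bool
  tN : ℕ → ℕ → ℕ → Option ℕ

def elt (e i j X : ℕ) : ℕ := Nat.pair e (Nat.pair i (Nat.pair j X))

/-- the agent of a `μ`-index -/
def ag (y : ℕ) : ℕ := 3 * (y / 2) + 1 + y % 2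

variable (P : Par)

/-- side `b` of the class `c` is committed for the opponent `e` at stage `s` -/
def comm (e s : ℕ) (c : Cl) (b : ℕ) : Prop :=
  ∃ r ∈ c.recs, r.2.2 = b ∧ ∃ i < s, 1 ≤ P.cnt e s i (elt e i 0 r.1) ∧
    2 ≤ P.cnt e s i (elt e i r.2.1 r.1)

def trig (s : ℕ) (c : Cl) : Prop :=
  (c.pos % 2 = 0 ∧ P.tT (c.pos / 2) s c.id = true) ∨
  (c.pos % 2 ≠ 0 ∧ ∃ m ∈ c.mem, (P.tN (c.pos / 2) s c.id).map ag = some m.1)

def sepOk (s : ℕ) (c : Cl) : Prop := c.typ = 2 ∧ trig P s c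

def merOk (s : ℕ) (c c' : Cl) (e b : ℕ) : Prop :=
  (c.typ ≠ 0 ∧ c'.typ ≠ 0) ∧ (b ≠ 0 ∧ b ≤ c.typ) ∧ c.bp < c'.pos ∧ e < c.pos ∧
    ¬ comm P e s c b ∧ (comm P e s c' 1 ∨ comm P e s c' 2)

/-- the class with a given identifier -/
noncomputable def fnd (S : List Cl) (a : ℕ) : Option Cl := (S.filter (fun c => c.id = a)).head?

abbrev St := List Cl × ℕ

noncomputable def actSep (s : ℕ) (S : St) (c : Cl) : St :=
  if sepOk P s c then (sepL S.1 c S.2, S.2 + 3) else S

noncomputable def reHost (S : St) (c' : Cl) : St :=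
  if c'.typ = 2 then (hostCl S.2 c'.pos :: S.1, S.2 + 1) else S

noncomputable def actMer (s : ℕ) (S : St) (c c' : Cl) (e b : ℕ) : St :=
  if merOk P s c c' e b then reHost (merL S.1 c c' b, S.2) c' else S

noncomputable def act2 (s : ℕ) (S : St) (c c' : Cl) (e b : ℕ) : St :=
  if b = 0 then actSep P s S c else actMer P s S c c' e b

noncomputable def act (s : ℕ) (S : St) (a a' e b : ℕ) : St :=
  ((fnd S.1 a).bind fun c => (fnd S.1 a').map fun c' => act2 P s S c c' e b).getD S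

noncomputable def step (s : ℕ) (S : St) : St :=
  let w := (Nat.unpair s).2
  let w1 := (Nat.unpair w).2
  let w2 := (Nat.unpair w1).2
  let S' := act P s S (Nat.unpair w).1 (Nat.unpair w1).1 (Nat.unpair w2).1 (Nat.unpair w2).2
  (hostCl S'.2 s :: S'.1, S'.2 + 1)

noncomputable def st : ℕ → St
  | 0 => ([], 0)
  | s + 1 => step P s (st s)

/-- code of a candidate action -/
def code (q a a' e b : ℕ) : ℕ := Nat.pair q (Nat.pair a (Nat.pair a' (Nat.pair e b)))

lemma step_code (q a a' e b : ℕ) (S : St) : step P (code q a a' e b) S =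
    (hostCl (act P (code q a a' e b) S a a' e b).2 (code q a a' e b) ::
      (act P (code q a a' e b) S a a' e b).1, (act P (code q a a' e b) S a a' e b).2 + 1) := by
  unfold step
  simp [code]

lemma le_code (q a a' e b : ℕ) : q ≤ code q a a' e b := Nat.left_le_pair _ _

lemma fnd_some {S : List Cl} {a : ℕ} {c : Cl} (h : fnd S a = some c) : c ∈ S ∧ c.id = a := by
  unfold fnd at h
  have h1 := List.mem_of_mem_head? h
  simpa using h1

lemma fnd_of_mem {S : List Cl} {N : ℕ} (h : Inv S N) {c : Cl} (hc : c ∈ S) :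
    fnd S c.id = some c := by
  unfold fnd
  have h1 : c ∈ S.filter (fun d => d.id = c.id) := by simp [hc]
  rcases h2 : (S.filter (fun d => d.id = c.id)).head? with _ | d
  · rw [List.head?_eq_none_iff] at h2; rw [h2] at h1; simp at h1
  · have h3 := List.mem_of_mem_head? h2
    simp only [List.mem_filter, decide_eq_true_eq] at h3
    rw [h2, h.idu d h3.1 c hc h3.2]

/-- the possible results of an action -/
inductive Res (s : ℕ) (S : St) : St → Prop
  | no : Res s S S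
  | sep (c : Cl) (hc : c ∈ S.1) (ok : sepOk P s c) : Res s S (sepL S.1 c S.2, S.2 + 3)
  | mer (c c' : Cl) (e b : ℕ) (hc : c ∈ S.1) (hc' : c' ∈ S.1) (ok : merOk P s c c' e b) :
      Res s S (reHost (merL S.1 c c' b, S.2) c')

lemma act_res (s : ℕ) (S : St) (a a' e b : ℕ) : Res P s S (act P s S a a' e b) := by
  unfold act
  rcases h1 : fnd S.1 a with _ | c
  · exact Res.no
  rcases h2 : fnd S.1 a' with _ | c'
  · exact Res.no
  simp only [Option.bind_some, Option.map_some, Option.getD_some]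
  unfold act2
  split_ifs with hb
  · unfold actSep
    split_ifs with h3
    · exact Res.sep c (fnd_some h1).1 h3
    · exact Res.no
  · unfold actMer
    split_ifs with h3
    · exact Res.mer c c' e b (fnd_some h1).1 (fnd_some h2).1 h3
    · exact Res.no

lemma act_sep {s : ℕ} {S : St} {c : Cl} (h : Inv S.1 S.2) (hc : c ∈ S.1) (ok : sepOk P s c) (e : ℕ) :
    act P s S c.id c.id e 0 = (sepL S.1 c S.2, S.2 + 3) := by
  unfold act
  rw [fnd_of_mem h hc]
  simp only [Option.bind_some, Option.map_some, Option.getD_some]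
  unfold act2 actSep
  rw [if_pos rfl, if_pos ok]

lemma act_mer {s : ℕ} {S : St} {c c' : Cl} (h : Inv S.1 S.2) (hc : c ∈ S.1) (hc' : c' ∈ S.1)
    {e b : ℕ} (ok : merOk P s c c' e b) :
    act P s S c.id c'.id e b = reHost (merL S.1 c c' b, S.2) c' := by
  unfold act
  rw [fnd_of_mem h hc, fnd_of_mem h hc']
  simp only [Option.bind_some, Option.map_some, Option.getD_some]
  unfold act2 actMer
  rw [if_neg ok.2.1.1, if_pos ok]

lemma merOk.ok {s : ℕ} {S : List Cl} {c c' : Cl} {e b : ℕ} (h : merOk P s c c' e b) (hc : c ∈ S)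
    (hc' : c' ∈ S) : MerOk S c c' b :=
  ⟨hc, hc', h.1.1, h.1.2, h.2.1.1, h.2.1.2, h.2.2.1⟩

lemma step_res (s : ℕ) (S : St) : ∃ S', Res P s S S' ∧
    step P s S = (hostCl S'.2 s :: S'.1, S'.2 + 1) := ⟨_, act_res P s S _ _ _ _, rfl⟩

lemma Res.inv {P : Par} {s : ℕ} {S S' : St} (h : Res P s S S') (hS : Inv S.1 S.2) :
    Inv S'.1 S'.2 := by
  cases h with
  | no => exact hS
  | sep c hc ok => exact hS.sep hc ok.1
  | mer c c' e b hc hc' ok =>
    unfold reHost
    split_ifs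
    · exact (hS.mer (ok.ok P hc hc')).host _
    · exact hS.mer (ok.ok P hc hc')

lemma inv (s : ℕ) : Inv (st P s).1 (st P s).2 := by
  induction s with
  | zero => exact Inv.nil
  | succ s ih =>
    obtain ⟨S', h1, h2⟩ := step_res P s (st P s)
    rw [st, h2]
    exact (h1.inv ih).host _

lemma Res.tr {P : Par} {s : ℕ} {S S' : St} (h : Res P s S S') (hS : Inv S.1 S.2) {c : Cl} {α ρ : ℕ}
    (hc : c ∈ S.1) (hα : (α, ρ) ∈ c.mem) : ∃ d ∈ S'.1, ∃ ρ', (α, ρ') ∈ d.mem ∧ Tr c ρ d ρ' := by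
  cases h with
  | no => exact ⟨c, hc, ρ, hα, Tr.refl _ _⟩
  | sep c1 hc1 ok => exact tr_sep hS hc1 ok.1 hc hα
  | mer c1 c1' e b hc1 hc1' ok =>
    obtain ⟨d, hd, ρ', h1, h2⟩ := tr_mer hS (ok.ok P hc1 hc1') hc hα
    refine ⟨d, ?_, ρ', h1, h2⟩
    unfold reHost
    split_ifs
    · exact List.mem_cons_of_mem _ hd
    · exact hd

lemma tr_succ {s : ℕ} {c : Cl} {α ρ : ℕ} (hc : c ∈ (st P s).1) (hα : (α, ρ) ∈ c.mem) :
    ∃ d ∈ (st P (s + 1)).1, ∃ ρ', (α, ρ') ∈ d.mem ∧ Tr c ρ d ρ' := by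
  obtain ⟨S', h1, h2⟩ := step_res P s (st P s)
  obtain ⟨d, hd, ρ', h3, h4⟩ := h1.tr (inv P s) hc hα
  refine ⟨d, ?_, ρ', h3, h4⟩
  rw [st, h2]
  exact List.mem_cons_of_mem _ hd

lemma tr_le {s t : ℕ} (hst : s ≤ t) {c : Cl} {α ρ : ℕ} (hc : c ∈ (st P s).1) (hα : (α, ρ) ∈ c.mem) :
    ∃ d ∈ (st P t).1, ∃ ρ', (α, ρ') ∈ d.mem ∧ Tr c ρ d ρ' := by
  induction t, hst using Nat.le_induction with
  | base => exact ⟨c, hc, ρ, hα, Tr.refl _ _⟩
  | succ t hst ih =>
    obtain ⟨d, hd, ρ', h1, h2⟩ := ih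
    obtain ⟨e, he, ρ'', h3, h4⟩ := tr_succ P hd h1
    exact ⟨e, he, ρ'', h3, h2.trans h4⟩

/-- agents in given classes at two stages -/
lemma tr_of {s t : ℕ} (hst : s ≤ t) {c d : Cl} {α ρ ρ' : ℕ} (hc : c ∈ (st P s).1)
    (hα : (α, ρ) ∈ c.mem) (hd : d ∈ (st P t).1) (hα' : (α, ρ') ∈ d.mem) : Tr c ρ d ρ' := by
  obtain ⟨e, he, ρ'', h1, h2⟩ := tr_le P hst hc hα
  obtain ⟨rfl, rfl⟩ := (inv P t).mu e he d hd _ _ _ h1 hα'
  exact h2

lemma Res.le {P : Par} {s : ℕ} {S S' : St} (h : Res P s S S') : S.2 ≤ S'.2 := by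
  cases h with
  | no => exact le_rfl
  | sep c hc ok => exact Nat.le_add_right _ _
  | mer c c' e b hc hc' ok => unfold reHost; split_ifs <;> simp

lemma next_succ (s : ℕ) : (st P s).2 < (st P (s + 1)).2 := by
  obtain ⟨S', h1, h2⟩ := step_res P s (st P s)
  rw [st, h2]
  have := h1.le
  simp only
  omega

lemma le_next (s : ℕ) : s ≤ (st P s).2 := by
  induction s with
  | zero => exact Nat.zero_le _
  | succ s ih => have := next_succ P s; omega

lemma next_mono {s t : ℕ} (h : s ≤ t) : (st P s).2 ≤ (st P t).2 :=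
  monotone_nat_of_le_succ (fun s => (next_succ P s).le) h

/-- every agent is in some class at late stages -/
lemma born {α s : ℕ} (h : α < s) : ∃ c ∈ (st P s).1, ∃ ρ, (α, ρ) ∈ c.mem :=
  (inv P s).mex α (by have := le_next P s; omega)

end Pool.Agent.Helper158.Num
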