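import Pool.Agent.Helper158.Num.Univ

/-! Tools for the final assembly. -/

namespace Pool.Agent.Helper158.Num

open Nat.Partrec Encodable Denumerable

lemma ev_const {g : ℕ → ℕ} (hm : Monotone g) {n : ℕ} (hb : ∀ s, g s ≤ n) :
    ∃ K ≤ n, ∃ s₀, (∀ s ≥ s₀, g s = K) ∧ ∀ s, g s ≤ K := by
  have h : ∃ K, (∃ s, g s = K) ∧ ∀ s, g s ≤ K := by
    by_contra hcon
    push Not at hcon
    have h2 : ∀ m, ∃ s, m ≤ g s := by
      intro m
      induction m with
      | zero => exact ⟨0, Nat.zero_le _⟩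
      | succ m ih =>
        obtain ⟨s, hs⟩ := ih
        obtain ⟨t, ht⟩ := hcon (g s) ⟨s, rfl⟩
        exact ⟨t, by omega⟩
    obtain ⟨s, hs⟩ := h2 (n + 1)
    have := hb s
    omega
  obtain ⟨K, ⟨s, hs⟩, h2⟩ := h
  refine ⟨K, hs ▸ hb s, s, fun t ht => ?_, h2⟩
  have := hm ht
  have := h2 t
  omega

/-- the enumeration is universal -/
lemma opp_ex {n : ℕ} {S : Set ℕ} {f : ℕ → ℕ → Bool} (hf : Computable₂ f) (h0 : ∀ z, f z 0 = false)
    (h1 : ∀ z, {s | f z s ≠ f z (s + 1)}.encard ≤ n)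
    (h2 : ∀ z, ∃ s₀, ∀ s ≥ s₀, (f z s = true ↔ z ∈ S)) :
    ∃ e, ∀ i x, Nat.pair x i ∈ S ↔ Odd (cf (parU_ok n) e i x) := by
  obtain ⟨c, hc⟩ := ex_code hf
  refine ⟨encode c, fun i x => ?_⟩
  set z := Nat.pair x i with hz
  obtain ⟨K, hK, s₀, h3, h4⟩ := ev_const (g := chg f z) chg_mono (chg_le (h1 z))
  have hdom : ∀ k, (∃ s, (Code.evaln s c (Nat.pair k z)).isSome = true) ↔ k < K := by
    intro k
    rw [← evaln_dom, hc]
    constructor
    · rintro ⟨s, hs⟩
      exact lt_of_lt_of_le hs (h4 s)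
    · intro h
      exact ⟨s₀, by rw [h3 s₀ le_rfl]; exact h⟩
  have h5 : ∃ s₁, ∀ s ≥ s₁, ∀ k < K, (Code.evaln s c (Nat.pair k z)).isSome = true := by
    have h6 : ∀ m ≤ K, ∃ s₁, ∀ s ≥ s₁, ∀ k < m, (Code.evaln s c (Nat.pair k z)).isSome = true := by
      intro m
      induction m with
      | zero => intro _; exact ⟨0, fun s _ k hk => absurd hk (by omega)⟩
      | succ m ih =>
        intro hm
        obtain ⟨s₁, h7⟩ := ih (by omega)
        obtain ⟨s₂, h8⟩ := (hdom m).2 (by omega)
        refine ⟨max s₁ s₂, fun s hs k hk => ?_⟩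
        rcases Nat.lt_succ_iff_lt_or_eq.1 hk with h9 | rfl
        · exact h7 s (by omega) k h9
        · exact isSome_mono (by omega) h8
    exact h6 K le_rfl
  obtain ⟨s₁, h6⟩ := h5
  have hcf : cf (parU_ok n) (encode c) i x = K := by
    obtain ⟨s₂, h7⟩ := cf_spec (parU_ok n) (encode c) i x
    rw [← h7 (max s₁ s₂) (le_max_right _ _)]
    show cntU n (encode c) (max s₁ s₂) i x = K
    unfold cntU cd
    rw [Denumerable.ofNat_encode, ← List.countP_eq_length_filter]
    have h8 : List.countP (fun k => decide ((Code.evaln (max s₁ s₂) c (Nat.pair k z)).isSome = true))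
        (List.range n) = Nat.count (fun k => k < K) n := by
      unfold Nat.count
      apply List.countP_congr
      intro k _
      simp only [decide_eq_true_eq]
      exact ⟨fun h => (hdom k).1 ⟨_, h⟩, fun h => h6 _ (le_max_left _ _) k h⟩
    rw [h8, Nat.count_eq_card_filter_range]
    have h9 : (Finset.range n).filter (fun k => k < K) = Finset.range K := by
      ext k
      simp only [Finset.mem_filter, Finset.mem_range]
      omega
    rw [h9, Finset.card_range]
  rw [hcf]
  obtain ⟨s₂, h7⟩ := h2 z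
  rw [← h7 (max s₀ s₂) (le_max_right _ _), chg_odd (h0 z), h3 _ (le_max_left _ _)]

/-- the changes of the parity of a bounded monotone function -/
lemma par_changes {g : ℕ → ℕ} (hm : Monotone g) {n : ℕ} (hb : ∀ s, g s ≤ n) :
    {s | decide (Odd (g s)) ≠ decide (Odd (g (s + 1)))}.encard ≤ n := by
  have h1 : Set.InjOn (fun s => g (s + 1)) {s | decide (Odd (g s)) ≠ decide (Odd (g (s + 1)))} := by
    have key : ∀ s t, s < t → t ∈ {s | decide (Odd (g s)) ≠ decide (Odd (g (s + 1)))} →
        g (s + 1) ≠ g (t + 1) := by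
      intro s t hst ht h
      have h2 : g (s + 1) ≤ g t := hm (by omega)
      have h3 : g t ≤ g (t + 1) := hm (by omega)
      apply ht
      have : g t = g (t + 1) := by omega
      rw [this]
    intro s hs t ht hst
    rcases lt_trichotomy s t with h | h | h
    · exact absurd hst (key s t h ht)
    · exact h
    · exact absurd hst.symm (key t s h hs)
  rw [← h1.encard_image]
  have h2 : (fun s => g (s + 1)) '' {s | decide (Odd (g s)) ≠ decide (Odd (g (s + 1)))} ⊆
      ((Finset.Icc 1 n : Finset ℕ) : Set ℕ) := by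
    rintro k ⟨s, hs, rfl⟩
    simp only [Finset.coe_Icc, Set.mem_Icc]
    refine ⟨?_, hb _⟩
    by_contra hcon
    apply hs
    have h3 : g s ≤ g (s + 1) := hm (by omega)
    have : g s = g (s + 1) := by omega
    rw [this]
  refine (Set.encard_le_encard h2).trans ?_
  rw [Set.encard_coe_eq_coe_finsetCard]
  simp

/-- numberings by agents are computable at the right level -/
lemma nce_F {n : ℕ} (hn : 2 ≤ n) {a : ℕ → ℕ} (ha : Primrec a) :
    ∃ f : ℕ → ℕ → Bool, Computable₂ f ∧ (∀ z, f z 0 = false) ∧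
      (∀ z, {s | f z s ≠ f z (s + 1)}.encard ≤ n) ∧
      ∀ z, ∃ s₀, ∀ s ≥ s₀, (f z s = true ↔
        z ∈ {z : ℕ | (Nat.unpair z).1 ∈ F (parU n) n (a (Nat.unpair z).2)}) := by
  classical
  refine ⟨fun z s => decide (Odd (DD (parU n) n s (a (Nat.unpair z).2) (Nat.unpair z).1)),
    ?_, ?_, ?_, ?_⟩
  · have h1 : Primrec fun q : ℕ × ℕ =>
        DD (parU n) n q.2 (a (Nat.unpair q.1).2) (Nat.unpair q.1).1 :=
      Pr.DD (parU_prim n) n Primrec.snd (ha.comp (Pr.un2 Primrec.fst)) (Pr.un1 Primrec.fst)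
    have h2 : PrimrecPred fun q : ℕ × ℕ =>
        Odd (DD (parU n) n q.2 (a (Nat.unpair q.1).2) (Nat.unpair q.1).1) :=
      (Pr.eqn (Pr.mod h1 (Pr.cst 2)) (Pr.cst 1)).of_eq fun q => Nat.odd_iff.symm
    exact (h2.decide.to_comp).of_eq fun q => by
      exact decide_eq_decide.2 Iff.rfl
  · intro z
    simp [DD, st, loc]
  · intro z
    refine par_changes (g := fun s => DD (parU n) n s (a (Nat.unpair z).2) (Nat.unpair z).1)
      (fun s t h => DD_mono hn (parU_ok n) h _ _) (fun s => DD_le hn (parU_ok n) _ _ _) |>.trans_eq' ?_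
    rfl
  · intro z
    obtain ⟨K, -, s₀, h1, -⟩ := ev_const
      (g := fun s => DD (parU n) n s (a (Nat.unpair z).2) (Nat.unpair z).1)
      (fun s t h => DD_mono hn (parU_ok n) h _ _) (fun s => DD_le hn (parU_ok n) _ _ _)
    refine ⟨s₀, fun s hs => ?_⟩
    rw [decide_eq_true_eq]
    show Odd _ ↔ (Nat.unpair z).1 ∈ F (parU n) n (a (Nat.unpair z).2)
    rw [h1 s hs]
    unfold F
    constructor
    · intro h
      exact ⟨s₀, fun t ht => by rw [h1 t ht]; exact h⟩
    · rintro ⟨s₁, h2⟩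
      have := h2 (max s₀ s₁) (le_max_right _ _)
      rwa [h1 _ (le_max_left _ _)] at this

/-- uniformisation -/
lemma unif {R : ℕ → ℕ → ℕ → Prop} (hR : PrimrecPred fun q : ℕ × ℕ × ℕ => R q.1 q.2.1 q.2.2)
    (h : ∀ i, ∃ s X, R s i X) : ∃ g : ℕ → ℕ, Computable g ∧ ∀ i, ∃ s, R s i (g i) := by
  classical
  have h1 : PrimrecPred fun q : ℕ × ℕ => R (Nat.unpair q.2).1 q.1 (Nat.unpair q.2).2 :=
    hR.comp ((Pr.un1 Primrec.snd).pair (Primrec.fst.pair (Pr.un2 Primrec.snd)))
  have h2 : Partrec fun i : ℕ => Nat.rfind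
      (fun p => Part.some (decide (R (Nat.unpair p).1 i (Nat.unpair p).2)) : ℕ →. Bool) := by
    refine Partrec.rfind ?_
    exact Computable.partrec (h1.decide.to_comp)
  have h3 : ∀ i, (Nat.rfind
      (fun p => Part.some (decide (R (Nat.unpair p).1 i (Nat.unpair p).2)) : ℕ →. Bool)).Dom := by
    intro i
    obtain ⟨s, X, h4⟩ := h i
    refine Nat.rfind_dom.2 ⟨Nat.pair s X, Part.mem_some_iff.2 ?_, fun _ => trivial⟩
    simpa using h4
  have h4 : Computable fun i => (Nat.rfind
      (fun p => Part.some (decide (R (Nat.unpair p).1 i (Nat.unpair p).2)) : ℕ →. Bool)).get (h3 i) :=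
    h2.of_eq fun i => (Part.some_get (h3 i)).symm
  refine ⟨_, Computable.snd.comp (Computable.unpair.comp h4), fun i => ?_⟩
  have h5 := Nat.rfind_spec (Part.get_mem (h3 i))
  have h6 := Part.mem_some_iff.1 h5
  exact ⟨_, by simpa using h6.symm⟩

/-- a computable function can be corrected at finitely many places -/
lemma patch {Q : ℕ → ℕ → Prop} {g : ℕ → ℕ} (hg : Computable g) (hfin : {i | ¬ Q i (g i)}.Finite)
    (h : ∀ i, ∃ j, Q i j) : ∃ g' : ℕ → ℕ, Computable g' ∧ ∀ i, Q i (g' i) := by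
  classical
  choose j hj using h
  have key : ∀ T : Finset ℕ, ∃ g' : ℕ → ℕ, Computable g' ∧ ∀ i, Q i (g' i) ∨ (i ∉ T ∧ g' i = g i) := by
    intro T
    induction T using Finset.induction_on with
    | empty => exact ⟨g, hg, fun i => Or.inr ⟨by simp, rfl⟩⟩
    | insert a T ha ih =>
      obtain ⟨g', hg', h1⟩ := ih
      refine ⟨fun i => cond (decide (i = a)) (j a) (g' i), ?_, fun i => ?_⟩
      · refine Computable.cond ?_ (Computable.const _) hg'
        exact (Primrec.eq.decide.comp Primrec.id (Primrec.const a)).to_comp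
      · by_cases hi : i = a
        · subst hi
          left
          simpa using hj i
        · have h2 : decide (i = a) = false := by simpa using hi
          rcases h1 i with h3 | ⟨h3, h4⟩
          · left; simpa [h2] using h3
          · right
            refine ⟨?_, by simpa [h2] using h4⟩
            rw [Finset.mem_insert]
            push Not
            exact ⟨hi, h3⟩
  obtain ⟨g', h1, h2⟩ := key hfin.toFinset
  refine ⟨g', h1, fun i => ?_⟩
  rcases h2 i with h3 | ⟨h3, h4⟩
  · exact h3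
  · rw [Set.Finite.mem_toFinset] at h3
    rw [h4]
    by_contra hcon
    exact h3 hcon

end Pool.Agent.Helper158.Num
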