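import Pool.Agent.Helper158.Num.Mer

/-! How agents move, and the content function. -/

namespace Pool.Agent.Helper158.Num

/-- the way the class of an agent changes -/
structure Tr (c : Cl) (ρ : ℕ) (d : Cl) (ρ' : ℕ) : Prop where
  z : ρ = 0 ↔ ρ' = 0
  r3 : ∀ X, (X, 3, 0) ∈ c.recs → (X, 3, 0) ∈ d.recs ∨
    ∃ j, (X, j, ρ') ∈ d.recs ∧ j ≤ 2 ∧ (j = 0 ↔ ρ = 0)
  rj : ∀ X j b, (X, j, b) ∈ c.recs → j ≠ 3 → ∃ b', (X, j, b') ∈ d.recs ∧ (b = 0 → b' = 0) ∧
    (b ≠ 0 → b = ρ → b' = ρ')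
  pos : d.pos ≤ c.pos
  st : c.typ = 0 → d = c

lemma Tr.refl (c : Cl) (ρ : ℕ) : Tr c ρ c ρ :=
  ⟨Iff.rfl, fun _ h => Or.inl h, fun _ _ b h _ => ⟨b, h, id, fun _ h => h⟩, le_rfl, fun _ => rfl⟩

lemma Tr.trans {c d e : Cl} {ρ ρ' ρ'' : ℕ} (h : Tr c ρ d ρ') (h' : Tr d ρ' e ρ'') :
    Tr c ρ e ρ'' where
  z := h.z.trans h'.z
  r3 X hX := by
    rcases h.r3 X hX with h1 | ⟨j, h1, hj, hj0⟩
    · rcases h'.r3 X h1 with h2 | ⟨j, h2, hj, hj0⟩
      · exact Or.inl h2
      · exact Or.inr ⟨j, h2, hj, hj0.trans h.z.symm⟩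
    · obtain ⟨b', h2, h3, h4⟩ := h'.rj X j ρ' h1 (by omega)
      right
      refine ⟨j, ?_, hj, hj0⟩
      by_cases h5 : ρ' = 0
      · rw [h3 h5] at h2
        rw [h'.z.1 h5]; exact h2
      · rw [h4 h5 rfl] at h2; exact h2
  rj X j b hX hj := by
    obtain ⟨b', h1, h2, h3⟩ := h.rj X j b hX hj
    obtain ⟨b'', h4, h5, h6⟩ := h'.rj X j b' h1 hj
    refine ⟨b'', h4, fun h7 => h5 (h2 h7), fun h7 h8 => ?_⟩
    have h9 := h3 h7 h8
    refine h6 ?_ h9
    rw [h9]
    intro h10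
    exact h7 (h8.trans (h.z.2 h10))
  pos := h'.pos.trans h.pos
  st hc := by
    obtain rfl := h.st hc
    exact h'.st hc

/-- the record of a name -/
def lk (X : ℕ) (l : List (ℕ × ℕ × ℕ)) : Option (ℕ × ℕ) := l.lookup X

lemma mem_of_lk {X : ℕ} {l : List (ℕ × ℕ × ℕ)} {p : ℕ × ℕ} (h : lk X l = some p) : (X, p) ∈ l := by
  unfold lk at h
  induction l with
  | nil => simp at h
  | cons a l ih =>
    obtain ⟨Y, q⟩ := a
    rw [List.lookup_cons] at h
    by_cases h1 : X = Y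
    · subst h1
      simp only [BEq.rfl, Option.some.injEq] at h
      rw [h]; exact List.mem_cons_self
    · have h2 : (X == Y) = false := by simpa using h1
      rw [h2] at h
      exact List.mem_cons_of_mem _ (ih h)

lemma lk_of_mem {X : ℕ} {l : List (ℕ × ℕ × ℕ)} {p : ℕ × ℕ} (h : (X, p) ∈ l)
    (hu : ∀ q, (X, q) ∈ l → q = p) : lk X l = some p := by
  unfold lk
  induction l with
  | nil => simp at h
  | cons a l ih =>
    obtain ⟨Y, q⟩ := a
    rw [List.lookup_cons]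
    by_cases h1 : X = Y
    · subst h1
      simp only [BEq.rfl]
      rw [hu q List.mem_cons_self]
    · have h2 : (X == Y) = false := by simpa using h1
      rw [h2]
      refine ih ?_ fun q' hq' => hu q' (List.mem_cons_of_mem _ hq')
      rcases List.mem_cons.1 h with h2 | h2
      · simp only [Prod.mk.injEq] at h2; exact absurd h2.1 h1
      · exact h2

lemma lk_none {X : ℕ} {l : List (ℕ × ℕ × ℕ)} (h : ∀ q, (X, q) ∉ l) : lk X l = none := by
  rcases h1 : lk X l with _ | p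
  · rfl
  · exact absurd (mem_of_lk h1) (h p)

lemma Inv.lk_eq {S : List Cl} {N : ℕ} (h : Inv S N) {c : Cl} (hc : c ∈ S) {X j b : ℕ}
    (h1 : (X, j, b) ∈ c.recs) : lk X c.recs = some (j, b) :=
  lk_of_mem h1 (fun q hq => by
    obtain ⟨j', b'⟩ := q
    have := h.ru c hc _ _ _ _ _ h1 hq
    rw [this.1, this.2])

/-- the largest odd number at most `n` -/
def od (n : ℕ) : ℕ := if n % 2 = 1 then n else n - 1

/-- the number of changes of a membership; the element is in the set iff this is odd -/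
def Dv (n k j1 : ℕ) (κ : Option (ℕ × ℕ)) (ρ : ℕ) : ℕ :=
  if j1 = 0 then (if κ.isSome then od n else if k < 2 then 0 else k - 1)
  else if 2 < j1 then 0
  else if κ.isNone then 0
  else if (κ.getD (0, 0)).1 = 3 then 1
  else if (κ.getD (0, 0)).1 ≠ j1 then (if k < 2 then 1 else k - 1)
  else if (κ.getD (0, 0)).2 = 0 then (if k < 2 then 0 else k - 1)
  else if (κ.getD (0, 0)).2 = ρ then (if k < 2 then 2 else k)
  else (if k < 2 then 0 else k - 2)

lemma Dv_none {n k ρ : ℕ} {j1 : ℕ} : Dv n k j1 none ρ = if j1 = 0 then (if k < 2 then 0 else k - 1) else 0 := by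
  unfold Dv
  simp

lemma Dv_some {n k ρ j1 j b : ℕ} : Dv n k j1 (some (j, b)) ρ =
    if j1 = 0 then od n
    else if 2 < j1 then 0
    else if j = 3 then 1
    else if j ≠ j1 then (if k < 2 then 1 else k - 1)
    else if b = 0 then (if k < 2 then 0 else k - 1)
    else if b = ρ then (if k < 2 then 2 else k)
    else (if k < 2 then 0 else k - 2) := by
  unfold Dv
  simp

lemma Dv_le {n k j1 : ℕ} {κ : Option (ℕ × ℕ)} {ρ : ℕ} (hn : 2 ≤ n) (hk : k ≤ n) :
    Dv n k j1 κ ρ ≤ n := by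
  rcases κ with _ | ⟨j, b⟩
  · rw [Dv_none]; split_ifs <;> omega
  · rw [Dv_some]; unfold od; split_ifs <;> omega

/-- the parity of the number of changes does not depend on the role -/
lemma Dv_odd {n k j1 : ℕ} {κ : Option (ℕ × ℕ)} {ρ ρ' : ℕ} :
    Odd (Dv n k j1 κ ρ) ↔ Odd (Dv n k j1 κ ρ') := by
  have : Dv n k j1 κ ρ % 2 = Dv n k j1 κ ρ' % 2 := by
    rcases κ with _ | ⟨j, b⟩
    · rw [Dv_none, Dv_none]
    · rw [Dv_some, Dv_some]
      split_ifs <;> omega
  rw [Nat.odd_iff, Nat.odd_iff, this]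

lemma Dv_mono {S T : List Cl} {N M : ℕ} (hS : Inv S N) (hT : Inv T M) {c d : Cl} (hc : c ∈ S)
    (hd : d ∈ T) {ρ ρ' : ℕ} (h : Tr c ρ d ρ') {n k k' : ℕ} (hn : 2 ≤ n) (hk : k ≤ k') (hk' : k' ≤ n)
    (j1 X : ℕ) : Dv n k j1 (lk X c.recs) ρ ≤ Dv n k' j1 (lk X d.recs) ρ' := by
  rcases h1 : lk X c.recs with _ | ⟨j, b⟩
  · rw [Dv_none]
    rcases lk X d.recs with _ | ⟨j', b'⟩
    · rw [Dv_none]; split_ifs <;> omega
    · rw [Dv_some]
      by_cases hj1 : j1 = 0
      · rw [if_pos hj1, if_pos hj1]; unfold od; split_ifs <;> omega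
      · rw [if_neg hj1]; exact Nat.zero_le _
  · have h2 := mem_of_lk h1
    by_cases hj : j = 3
    · subst hj
      have hb := (hS.r3 c hc X b h2).1
      subst hb
      rcases h.r3 X h2 with h3 | ⟨j', h3, hj', hj0⟩
      · rw [hT.lk_eq hd h3, Dv_some, Dv_some]
        simp
      · rw [hT.lk_eq hd h3, Dv_some, Dv_some]
        have hz := h.z
        have h4 : j' ≠ 3 := by omega
        simp only [if_true]
        by_cases hj1 : j1 = 0
        · rw [if_pos hj1, if_pos hj1]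
        · rw [if_neg hj1, if_neg hj1]
          split_ifs <;> omega
    · obtain ⟨b', h3, h4, h5⟩ := h.rj X j b h2 hj
      rw [hT.lk_eq hd h3, Dv_some, Dv_some]
      have hz := h.z
      by_cases hj1 : j1 = 0
      · rw [if_pos hj1, if_pos hj1]
      · rw [if_neg hj1, if_neg hj1]
        by_cases hj2 : 2 < j1
        · rw [if_pos hj2, if_pos hj2]
        · rw [if_neg hj2, if_neg hj2, if_neg hj, if_neg hj]
          by_cases hjj : j = j1
          · rw [if_neg (not_not.2 hjj), if_neg (not_not.2 hjj)]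
            by_cases hb : b = 0
            · rw [if_pos hb, if_pos (h4 hb)]; split_ifs <;> omega
            · rw [if_neg hb]
              by_cases hbρ : b = ρ
              · have h6 := h5 hb hbρ
                have h7 : b' ≠ 0 := by rw [h6]; intro h8; exact hb (hbρ.trans (hz.2 h8))
                rw [if_pos hbρ, if_neg h7, if_pos h6]; split_ifs <;> omega
              · rw [if_neg hbρ]; split_ifs <;> omega
          · rw [if_pos hjj, if_pos hjj]; split_ifs <;> omega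

/-! transitions of the operations -/

lemma tr_sep {S : List Cl} {N : ℕ} (h : Inv S N) {c : Cl} (hc : c ∈ S) (hty : c.typ = 2) {d : Cl}
    (hd : d ∈ S) {α ρ : ℕ} (hα : (α, ρ) ∈ d.mem) :
    ∃ e ∈ sepL S c N, ∃ ρ', (α, ρ') ∈ e.mem ∧ Tr d ρ e ρ' := by
  by_cases hdc : d = c
  · subst hdc
    have h1 := h.mb d hd _ _ hα
    refine ⟨child d N ρ, (h.mem_sep hd).2 (Or.inl ⟨ρ, by omega, rfl⟩), m1 ρ, ?_, ?_⟩
    · rw [mem_child_mem]; exact Or.inr (Or.inr (Or.inr ⟨hα, rfl⟩))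
    · constructor
      · exact m1_eq_zero.symm
      · intro X hX
        refine Or.inr ⟨ρ, ?_, by omega, Iff.rfl⟩
        rw [mem_child_recs]; exact Or.inr (Or.inl ⟨0, hX, rfl, rfl⟩)
      · intro X j b hX hj
        refine ⟨_, by rw [mem_child_recs]; exact Or.inr (Or.inr ⟨b, hX, hj, rfl⟩), ?_, ?_⟩
        · intro hb; simp [hb]
        · intro hb hbρ; rw [if_pos ⟨hb, hbρ⟩, m1_of_ne (hbρ ▸ hb)]
      · exact le_rfl
      · intro h2; omega
  · exact ⟨d, (h.mem_sep hc).2 (Or.inr ⟨hd, hdc⟩), ρ, hα, Tr.refl _ _⟩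

lemma tr_mer {S : List Cl} {N : ℕ} (h : Inv S N) {c c' : Cl} {b : ℕ} (ok : MerOk S c c' b) {d : Cl}
    (hd : d ∈ S) {α ρ : ℕ} (hα : (α, ρ) ∈ d.mem) :
    ∃ e ∈ merL S c c' b, ∃ ρ', (α, ρ') ∈ e.mem ∧ Tr d ρ e ρ' := by
  have hc := ok.hc
  have hc' := ok.hc'
  by_cases hdc : d = c
  · subst hdc
    refine ⟨merge d c' b, (h.mem_mer hc hc').2 (Or.inl rfl), ρ, ?_, ?_⟩
    · rw [mem_merge_mem]; exact Or.inl hα
    · constructor
      · exact Iff.rfl
      · intro X hX; rw [mem_merge_recs]; exact Or.inl (Or.inl hX)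
      · intro X j b1 hX hj
        exact ⟨b1, by rw [mem_merge_recs]; exact Or.inl hX, id, fun _ h => h⟩
      · exact le_rfl
      · intro h2; exact absurd h2 ok.t
  · by_cases hdc' : d = c'
    · subst hdc'
      refine ⟨merge c d b, (h.mem_mer hc hc').2 (Or.inl rfl), if ρ ≠ 0 then b else 0, ?_, ?_⟩
      · rw [mem_merge_mem]; exact Or.inr ⟨ρ, hα, rfl⟩
      · have hb := ok.b0
        constructor
        · split_ifs with h1 <;> omega
        · intro X hX; left
          rw [mem_merge_recs]; exact Or.inr ⟨0, hX, by simp⟩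
        · intro X j b1 hX hj
          refine ⟨_, by rw [mem_merge_recs]; exact Or.inr ⟨b1, hX, rfl⟩, ?_, ?_⟩
          · intro h2; simp [h2]
          · intro h2 h3; rw [if_pos h2, if_pos (h3 ▸ h2)]
        · have := ok.lt
          have := h.pb c hc
          change c.pos ≤ _
          omega
        · intro h2; exact absurd h2 ok.t'
    · exact ⟨d, (h.mem_mer hc hc').2 (Or.inr ⟨hd, hdc, hdc'⟩), ρ, hα, Tr.refl _ _⟩

end Pool.Agent.Helper158.Num
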