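import Pool.Agent.Helper158.Num.Prim
import Pool.Agent.Helper158.Num.Req

/-! The universal enumeration of the opponents, and some computability tools. -/

namespace Pool.Agent.Helper158.Num

open Nat.Partrec Encodable Denumerable

/-- the code with a given number -/
def cd (e : ℕ) : Code := ofNat Code e

/-- the `e`-th counter: the number of the levels below `n` which have been reached -/
def cntU (n e s i x : ℕ) : ℕ :=
  ((List.range n).filter
    (fun k => (Code.evaln s (cd e) (Nat.pair k (Nat.pair x i))).isSome = true)).length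

def tTU (m s X : ℕ) : Bool := (Code.evaln s (cd m) (Nat.pair (2 * X) (2 * X + 1))).isSome

def tNU (m s X : ℕ) : Option ℕ := Code.evaln s (cd m) X

/-- the data for the actual construction -/
def parU (n : ℕ) : Par := ⟨cntU n, tTU, tNU⟩

lemma isSome_mono {s t : ℕ} (h : s ≤ t) {c : Code} {z : ℕ} (h1 : (Code.evaln s c z).isSome = true) :
    (Code.evaln t c z).isSome = true := by
  rw [Option.isSome_iff_exists] at h1 ⊢
  obtain ⟨y, hy⟩ := h1
  exact ⟨y, Code.evaln_mono h hy⟩

lemma cntU_mono {n e s t i x : ℕ} (h : s ≤ t) : cntU n e s i x ≤ cntU n e t i x := by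
  unfold cntU
  rw [← List.countP_eq_length_filter, ← List.countP_eq_length_filter]
  apply List.countP_mono_left
  intro k _ hk
  simp only [decide_eq_true_eq] at hk ⊢
  exact isSome_mono h hk

lemma cntU_le {n e s i x : ℕ} : cntU n e s i x ≤ n := by
  unfold cntU
  exact (List.length_filter_le _ _).trans (by simp)

lemma parU_ok (n : ℕ) : (parU n).Ok n where
  mono e s t i x h := cntU_mono h
  le e s i x := cntU_le
  supp e s i x h := by
    have h1 : 1 ≤ cntU n e s i x := h
    unfold cntU at h1
    obtain ⟨k, hk⟩ := List.exists_mem_of_length_pos h1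
    rw [List.mem_filter] at hk
    have h2 := hk.2
    simp only [decide_eq_true_eq] at h2
    rw [Option.isSome_iff_exists] at h2
    obtain ⟨y, hy⟩ := h2
    have h3 := Code.evaln_bound hy
    have h4 : i ≤ Nat.pair x i := Nat.right_le_pair _ _
    have h5 : Nat.pair x i ≤ Nat.pair k (Nat.pair x i) := Nat.right_le_pair _ _
    omega
  triv := by
    obtain ⟨c, hc⟩ := Code.exists_code.1 Nat.Partrec.none
    refine ⟨encode c, fun s i x => ?_⟩
    show cntU n (encode c) s i x = 0
    unfold cntU cd
    rw [Denumerable.ofNat_encode, List.length_eq_zero_iff, List.filter_eq_nil_iff]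
    intro k _
    simp only [decide_eq_true_eq]
    rw [Option.isSome_iff_exists]
    rintro ⟨y, hy⟩
    have h1 := Code.evaln_sound hy
    rw [hc] at h1
    exact absurd h1 (Part.notMem_none _)
  tTm m s t X h h1 := isSome_mono h h1
  tNm m s t X y h h1 := Code.evaln_mono h h1

section
variable {γ : Type} [Primcodable γ]

lemma pr_evaln {s e z : γ → ℕ} (hs : Primrec s) (he : Primrec e) (hz : Primrec z) :
    Primrec fun a => Code.evaln (s a) (cd (e a)) (z a) :=
  Code.primrec_evaln.comp ((hs.pair ((Primrec.ofNat Code).comp he)).pair hz)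

lemma parU_prim (n : ℕ) : (parU n).Prim where
  cnt := by
    show Primrec (fun q : ℕ × ℕ × ℕ × ℕ => cntU n q.1 q.2.1 q.2.2.1 q.2.2.2)
    unfold cntU
    refine Primrec.list_length.comp ?_
    refine Pr.filterL (f := fun _ : ℕ × ℕ × ℕ × ℕ => List.range n)
      (R := fun q k => (Code.evaln q.2.1 (cd q.1) (Nat.pair k (Nat.pair q.2.2.2 q.2.2.1))).isSome = true)
      (Primrec.const _) ?_
    have f := Primrec.fst (α := ℕ × ℕ × ℕ × ℕ) (β := ℕ)
    have f1 := Primrec.fst.comp f
    have f2 := Primrec.snd.comp f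
    have f3 := Primrec.fst.comp f2
    have f4 := Primrec.snd.comp f2
    have f5 := Primrec.fst.comp f4
    have f6 := Primrec.snd.comp f4
    exact Primrec.eq.comp (Primrec.option_isSome.comp (pr_evaln f3 f1
      (Pr.pair Primrec.snd (Pr.pair f6 f5)))) (Primrec.const true)
  tT := by
    show Primrec (fun q : ℕ × ℕ × ℕ => tTU q.1 q.2.1 q.2.2)
    unfold tTU
    have f2 := Primrec.fst.comp (Primrec.snd (α := ℕ) (β := ℕ × ℕ))
    have f3 := Primrec.snd.comp (Primrec.snd (α := ℕ) (β := ℕ × ℕ))
    have g := Pr.mul (Pr.cst 2) f3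
    exact Primrec.option_isSome.comp (pr_evaln f2 Primrec.fst (Pr.pair g (Pr.add g (Pr.cst 1))))
  tN := by
    show Primrec (fun q : ℕ × ℕ × ℕ => tNU q.1 q.2.1 q.2.2)
    unfold tNU
    have f2 := Primrec.fst.comp (Primrec.snd (α := ℕ) (β := ℕ × ℕ))
    have f3 := Primrec.snd.comp (Primrec.snd (α := ℕ) (β := ℕ × ℕ))
    exact pr_evaln f2 Primrec.fst f3

end

/-! ### changes -/

/-- number of changes before `s` -/
def chg (f : ℕ → ℕ → Bool) (z s : ℕ) : ℕ :=
  Nat.rec 0 (fun t a => a + if f z t = f z (t + 1) then 0 else 1) s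

lemma chg_succ (f : ℕ → ℕ → Bool) (z s : ℕ) :
    chg f z (s + 1) = chg f z s + if f z s = f z (s + 1) then 0 else 1 := rfl

lemma chg_odd {f : ℕ → ℕ → Bool} {z : ℕ} (h0 : f z 0 = false) (s : ℕ) :
    f z s = true ↔ Odd (chg f z s) := by
  induction s with
  | zero => rw [h0]; unfold chg; simp
  | succ s ih =>
    rw [chg_succ]
    rw [Nat.odd_iff] at ih ⊢
    rcases h1 : f z s with _ | _ <;> rcases h2 : f z (s + 1) with _ | _ <;>
      rw [h1] at ih <;> simp at ih ⊢ <;> omega

lemma chg_mono {f : ℕ → ℕ → Bool} {z : ℕ} : Monotone (chg f z) :=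
  monotone_nat_of_le_succ fun s => by rw [chg_succ]; omega

lemma chg_card {f : ℕ → ℕ → Bool} {z s : ℕ} :
    chg f z s = ((Finset.range s).filter (fun t => f z t ≠ f z (t + 1))).card := by
  induction s with
  | zero => rfl
  | succ s ih =>
    rw [chg_succ, Finset.range_add_one, Finset.filter_insert, ih]
    by_cases h1 : f z s = f z (s + 1)
    · rw [if_pos h1, if_neg (by simpa using h1)]
      rfl
    · rw [if_neg h1, if_pos h1, Finset.card_insert_of_notMem (by simp)]

lemma chg_le {f : ℕ → ℕ → Bool} {z n : ℕ} (h : {t | f z t ≠ f z (t + 1)}.encard ≤ n) (s : ℕ) :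
    chg f z s ≤ n := by
  rw [chg_card]
  have h1 : (((Finset.range s).filter (fun t => f z t ≠ f z (t + 1)) : Finset ℕ) : Set ℕ).encard ≤ n := by
    refine (Set.encard_le_encard ?_).trans h
    intro t ht
    simpa using (Finset.mem_filter.1 ht).2
  rw [Set.encard_coe_eq_coe_finsetCard] at h1
  exact_mod_cast h1

lemma chg_comp {f : ℕ → ℕ → Bool} (hf : Computable₂ f) : Computable₂ (chg f) := by
  unfold chg
  refine Computable.nat_rec (f := fun q : ℕ × ℕ => q.2) (g := fun _ => 0)
    (h := fun q p => p.2 + if f q.1 p.1 = f q.1 (p.1 + 1) then 0 else 1)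
    Computable.snd (Computable.const 0) ?_
  have g1 : Computable fun r : (ℕ × ℕ) × (ℕ × ℕ) => f r.1.1 r.2.1 :=
    hf.comp (Computable.fst.comp Computable.fst) (Computable.fst.comp Computable.snd)
  have g2 : Computable fun r : (ℕ × ℕ) × (ℕ × ℕ) => f r.1.1 (r.2.1 + 1) :=
    hf.comp (Computable.fst.comp Computable.fst)
      (Computable.succ.comp (Computable.fst.comp Computable.snd))
  have g3 : Primrec fun p : Bool × Bool => if p.1 = p.2 then 0 else 1 :=
    Primrec.dom_finite _
  have g4 := g3.to_comp.comp (g1.pair g2)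
  exact Primrec.nat_add.to_comp.comp (Computable.snd.comp Computable.snd) g4

/-- the code of the levels of changes -/
lemma ex_code {f : ℕ → ℕ → Bool} (hf : Computable₂ f) : ∃ c : Code, ∀ k z,
    (Code.eval c (Nat.pair k z)).Dom ↔ ∃ s, k < chg f z s := by
  have h1 : Partrec fun w : ℕ =>
      Nat.rfind (fun s => Part.some (decide ((Nat.unpair w).1 < chg f (Nat.unpair w).2 s)) :
        ℕ →. Bool) := by
    refine Partrec.rfind ?_
    have h2 : Computable fun q : ℕ × ℕ => chg f (Nat.unpair q.1).2 q.2 :=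
      (chg_comp hf).comp (Computable.snd.comp (Computable.unpair.comp Computable.fst)) Computable.snd
    have h3 : Computable fun q : ℕ × ℕ => (Nat.unpair q.1).1 :=
      Computable.fst.comp (Computable.unpair.comp Computable.fst)
    have h4 := Primrec.nat_lt.decide.to_comp.comp h3 h2
    exact Computable.partrec h4
  obtain ⟨c, hc⟩ := Code.exists_code.1 (Partrec.nat_iff.1 h1)
  refine ⟨c, fun k z => ?_⟩
  rw [hc]
  refine Nat.rfind_dom.trans ?_
  constructor
  · rintro ⟨s, h2, -⟩
    have h3 := Part.mem_some_iff.1 h2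
    rw [Nat.unpair_pair] at h3
    exact ⟨s, by simpa using h3.symm⟩
  · rintro ⟨s, h2⟩
    refine ⟨s, Part.mem_some_iff.2 ?_, fun _ => trivial⟩
    rw [Nat.unpair_pair]
    simpa using h2

lemma evaln_dom {c : Code} {z : ℕ} : (Code.eval c z).Dom ↔ ∃ s, (Code.evaln s c z).isSome = true := by
  constructor
  · intro h
    obtain ⟨s, hs⟩ := Code.evaln_complete.1 (Part.get_mem h)
    exact ⟨s, Option.isSome_iff_exists.2 ⟨_, hs⟩⟩
  · rintro ⟨s, hs⟩
    obtain ⟨y, hy⟩ := Option.isSome_iff_exists.1 hs
    exact Part.dom_iff_mem.2 ⟨y, Code.evaln_sound hy⟩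

end Pool.Agent.Helper158.Num
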